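import Pool.Agent.TWF.CHA
import Pool.Agent.TWF.GAL

/-!
# TWF: the characters of `Gal(K B_n / k)` are products of characters of `Gal(K / k)` and `Gal(B_n / ℚ)`
-/

set_option autoImplicit false

open NumberField IsDedekindDomain Finset
open scoped nonZeroDivisors Pointwise

namespace Pool.Agent.TWF

open Pool.Agent.MU3 Pool.Agent.RI Pool.Agent.RID

/-- The abelian group `Gal(K/k)`. -/
theorem comm_algC {k K : IntermediateField ℚ ℂ} (h : k ≤ K)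
    (hab : ∀ σ τ : (IntermediateField.extendScalars h) ≃ₐ[k] (IntermediateField.extendScalars h),
      σ * τ = τ * σ) : letI := algC h
    ∀ a b : K ≃ₐ[k] K, a * b = b * a := by
  letI := algC h
  intro a b
  have h1 := hab ((extEquiv h).symm.autCongr a) ((extEquiv h).symm.autCongr b)
  rw [← map_mul, ← map_mul] at h1
  exact (extEquiv h).symm.autCongr.injective h1

/-- An automorphism of `K B / k` which is trivial on `K` and on `B` is trivial. -/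
theorem eq_one_of {k K B : IntermediateField ℚ ℂ} (h : k ≤ K ⊔ B) :
    letI := algC h
    ∀ τ : ↥(K ⊔ B) ≃ₐ[k] ↥(K ⊔ B),
      (∀ x : ↥(K ⊔ B), (x : ℂ) ∈ K → τ x = x) →
      (∀ x : ↥(K ⊔ B), (x : ℂ) ∈ B → τ x = x) → τ = 1 := by
  letI := algC h
  intro τ h1 h2
  have hQ : ∀ (r : ℚ), τ (r : ↥(K ⊔ B)) = r := fun r => map_ratCast τ r
  let T : IntermediateField ℚ ℂ :=
    { carrier := {z | ∃ hz : z ∈ K ⊔ B, τ ⟨z, hz⟩ = ⟨z, hz⟩}
      mul_mem' := by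
        rintro a b ⟨ha, ha'⟩ ⟨hb, hb'⟩
        refine ⟨mul_mem ha hb, ?_⟩
        have e : (⟨a * b, mul_mem ha hb⟩ : ↥(K ⊔ B)) = ⟨a, ha⟩ * ⟨b, hb⟩ := rfl
        rw [e, map_mul, ha', hb']
      add_mem' := by
        rintro a b ⟨ha, ha'⟩ ⟨hb, hb'⟩
        refine ⟨add_mem ha hb, ?_⟩
        have e : (⟨a + b, add_mem ha hb⟩ : ↥(K ⊔ B)) = ⟨a, ha⟩ + ⟨b, hb⟩ := rfl
        rw [e, map_add, ha', hb']
      algebraMap_mem' := by
        intro r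
        refine ⟨algebraMap_mem _ r, ?_⟩
        have e : (⟨algebraMap ℚ ℂ r, algebraMap_mem _ r⟩ : ↥(K ⊔ B)) = (r : ↥(K ⊔ B)) := by
          apply Subtype.ext
          simp
        rw [e, hQ]
      inv_mem' := by
        rintro a ⟨ha, ha'⟩
        refine ⟨inv_mem ha, ?_⟩
        have e : (⟨a⁻¹, inv_mem ha⟩ : ↥(K ⊔ B)) = (⟨a, ha⟩)⁻¹ := rfl
        rw [e, map_inv₀, ha'] }
  have hT : K ⊔ B ≤ T := by
    apply sup_le
    · intro a ha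
      exact ⟨(le_sup_left : K ≤ K ⊔ B) ha, h1 _ ha⟩
    · intro b hb
      exact ⟨(le_sup_right : B ≤ K ⊔ B) hb, h2 _ hb⟩
  ext x
  obtain ⟨hz, hx⟩ := hT x.2
  exact congrArg Subtype.val hx

/-- Restrictions of the automorphisms of `K B_n / k`, factorization of the characters. -/
theorem chr_split (l : ℕ) [Fact l.Prime] (k K : IntermediateField ℚ ℂ)
    (B : ℕ → IntermediateField ℚ ℂ) [FiniteDimensional ℚ K]
    [∀ n, FiniteDimensional ℚ ↥(K ⊔ B n)] (hB : Twr l k K B) (n : ℕ) (h : k ≤ K ⊔ B n) :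
    letI := algC h
    letI := algC hB.hk
    ∃ (r₁ : (↥(K ⊔ B n) ≃ₐ[k] ↥(K ⊔ B n)) →* (↥K ≃ₐ[k] ↥K))
      (r₂ : (↥(K ⊔ B n) ≃ₐ[k] ↥(K ⊔ B n)) →* (↥(B n) ≃ₐ[ℚ] ↥(B n))),
      (∀ (τ : ↥(K ⊔ B n) ≃ₐ[k] ↥(K ⊔ B n)) (x : K) (x' : ↥(K ⊔ B n)), (x' : ℂ) = x →
        ((τ x' : ↥(K ⊔ B n)) : ℂ) = (r₁ τ x : K)) ∧
      (∀ (τ : ↥(K ⊔ B n) ≃ₐ[k] ↥(K ⊔ B n)) (x : ↥(B n)) (x' : ↥(K ⊔ B n)), (x' : ℂ) = x →
        ((τ x' : ↥(K ⊔ B n)) : ℂ) = (r₂ τ x : ↥(B n))) ∧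
      ∀ X : (↥(K ⊔ B n) ≃ₐ[k] ↥(K ⊔ B n)) →* ℂˣ, ∃ (X₁ : (↥K ≃ₐ[k] ↥K) →* ℂˣ)
        (X₂ : (↥(B n) ≃ₐ[ℚ] ↥(B n)) →* ℂˣ), ∀ τ, X τ = X₁ (r₁ τ) * X₂ (r₂ τ) := by
  letI aL : Algebra k ↥(K ⊔ B n) := algC h
  letI aK : Algebra k K := algC hB.hk
  letI aKL : Algebra K ↥(K ⊔ B n) := algC le_sup_left
  letI aBL : Algebra (B n) ↥(K ⊔ B n) := algC le_sup_right
  obtain ⟨fdB, hGB, -⟩ := LAY_thm l n (B n) (hB.lay n)
  have hcyc : IsCyclic (B n ≃ₐ[ℚ] B n) := t_LAYC l n (B n) (hB.lay n)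
  have fdk : FiniteDimensional ℚ k := FiniteDimensional.of_injective
    (IntermediateField.inclusion hB.hk).toLinearMap
    (IntermediateField.inclusion hB.hk).toRingHom.injective
  haveI : IsScalarTower k K ↥(K ⊔ B n) := towerC hB.hk le_sup_left
  haveI : IsGalois k K := (isGalois_algC hB.hk).2 hB.gal
  haveI : IsScalarTower ℚ (B n) ↥(K ⊔ B n) := IsScalarTower.of_algebraMap_eq (fun _ => rfl)
  haveI : IsScalarTower ℚ k ↥(K ⊔ B n) := IsScalarTower.of_algebraMap_eq (fun _ => rfl)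
  have hfK : FiniteDimensional k K := Module.Finite.of_restrictScalars_finite ℚ k K
  have habB : ∀ a b : B n ≃ₐ[ℚ] B n, a * b = b * a := by
    intro a b
    obtain ⟨g, hg⟩ := hcyc.exists_generator
    obtain ⟨i, rfl⟩ := hg a
    obtain ⟨j, rfl⟩ := hg b
    exact zpow_mul_comm g i j
  let r₁ : (↥(K ⊔ B n) ≃ₐ[k] ↥(K ⊔ B n)) →* (↥K ≃ₐ[k] ↥K) := AlgEquiv.restrictNormalHom K
  let r₂ : (↥(K ⊔ B n) ≃ₐ[k] ↥(K ⊔ B n)) →* (↥(B n) ≃ₐ[ℚ] ↥(B n)) :=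
    { toFun := fun τ => (τ.restrictScalars ℚ).restrictNormal (B n)
      map_one' := by
        ext x
        apply congrArg Subtype.val
        apply (algebraMap (B n) ↥(K ⊔ B n)).injective
        rw [AlgEquiv.restrictNormal_commutes]
        rfl
      map_mul' := fun σ τ => by
        ext x
        apply congrArg Subtype.val
        apply (algebraMap (B n) ↥(K ⊔ B n)).injective
        rw [AlgEquiv.restrictNormal_commutes, AlgEquiv.mul_apply, AlgEquiv.restrictNormal_commutes,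
          AlgEquiv.restrictNormal_commutes]
        rfl }
  have p1 : ∀ (τ : ↥(K ⊔ B n) ≃ₐ[k] ↥(K ⊔ B n)) (x : K) (x' : ↥(K ⊔ B n)), (x' : ℂ) = x →
      ((τ x' : ↥(K ⊔ B n)) : ℂ) = (r₁ τ x : K) := by
    intro τ x x' hx
    have h1 : algebraMap K ↥(K ⊔ B n) (r₁ τ x) = τ (algebraMap K ↥(K ⊔ B n) x) :=
      AlgEquiv.restrictNormal_commutes τ K x
    have h2 : algebraMap K ↥(K ⊔ B n) x = x' := Subtype.ext hx.symm
    rw [h2] at h1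
    rw [← h1]
    rfl
  have p2 : ∀ (τ : ↥(K ⊔ B n) ≃ₐ[k] ↥(K ⊔ B n)) (x : ↥(B n)) (x' : ↥(K ⊔ B n)), (x' : ℂ) = x →
      ((τ x' : ↥(K ⊔ B n)) : ℂ) = (r₂ τ x : ↥(B n)) := by
    intro τ x x' hx
    have h1 : algebraMap (B n) ↥(K ⊔ B n) (r₂ τ x) = τ (algebraMap (B n) ↥(K ⊔ B n) x) :=
      AlgEquiv.restrictNormal_commutes (τ.restrictScalars ℚ) (B n) x
    have h2 : algebraMap (B n) ↥(K ⊔ B n) x = x' := Subtype.ext hx.symm
    rw [h2] at h1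
    rw [← h1]
    rfl
  refine ⟨r₁, r₂, p1, p2, fun X => ?_⟩
  refine factor (comm_algC hB.hk hB.ab) habB r₁ r₂ ?_ X
  intro g h1 h2
  refine eq_one_of h g ?_ ?_
  · intro x hx
    have h3 := p1 g ⟨(x : ℂ), hx⟩ x rfl
    rw [h1] at h3
    exact Subtype.ext h3
  · intro x hx
    have h3 := p2 g ⟨(x : ℂ), hx⟩ x rfl
    rw [h2] at h3
    exact Subtype.ext h3

end Pool.Agent.TWF
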