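import Pool.Agent.TWF.CHA
import Pool.Agent.MUX.StIX
import Pool.Agent.MUX.XLib
import Pool.Agent.NS.I_XMX
import Pool.Agent.RI.LAY
import Pool.Agent.RID.P_LAYC

/-!
# TWF: Dirichlet characters attached to the characters of the layers
-/

set_option autoImplicit false

open NumberField

namespace Pool.Agent.TWF

open _root_.MU3 Pool.Agent.MU3 Pool.Agent.RI Pool.Agent.RID Pool.Agent.MUX Pool.Agent.MUXI
open Pool.Agent.MU3I (w3 zt)

/-- in a cyclic group the elements killed by a prime `l` are the powers of an element of order `l` -/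
theorem cyc_mem {G : Type} [Group G] [Finite G] [IsCyclic G] (l : ℕ) (hl : l.Prime) (ρ g : G)
    (hρ : ρ ^ l = 1) (hρ1 : ρ ≠ 1) (hg : g ^ l = 1) : g ∈ Subgroup.zpowers ρ := by
  classical
  have : Fintype G := Fintype.ofFinite G
  have ho : orderOf ρ = l := by
    have : Fact l.Prime := ⟨hl⟩
    exact orderOf_eq_prime hρ hρ1
  have hle := IsCyclic.card_pow_eq_one_le (α := G) (n := l) hl.pos
  have hsub : (Finset.univ.filter fun a : G => a ∈ Subgroup.zpowers ρ) ⊆
      (Finset.univ.filter fun a : G => a ^ l = 1) := by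
    intro a ha
    rw [Finset.mem_filter] at ha ⊢
    obtain ⟨k, rfl⟩ := ha.2
    refine ⟨Finset.mem_univ _, ?_⟩
    show (ρ ^ k) ^ l = 1
    rw [← zpow_natCast, ← zpow_mul, mul_comm, zpow_mul, zpow_natCast, hρ, one_zpow]
  have hcard : (Finset.univ.filter fun a : G => a ∈ Subgroup.zpowers ρ).card = l := by
    rw [← ho, ← Nat.card_zpowers, Nat.card_eq_fintype_card, Fintype.card_subtype]
  have heq := Finset.eq_of_subset_of_card_le hsub (by rw [hcard]; exact hle)
  have h1 : g ∈ (Finset.univ.filter fun a : G => a ^ l = 1) := by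
    rw [Finset.mem_filter]
    exact ⟨Finset.mem_univ _, hg⟩
  rw [← heq, Finset.mem_filter] at h1
  exact h1.2

/-- an automorphism of `B'` which is trivial on `B` is killed by the degree -/
theorem pow_deg {B B' : IntermediateField ℚ ℂ} (hle : B ≤ B') [FiniteDimensional ℚ B']
    (hG : IsGalois ℚ B') (l : ℕ) (hd : Module.finrank ℚ B' = Module.finrank ℚ B * l)
    (g : B' ≃ₐ[ℚ] B') (hg : ∀ x : B', (x : ℂ) ∈ B → g x = x) : g ^ l = 1 := by
  let _ : Algebra B B' := (IntermediateField.inclusion hle).toRingHom.toAlgebra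
  have tow : IsScalarTower ℚ B B' := IsScalarTower.of_algebraMap_eq (fun _ => rfl)
  have hB : FiniteDimensional ℚ B := FiniteDimensional.of_injective
    (IntermediateField.inclusion hle).toLinearMap
    (IntermediateField.inclusion hle).toRingHom.injective
  have hf : FiniteDimensional B B' := Module.Finite.of_restrictScalars_finite ℚ B B'
  have hG' : IsGalois B B' := IsGalois.tower_top_of_isGalois ℚ B B'
  have hfr : Module.finrank B B' = l := by
    have h1 := Module.finrank_mul_finrank ℚ B B'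
    rw [hd] at h1
    exact Nat.eq_of_mul_eq_mul_left (Module.finrank_pos) h1
  let g' : B' ≃ₐ[B] B' := AlgEquiv.ofRingEquiv (f := g.toRingEquiv) (by
    intro x
    exact hg (algebraMap B B' x) x.2)
  have hc : Nat.card (B' ≃ₐ[B] B') = l := by
    rw [IsGalois.card_aut_eq_finrank, hfr]
  have h1 : g' ^ l = 1 := by
    rw [← hc]
    exact pow_card_eq_one'
  have h2 : ∀ (j : ℕ) (x : B'), (g ^ j) x = (g' ^ j) x := by
    intro j
    induction j with
    | zero => intro x; rfl
    | succ j ih =>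
      intro x
      rw [pow_succ, pow_succ, AlgEquiv.mul_apply, AlgEquiv.mul_apply, ih]
      rfl
  ext x
  rw [h2, h1]
  rfl

/-- the Dirichlet character attached to a character of `Gal(B_(n+1)/ℚ)` -/
theorem cyc (hLAY : Si_LAY) (l s n : ℕ) [hl : Fact l.Prime]
    (hls : (l = 3 ∧ s = 1) ∨ (l = 2 ∧ s = 2)) (B B' : IntermediateField ℚ ℂ)
    (hB : IsLayer l n B) (hB' : IsLayer l (n + 1) B') (hle : B ≤ B') :
    ∀ X : (B' ≃ₐ[ℚ] B') →* ℂˣ, ∃ ψ : DirichletCharacter ℂ (l ^ (n + 1 + s)), ψ (-1) = 1 ∧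
      ((∃ g : B' ≃ₐ[ℚ] B', (∀ x : B', (x : ℂ) ∈ B → g x = x) ∧ X g ≠ 1) →
        ψ (1 + (l : ZMod (l ^ (n + 1 + s))) ^ (n + 1 + s - 1)) ≠ 1) ∧
      ∀ (σ : ℂ →+* ℂ) (c : ℕ) (g : B' ≃ₐ[ℚ] B'), c.Coprime l →
        (∀ z : ℂ, z ^ (l ^ (n + 1 + s)) = 1 → σ z = z ^ c) →
        (∀ y : B', σ (y : ℂ) = (g y : B')) →
        ψ (c : ZMod (l ^ (n + 1 + s))) = (((X g)⁻¹ : ℂˣ) : ℂ) := by
  classical
  intro X
  have hl1 : 1 < l := hl.out.one_lt
  have hs1 : 1 ≤ s := by rcases hls with ⟨-, h⟩ | ⟨-, h⟩ <;> omega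
  set M : ℕ := l ^ (n + 1 + s) with hMdef
  have hM0 : M ≠ 0 := pow_ne_zero _ hl.out.ne_zero
  have : NeZero M := ⟨hM0⟩
  have hq : q0 l * l ^ (n + 1) = M := by
    rcases hls with ⟨rfl, rfl⟩ | ⟨rfl, rfl⟩
    · have h3 : q0 3 = 3 := by simp [q0]
      rw [h3, hMdef]
      ring
    · have h3 : q0 2 = 4 := by simp [q0]
      rw [h3, hMdef]
      ring
  have hζ : IsPrimitiveRoot (zt M) M := Complex.isPrimitiveRoot_exp M hM0
  set ζ := zt M with hζdef
  have hBeq : B' = IntermediateField.adjoin ℚ {ζ + ζ⁻¹} := by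
    have h1 := hLAY l (n + 1) (by rcases hls with ⟨h, -⟩ | ⟨h, -⟩ <;> tauto) B' hB'
    rw [hq] at h1
    exact h1
  obtain ⟨fdB, hGB, -⟩ := LAY_thm l (n + 1) B' hB'
  have hcyc : IsCyclic (B' ≃ₐ[ℚ] B') := t_LAYC l (n + 1) B' hB'
  have hfin : Finite (B' ≃ₐ[ℚ] B') := inferInstance
  have hBC : B' ≤ IntermediateField.adjoin ℚ {ζ} := by
    rw [hBeq, IntermediateField.adjoin_le_iff]
    intro x hx
    rw [Set.mem_singleton_iff] at hx
    rw [hx]
    have h1 := IntermediateField.mem_adjoin_simple_self ℚ ζ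
    exact add_mem h1 (inv_mem h1)
  obtain ⟨α, hα1, hα2⟩ := alpha M ζ hζ B' hBC
  refine ⟨MulChar.ofUnitHom ((X.comp α)⁻¹), ?_, ?_, ?_⟩
  · -- complex conjugation
    have hM1 : 1 ≤ M := Nat.one_le_iff_ne_zero.2 hM0
    have h1 : α (-1) = 1 := by
      ext y
      have h2 := hα1 (starRingEnd ℂ) (M - 1) (-1) ?_ ?_ y
      · have h3 : (starRingEnd ℂ) (y : ℂ) = y := hB'.2.1 _ y.2
        rw [h3] at h2
        exact h2.symm
      · rw [Units.val_neg, Units.val_one, Nat.cast_sub hM1, ZMod.natCast_self, Nat.cast_one,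
          zero_sub]
      · have h3 : (starRingEnd ℂ) ζ * ζ = 1 := by
          have h4 : ‖ζ‖ = 1 := hζ.norm'_eq_one hM0
          rw [mul_comm, Complex.mul_conj, Complex.normSq_eq_norm_sq, h4]
          norm_num
        have h4 : ζ ^ (M - 1) * ζ = 1 := by
          rw [← pow_succ, Nat.sub_add_cancel hM1]
          exact hζ.pow_eq_one
        exact mul_right_cancel₀ (hζ.ne_zero hM0) (h3.trans h4.symm)
    have h2 : ((-1 : (ZMod M)ˣ) : ZMod M) = -1 := by rw [Units.val_neg, Units.val_one]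
    rw [← h2, MulChar.ofUnitHom_coe]
    show ((((X.comp α)⁻¹) (-1 : (ZMod M)ˣ) : ℂˣ) : ℂ) = 1
    rw [MonoidHom.inv_apply, MonoidHom.comp_apply, h1, map_one, inv_one, Units.val_one]
  · rintro ⟨g₀, hg1, hg2⟩
    have he : n + 1 + s - 1 = n + s := by omega
    rw [he]
    have hMl : M = l ^ (n + s) * l := by
      rw [hMdef, ← pow_succ]
      congr 1
      omega
    have hsq : ((l : ZMod M) ^ (n + s)) * ((l : ZMod M) ^ (n + s)) = 0 := by
      rw [← pow_add]
      have h1 : ((l ^ (n + s + (n + s)) : ℕ) : ZMod M) = 0 := by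
        rw [ZMod.natCast_eq_zero_iff, hMdef]
        exact pow_dvd_pow l (by omega)
      push_cast at h1
      exact h1
    let u₁ : (ZMod M)ˣ := ⟨1 + (l : ZMod M) ^ (n + s), 1 - (l : ZMod M) ^ (n + s), by
      linear_combination -hsq, by linear_combination -hsq⟩
    have hu1 : (1 + (l : ZMod M) ^ (n + s)) = (u₁ : ZMod M) := rfl
    have hul : u₁ ^ l = 1 := by
      apply Units.ext
      rw [Units.val_pow_eq_pow_val, ← hu1, Units.val_one]
      have h1 : ∀ j : ℕ, (1 + (l : ZMod M) ^ (n + s)) ^ j = 1 + (j : ZMod M) * (l : ZMod M) ^ (n + s) := by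
        intro j
        induction j with
        | zero => simp
        | succ j ih =>
          rw [pow_succ, ih]
          push_cast
          linear_combination (j : ZMod M) * hsq
      rw [h1]
      have h2 : ((l : ZMod M) * (l : ZMod M) ^ (n + s)) = 0 := by
        have h3 : ((l ^ (n + s) * l : ℕ) : ZMod M) = 0 := by
          rw [← hMl, ZMod.natCast_self]
        push_cast at h3
        rw [mul_comm]
        exact h3
      rw [h2, add_zero]
    have hl4 : 4 ≤ l ^ (n + s) ∨ (l = 3 ∧ 3 ≤ l ^ (n + s)) := by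
      rcases hls with ⟨rfl, rfl⟩ | ⟨rfl, rfl⟩
      · right
        refine ⟨rfl, ?_⟩
        calc 3 = 3 ^ 1 := by norm_num
          _ ≤ 3 ^ (n + 1) := Nat.pow_le_pow_right (by norm_num) (by omega)
      · left
        calc 4 = 2 ^ 2 := by norm_num
          _ ≤ 2 ^ (n + 2) := Nat.pow_le_pow_right (by norm_num) (by omega)
    have hlt : 2 + l ^ (n + s) < M := by
      rw [hMl]
      rcases hl4 with h | ⟨h, h'⟩
      · nlinarith
      · subst h
        omega
    have hρ1 : α u₁ ≠ 1 := by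
      intro h1
      have hy : ζ + ζ⁻¹ ∈ B' := by
        rw [hBeq]
        exact IntermediateField.mem_adjoin_simple_self ℚ _
      have h2 := hα2 u₁ ⟨ζ + ζ⁻¹, hy⟩ rfl
      rw [h1] at h2
      have h3 : (u₁ : ZMod M).val = 1 + l ^ (n + s) := by
        have h4 : (u₁ : ZMod M) = ((1 + l ^ (n + s) : ℕ) : ZMod M) := by
          rw [← hu1]
          push_cast
          rfl
        rw [h4, ZMod.val_natCast, Nat.mod_eq_of_lt (by omega)]
      rw [h3] at h2
      have h5 : ζ ^ (1 + l ^ (n + s)) + (ζ ^ (1 + l ^ (n + s)))⁻¹ = ζ ^ 1 + (ζ ^ 1)⁻¹ := by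
        rw [← h2, pow_one]
        rfl
      have hpos : 0 < l ^ (n + s) := pow_pos hl.out.pos _
      rcases (Pool.Agent.NSI.Xmx.pm hM0 hζ _ _).1 h5 with h6 | h6
      · have h7 : (M : ℤ) ∣ (l ^ (n + s) : ℕ) := by
          have h8 : ((1 + l ^ (n + s) : ℕ) : ℤ) - ((1 : ℕ) : ℤ) = ((l ^ (n + s) : ℕ) : ℤ) := by
            push_cast
            ring
          rw [h8] at h6
          exact h6
        have h8 := Nat.le_of_dvd hpos (Int.natCast_dvd_natCast.1 h7)
        omega
      · have h7 : (M : ℤ) ∣ ((2 + l ^ (n + s) : ℕ) : ℤ) := by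
          have h8 : ((1 + l ^ (n + s) : ℕ) : ℤ) + ((1 : ℕ) : ℤ) = ((2 + l ^ (n + s) : ℕ) : ℤ) := by
            push_cast
            ring
          rw [h8] at h6
          exact h6
        have h8 := Nat.le_of_dvd (by omega) (Int.natCast_dvd_natCast.1 h7)
        omega
    have hρl : (α u₁) ^ l = 1 := by rw [← map_pow, hul, map_one]
    have hgl : g₀ ^ l = 1 := by
      refine pow_deg hle hGB l ?_ g₀ hg1
      rw [hB.1, hB'.1, pow_succ]
    obtain ⟨j, hj⟩ := cyc_mem l hl.out (α u₁) g₀ hρl hρ1 hgl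
    have hX : X (α u₁) ≠ 1 := by
      intro h1
      apply hg2
      rw [← hj]
      show X ((α u₁) ^ j) = 1
      rw [map_zpow, h1, one_zpow]
    rw [hu1, MulChar.ofUnitHom_coe]
    intro h1
    apply hX
    have h2 : ((X.comp α)⁻¹) u₁ = 1 := Units.ext h1
    rw [MonoidHom.inv_apply, MonoidHom.comp_apply, inv_eq_one] at h2
    exact h2
  · intro σ c g hc hσ hg
    have hcM : c.Coprime M := by
      rw [hMdef]
      exact Nat.Coprime.pow_right _ hc
    have h1 : ∀ y : B', σ (y : ℂ) = (α (ZMod.unitOfCoprime c hcM) y : B') :=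
      hα1 σ c (ZMod.unitOfCoprime c hcM) (ZMod.coe_unitOfCoprime c hcM)
        (hσ ζ hζ.pow_eq_one)
    have h2 : g = α (ZMod.unitOfCoprime c hcM) := by
      ext y
      rw [← hg y, h1 y]
    rw [← ZMod.coe_unitOfCoprime c hcM, MulChar.ofUnitHom_coe, MonoidHom.inv_apply,
      MonoidHom.comp_apply, ← h2]

end Pool.Agent.TWF
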