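import Pool.Agent.TWF.CHR
import Pool.Agent.TWF.CYC

/-!
# TWF: the intersection of a cyclic extension `L / k`, `L ≤ K B_n`, with `K B_(n₀)`
-/

set_option autoImplicit false

open NumberField

namespace Pool.Agent.TWF

open Pool.Agent.MU3 Pool.Agent.RI Pool.Agent.RID

/-- in a finite cyclic group a subgroup contains all elements killed by its order -/
theorem mem_of_pow {G : Type} [Group G] [Finite G] [IsCyclic G] (H : Subgroup G) (g : G)
    (hg : g ^ Nat.card H = 1) : g ∈ H := by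
  classical
  have : Fintype G := Fintype.ofFinite G
  have hle := IsCyclic.card_pow_eq_one_le (α := G) (n := Nat.card H) Nat.card_pos
  have hsub : (Finset.univ.filter fun a : G => a ∈ H) ⊆
      (Finset.univ.filter fun a : G => a ^ Nat.card H = 1) := by
    intro a ha
    rw [Finset.mem_filter] at ha ⊢
    refine ⟨Finset.mem_univ _, ?_⟩
    have h1 : (⟨a, ha.2⟩ : H) ^ Nat.card H = 1 := pow_card_eq_one'
    exact congrArg Subtype.val h1
  have hcard : (Finset.univ.filter fun a : G => a ∈ H).card = Nat.card H := by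
    rw [Nat.card_eq_fintype_card, Fintype.card_subtype]
  have heq := Finset.eq_of_subset_of_card_le hsub (by rw [hcard]; exact hle)
  have h1 : g ∈ (Finset.univ.filter fun a : G => a ^ Nat.card H = 1) := by
    rw [Finset.mem_filter]
    exact ⟨Finset.mem_univ _, hg⟩
  rw [← heq, Finset.mem_filter] at h1
  exact h1.2

/-- an element of the larger field which is fixed by the automorphisms over `E` is in `E` -/
theorem fix_mem {k E C : IntermediateField ℚ ℂ} (hkE : k ≤ E) (hEC : E ≤ C) (hkC : k ≤ C)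
    [FiniteDimensional ℚ C] : letI := algC hkC
    IsGalois k C → ∀ x : C, (∀ σ : C ≃ₐ[k] C, (∀ y : C, (y : ℂ) ∈ E → σ y = y) → σ x = x) →
      (x : ℂ) ∈ E := by
  let i1 : Algebra k C := algC hkC
  let i2 : Algebra k E := algC hkE
  let i3 : Algebra E C := algC hEC
  have t1 : IsScalarTower k E C := towerC hkE hEC
  intro hG x hx
  have hG' : IsGalois E C := IsGalois.tower_top_of_isGalois k E C
  have t2 : IsScalarTower ℚ E C := IsScalarTower.of_algebraMap_eq (fun _ => rfl)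
  have hf : FiniteDimensional E C := Module.Finite.of_restrictScalars_finite ℚ E C
  obtain ⟨y, hy⟩ := (IsGalois.mem_range_algebraMap_iff_fixed (F := E) x).2 (fun σ =>
    hx (σ.restrictScalars k) (fun y hy => σ.commutes (⟨(y : ℂ), hy⟩ : E)))
  rw [← hy]
  exact y.2

section

variable {k C : IntermediateField ℚ ℂ} (hkC : k ≤ C)

/-- the automorphisms of `C / k` which are trivial on `E` -/
def Fix (E : IntermediateField ℚ ℂ) : letI := algC hkC
    Subgroup (C ≃ₐ[k] C) :=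
  letI := algC hkC
  { carrier := {σ | ∀ y : C, (y : ℂ) ∈ E → σ y = y}
    mul_mem' := fun {σ τ} hσ hτ y hy => by
      show σ (τ y) = y
      rw [hτ y hy, hσ y hy]
    one_mem' := fun y _ => rfl
    inv_mem' := fun {σ} hσ y hy => by
      have h1 := congrArg (σ⁻¹ : C ≃ₐ[k] C) (hσ y hy)
      rw [← AlgEquiv.mul_apply, inv_mul_cancel, AlgEquiv.one_apply] at h1
      exact h1.symm }

end

/-- two subfields of a cyclic extension of degree a power of `l` are comparable -/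
theorem comparable {k L : IntermediateField ℚ ℂ} (hkL : k ≤ L) [FiniteDimensional ℚ L] (l e : ℕ)
    (hl : l.Prime) (E F : IntermediateField ℚ ℂ) (hkE : k ≤ E) (hkF : k ≤ F) (hE : E ≤ L)
    (hF : F ≤ L) : letI := algC hkL
    IsGalois k L → IsCyclic (L ≃ₐ[k] L) → Nat.card (L ≃ₐ[k] L) ∣ l ^ e → E ≤ F ∨ F ≤ E := by
  let i1 : Algebra k L := algC hkL
  intro hG hc hd
  have t2 : IsScalarTower ℚ k L := IsScalarTower.of_algebraMap_eq (fun _ => rfl)
  have hf : FiniteDimensional k L := Module.Finite.of_restrictScalars_finite ℚ k L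
  have key : ∀ E F : IntermediateField ℚ ℂ, k ≤ F → E ≤ L → F ≤ L →
      Nat.card (Fix hkL F) ∣ Nat.card (Fix hkL E) → E ≤ F := by
    intro E F hkF hE hF hdvd x hx
    refine fix_mem hkF hF hkL hG ⟨x, hE hx⟩ fun σ hσ => ?_
    have h1 : σ ∈ Fix hkL E := by
      refine mem_of_pow _ σ ?_
      obtain ⟨c, hc⟩ := hdvd
      have h2 : (⟨σ, hσ⟩ : Fix hkL F) ^ Nat.card (Fix hkL F) = 1 := pow_card_eq_one'
      have h3 : σ ^ Nat.card (Fix hkL F) = 1 := congrArg Subtype.val h2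
      rw [hc, pow_mul, h3, one_pow]
    exact h1 _ hx
  obtain ⟨i, -, hi⟩ := (Nat.dvd_prime_pow hl).1 ((Subgroup.card_subgroup_dvd_card (Fix hkL E)).trans hd)
  obtain ⟨j, -, hj⟩ := (Nat.dvd_prime_pow hl).1 ((Subgroup.card_subgroup_dvd_card (Fix hkL F)).trans hd)
  rcases le_total i j with h | h
  · right
    refine key F E hkE hF hE ?_
    rw [hi, hj]
    exact pow_dvd_pow l h
  · left
    refine key E F hkF hE hF ?_
    rw [hi, hj]
    exact pow_dvd_pow l h

/-- the automorphisms of `B_n` killed by `l^a` are trivial on `B_(n-a)` -/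
theorem lay_fix (l n a : ℕ) [Fact l.Prime] (ha : a ≤ n) (B B' : IntermediateField ℚ ℂ)
    (hB : IsLayer l (n - a) B) (hB' : IsLayer l n B') (hle : B ≤ B') (g : B' ≃ₐ[ℚ] B')
    (hg : g ^ (l ^ a) = 1) : ∀ x : B', (x : ℂ) ∈ B → g x = x := by
  obtain ⟨fdB, hGB, -⟩ := LAY_thm l n B' hB'
  have hcyc : IsCyclic (B' ≃ₐ[ℚ] B') := t_LAYC l n B' hB'
  let i1 : Algebra B B' := (IntermediateField.inclusion hle).toRingHom.toAlgebra
  have tow : IsScalarTower ℚ B B' := IsScalarTower.of_algebraMap_eq (fun _ => rfl)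
  have hBf : FiniteDimensional ℚ B := FiniteDimensional.of_injective
    (IntermediateField.inclusion hle).toLinearMap
    (IntermediateField.inclusion hle).toRingHom.injective
  have hf : FiniteDimensional B B' := Module.Finite.of_restrictScalars_finite ℚ B B'
  have hG' : IsGalois B B' := IsGalois.tower_top_of_isGalois ℚ B B'
  have hfr : Module.finrank B B' = l ^ a := by
    have h1 := Module.finrank_mul_finrank ℚ B B'
    rw [hB.1, hB'.1] at h1
    have h2 : l ^ n = l ^ (n - a) * l ^ a := by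
      rw [← pow_add, Nat.sub_add_cancel ha]
    rw [h2] at h1
    exact Nat.eq_of_mul_eq_mul_left (pow_pos (Fact.out : l.Prime).pos _) h1
  let r : (B' ≃ₐ[B] B') →* (B' ≃ₐ[ℚ] B') := AlgEquiv.restrictScalarsHom ℚ
  let H : Subgroup (B' ≃ₐ[ℚ] B') := r.range
  have hc : Nat.card H = l ^ a := by
    have h1 : Function.Injective r := AlgEquiv.restrictScalarsHom_injective ℚ
    rw [← hfr, ← IsGalois.card_aut_eq_finrank]
    exact (Nat.card_congr (MonoidHom.ofInjective h1).toEquiv).symm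
  have h1 : g ∈ H := mem_of_pow H g (by rw [hc]; exact hg)
  obtain ⟨τ, rfl⟩ := h1
  intro x hx
  exact τ.commutes (⟨(x : ℂ), hx⟩ : B)

/-- degrees of subfields of `ℂ` -/
theorem deg_mul {E F : IntermediateField ℚ ℂ} (h : E ≤ F) [FiniteDimensional ℚ F] :
    Module.finrank ℚ E * Module.finrank E (IntermediateField.extendScalars h) =
      Module.finrank ℚ F := by
  let i1 : Algebra E F := algC h
  have t1 : IsScalarTower ℚ E F := IsScalarTower.of_algebraMap_eq (fun _ => rfl)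
  have hE : FiniteDimensional ℚ E := FiniteDimensional.of_injective
    (IntermediateField.inclusion h).toLinearMap
    (IntermediateField.inclusion h).toRingHom.injective
  have hf : FiniteDimensional E F := Module.Finite.of_restrictScalars_finite ℚ E F
  have h1 := finrank_algC h
  rw [← h1]
  exact Module.finrank_mul_finrank ℚ E F

/-- a field between `k B_n` and `k B_(n+1)` is one of the two -/
theorem between (l n : ℕ) [Fact l.Prime] (k : IntermediateField ℚ ℂ) [FiniteDimensional ℚ k]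
    (B : ℕ → IntermediateField ℚ ℂ) (hB : ∀ n, IsLayer l n (B n)) (hm : Monotone B)
    (F : IntermediateField ℚ ℂ) (h1 : k ⊔ B n ≤ F) (h2 : F ≤ k ⊔ B (n + 1))
    (hne : F ≠ k ⊔ B (n + 1)) : F = k ⊔ B n := by
  obtain ⟨fdB, hGB, -⟩ := LAY_thm l (n + 1) (B (n + 1)) (hB (n + 1))
  obtain ⟨fdB', -, -⟩ := LAY_thm l n (B n) (hB n)
  have hle : B n ≤ B (n + 1) := hm (Nat.le_succ n)
  have hE : FiniteDimensional ℚ ↥(k ⊔ B (n + 1)) := IntermediateField.finiteDimensional_sup _ _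
  have hD : FiniteDimensional ℚ ↥(k ⊔ B n) := IntermediateField.finiteDimensional_sup _ _
  have hF : FiniteDimensional ℚ F := FiniteDimensional.of_injective
    (IntermediateField.inclusion h2).toLinearMap
    (IntermediateField.inclusion h2).toRingHom.injective
  have hGal : IsGalois (B n) (IntermediateField.extendScalars hle) := by
    let i1 : Algebra (B n) (B (n + 1)) := algC hle
    have t1 : IsScalarTower ℚ (B n) (B (n + 1)) := IsScalarTower.of_algebraMap_eq (fun _ => rfl)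
    have h3 : IsGalois (B n) (B (n + 1)) := IsGalois.tower_top_of_isGalois ℚ _ _
    exact (isGalois_algC hle).1 h3
  have hDE : k ⊔ B n ≤ k ⊔ B (n + 1) := sup_le_sup_left hle k
  have hd := (BCH_thm.1 (B n) (B (n + 1)) k (k ⊔ B n) (k ⊔ B (n + 1)) hle hDE
    (sup_comm _ _) (sup_comm _ _) hGal).2
  have e1 := deg_mul hle
  rw [(hB n).1, (hB (n + 1)).1, pow_succ] at e1
  have e2 : Module.finrank (B n) (IntermediateField.extendScalars hle) = l :=
    Nat.eq_of_mul_eq_mul_left (pow_pos (Fact.out : l.Prime).pos n) e1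
  rw [e2] at hd
  have e3 := deg_mul hDE
  have e4 := deg_mul h1
  have e5 := deg_mul h2
  have hDpos : 0 < Module.finrank ℚ ↥(k ⊔ B n) := Module.finrank_pos
  have e6 : Module.finrank ↥(k ⊔ B n) (IntermediateField.extendScalars h1) *
      Module.finrank F (IntermediateField.extendScalars h2) =
      Module.finrank ↥(k ⊔ B n) (IntermediateField.extendScalars hDE) := by
    apply Nat.eq_of_mul_eq_mul_left hDpos
    rw [← mul_assoc, e4, e5, e3]
  have e7 : Module.finrank ↥(k ⊔ B n) (IntermediateField.extendScalars h1) ∣ l :=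
    (Dvd.intro _ e6).trans hd
  rcases (Nat.dvd_prime (Fact.out : l.Prime)).1 e7 with h | h
  · rw [h, mul_one] at e4
    exact (IntermediateField.eq_of_le_of_finrank_eq h1 e4).symm
  · exfalso
    have e8 : l ∣ Module.finrank ↥(k ⊔ B n) (IntermediateField.extendScalars hDE) := by
      rw [← h]
      exact Dvd.intro _ e6
    have e9 : Module.finrank ↥(k ⊔ B n) (IntermediateField.extendScalars hDE) = l :=
      Nat.dvd_antisymm hd e8
    rw [h, e9] at e6
    have e10 : Module.finrank F (IntermediateField.extendScalars h2) = 1 := by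
      apply Nat.eq_of_mul_eq_mul_left (Fact.out : l.Prime).pos
      rw [e6, mul_one]
    rw [e10, mul_one] at e5
    exact hne (IntermediateField.eq_of_le_of_finrank_eq h2 e5)

theorem cor (l a n₀ : ℕ) [Fact l.Prime] (k K : IntermediateField ℚ ℂ)
    (B : ℕ → IntermediateField ℚ ℂ)
    [FiniteDimensional ℚ K] [∀ n, FiniteDimensional ℚ ↥(K ⊔ B n)] (hB : Twr l k K B)
    (hdeg : Module.finrank k (IntermediateField.extendScalars hB.hk) ∣ l ^ a)
    (hn₀ : ¬ B (n₀ + 1) ≤ K ⊔ B n₀) (n : ℕ) (hn : n₀ + a < n) (L : IntermediateField ℚ ℂ)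
    (hkL : k ≤ L) (hL : L ≤ K ⊔ B n)
    (hcyc : IsCyclic ((IntermediateField.extendScalars hkL) ≃ₐ[k]
      (IntermediateField.extendScalars hkL)))
    (hnot : ¬ L ≤ K ⊔ B (n - 1)) :
    L ⊓ (K ⊔ B n₀) = k ⊔ B n₀ := by
  classical
  have hlp : l.Prime := Fact.out
  have hkC : k ≤ K ⊔ B n := hB.hk.trans le_sup_left
  let aC : Algebra k ↥(K ⊔ B n) := algC hkC
  let aK : Algebra k K := algC hB.hk
  obtain ⟨galC, comC⟩ := gal_ab l k K B hB n hkC
  obtain ⟨r₁, r₂, p1, p2, -⟩ := chr_split l k K B hB n hkC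
  obtain ⟨fdB, hGB, -⟩ := LAY_thm l n (B n) (hB.lay n)
  have hcycB : IsCyclic (B n ≃ₐ[ℚ] B n) := t_LAYC l n (B n) (hB.lay n)
  have fdk : FiniteDimensional ℚ k := FiniteDimensional.of_injective
    (IntermediateField.inclusion hB.hk).toLinearMap
    (IntermediateField.inclusion hB.hk).toRingHom.injective
  have fdL : FiniteDimensional ℚ L := FiniteDimensional.of_injective
    (IntermediateField.inclusion hL).toLinearMap
    (IntermediateField.inclusion hL).toRingHom.injective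
  have tC : IsScalarTower ℚ k ↥(K ⊔ B n) := IsScalarTower.of_algebraMap_eq (fun _ => rfl)
  have tK : IsScalarTower ℚ k K := IsScalarTower.of_algebraMap_eq (fun _ => rfl)
  have ffC : FiniteDimensional k ↥(K ⊔ B n) := Module.Finite.of_restrictScalars_finite ℚ k _
  have ffK : FiniteDimensional k K := Module.Finite.of_restrictScalars_finite ℚ k _
  have galK : IsGalois k K := (isGalois_algC hB.hk).2 hB.gal
  have hone : ∀ τ : ↥(K ⊔ B n) ≃ₐ[k] ↥(K ⊔ B n), r₁ τ = 1 → r₂ τ = 1 → τ = 1 := by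
    intro τ h1 h2
    refine eq_one_of hkC τ ?_ ?_
    · intro x hx
      have h3 := p1 τ ⟨(x : ℂ), hx⟩ x rfl
      rw [h1] at h3
      exact Subtype.ext h3
    · intro x hx
      have h3 := p2 τ ⟨(x : ℂ), hx⟩ x rfl
      rw [h2] at h3
      exact Subtype.ext h3
  have hr1 : ∀ τ : ↥(K ⊔ B n) ≃ₐ[k] ↥(K ⊔ B n), (∀ y : ↥(K ⊔ B n), (y : ℂ) ∈ K → τ y = y) →
      r₁ τ = 1 := by
    intro τ h
    ext x
    have h3 := p1 τ x ⟨(x : ℂ), (le_sup_left : K ≤ K ⊔ B n) x.2⟩ rfl
    rw [h _ x.2] at h3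
    exact h3.symm
  have hr2 : ∀ (τ : ↥(K ⊔ B n) ≃ₐ[k] ↥(K ⊔ B n)) (x : B n),
      τ ⟨(x : ℂ), (le_sup_right : B n ≤ K ⊔ B n) x.2⟩ =
        ⟨(x : ℂ), (le_sup_right : B n ≤ K ⊔ B n) x.2⟩ → r₂ τ x = x := by
    intro τ x h
    have h3 := p2 τ x ⟨(x : ℂ), (le_sup_right : B n ≤ K ⊔ B n) x.2⟩ rfl
    rw [h] at h3
    exact Subtype.ext h3.symm
  have hcardB : Nat.card (B n ≃ₐ[ℚ] B n) = l ^ n := by
    rw [IsGalois.card_aut_eq_finrank, (hB.lay n).1]
  have hcardK : Nat.card (K ≃ₐ[k] K) ∣ l ^ a := by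
    rw [IsGalois.card_aut_eq_finrank]
    have h1 := finrank_algC hB.hk
    rw [h1]
    exact hdeg
  -- step 1: an automorphism over `K B_(n-1)` which moves `L`
  have hle1 : K ⊔ B (n - 1) ≤ K ⊔ B n := sup_le_sup_left (hB.mono (Nat.sub_le n 1)) K
  obtain ⟨σ₁, hσ1, hσ2⟩ : ∃ σ₁ : ↥(K ⊔ B n) ≃ₐ[k] ↥(K ⊔ B n),
      (∀ y : ↥(K ⊔ B n), (y : ℂ) ∈ K ⊔ B (n - 1) → σ₁ y = y) ∧
      ¬ ∀ y : ↥(K ⊔ B n), (y : ℂ) ∈ L → σ₁ y = y := by
    by_contra hall
    push Not at hall
    apply hnot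
    intro x hx
    exact fix_mem (hB.hk.trans le_sup_left) hle1 hkC galC ⟨x, hL hx⟩
      (fun σ hσ => hall σ hσ _ hx)
  have hσl : (r₂ σ₁) ^ l = 1 := by
    refine pow_deg (B := B (n - 1)) (B' := B n) (hB.mono (Nat.sub_le n 1)) hGB l ?_ _ ?_
    · rw [(hB.lay n).1, (hB.lay (n - 1)).1, ← pow_succ]
      congr 1
      omega
    · intro x hx
      exact hr2 σ₁ x (hσ1 _ ((le_sup_right : B (n - 1) ≤ K ⊔ B (n - 1)) hx))
  have hσK : r₁ σ₁ = 1 := hr1 σ₁ fun y hy => hσ1 y ((le_sup_left : K ≤ K ⊔ B (n - 1)) hy)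
  -- step 2: the automorphisms over `L` and over `K` meet trivially
  have hmeet : ∀ τ : ↥(K ⊔ B n) ≃ₐ[k] ↥(K ⊔ B n), (∀ y : ↥(K ⊔ B n), (y : ℂ) ∈ L → τ y = y) →
      r₁ τ = 1 → τ = 1 := by
    intro τ hτL hτK
    by_contra hne
    have h1 : r₂ τ ≠ 1 := fun h => hne (hone τ hτK h)
    obtain ⟨e, -, he⟩ := (Nat.dvd_prime_pow hlp).1 ((orderOf_dvd_natCard (r₂ τ)).trans
      (dvd_of_eq hcardB))
    have he0 : e ≠ 0 := by
      rintro rfl
      rw [pow_zero, orderOf_eq_one_iff] at he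
      exact h1 he
    obtain ⟨e', rfl⟩ := Nat.exists_eq_succ_of_ne_zero he0
    have h2 : (r₂ (τ ^ l ^ e')) ^ l = 1 := by
      rw [map_pow, ← pow_mul, ← pow_succ, ← he, pow_orderOf_eq_one]
    have h3 : r₂ (τ ^ l ^ e') ≠ 1 := by
      intro h
      rw [map_pow] at h
      have h4 := orderOf_dvd_of_pow_eq_one h
      rw [he] at h4
      have h5 := (Nat.pow_dvd_pow_iff_le_right hlp.one_lt).1 h4
      omega
    obtain ⟨j, hj⟩ := cyc_mem l hlp (r₂ (τ ^ l ^ e')) (r₂ σ₁) h2 h3 hσl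
    have hj' : (r₂ (τ ^ l ^ e')) ^ j = r₂ σ₁ := hj
    have h4 : σ₁ * ((τ ^ l ^ e') ^ j)⁻¹ = 1 := by
      refine hone _ ?_ ?_
      · rw [map_mul, map_inv, map_zpow, map_pow, hσK, hτK, one_pow, one_zpow, inv_one, mul_one]
      · rw [map_mul, map_inv, map_zpow, hj', mul_inv_cancel]
    have h5 : σ₁ = (τ ^ l ^ e') ^ j := mul_inv_eq_one.1 h4
    apply hσ2
    have h6 : τ ∈ Fix hkC L := hτL
    have h7 : σ₁ ∈ Fix hkC L := by
      rw [h5]
      exact Subgroup.zpow_mem _ (Subgroup.pow_mem _ h6 _) _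
    exact h7
  -- step 3: `B_(n-a) ≤ L`
  have ha : a ≤ n := by omega
  have hBL : B (n - a) ≤ L := by
    intro x hx
    have hxn : x ∈ B n := hB.mono (Nat.sub_le n a) hx
    refine fix_mem hkL hL hkC galC ⟨x, (le_sup_right : B n ≤ K ⊔ B n) hxn⟩ fun τ hτ => ?_
    have h6 : τ ∈ Fix hkC L := hτ
    have h7 : τ ^ l ^ a ∈ Fix hkC L := Subgroup.pow_mem _ h6 _
    have h8 : r₁ (τ ^ l ^ a) = 1 := by
      obtain ⟨c, hc⟩ := hcardK
      rw [map_pow, hc, pow_mul, pow_card_eq_one', one_pow]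
    have h9 := hmeet _ h7 h8
    have h10 : (r₂ τ) ^ l ^ a = 1 := by rw [← map_pow, h9, map_one]
    have h11 := lay_fix l n a ha (B (n - a)) (B n) (hB.lay (n - a)) (hB.lay n)
      (hB.mono (Nat.sub_le n a)) (r₂ τ) h10 ⟨x, hxn⟩ hx
    have h12 := p2 τ ⟨x, hxn⟩ ⟨x, (le_sup_right : B n ≤ K ⊔ B n) hxn⟩ rfl
    rw [h11] at h12
    exact Subtype.ext h12
  -- the fields
  have hEL : k ⊔ B (n₀ + 1) ≤ L := sup_le hkL ((hB.mono (by omega)).trans hBL)
  have hFL : L ⊓ (K ⊔ B n₀) ≤ L := inf_le_left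
  have hkF : k ≤ L ⊓ (K ⊔ B n₀) := le_inf hkL (hB.hk.trans le_sup_left)
  have hDF : k ⊔ B n₀ ≤ L ⊓ (K ⊔ B n₀) :=
    le_inf ((sup_le_sup_left (hB.mono (Nat.le_succ n₀)) k).trans hEL)
      (sup_le_sup_right hB.hk (B n₀))
  -- `L / k` is cyclic of degree a power of `l`
  let aL : Algebra k L := algC hkL
  have tL : IsScalarTower ℚ k L := IsScalarTower.of_algebraMap_eq (fun _ => rfl)
  have ffL : FiniteDimensional k L := Module.Finite.of_restrictScalars_finite ℚ k _
  have abC : IsAbelianGalois k ↥(K ⊔ B n) :=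
    { toIsGalois := galC
      is_comm := ⟨comC⟩ }
  let iLC : Algebra L ↥(K ⊔ B n) := algC hL
  have tLC : IsScalarTower k L ↥(K ⊔ B n) := towerC hkL hL
  have abL : IsAbelianGalois k L := IsAbelianGalois.of_algHom (IsScalarTower.toAlgHom k L ↥(K ⊔ B n))
  have galL : IsGalois k L := abL.toIsGalois
  have cycL : IsCyclic (L ≃ₐ[k] L) :=
    (extEquiv hkL).autCongr.isCyclic.1 hcyc
  have hcardL : Nat.card (L ≃ₐ[k] L) ∣ l ^ (a + n) := by
    have h1 : Nat.card (L ≃ₐ[k] L) ∣ Nat.card (↥(K ⊔ B n) ≃ₐ[k] ↥(K ⊔ B n)) :=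
      Subgroup.card_dvd_of_surjective (AlgEquiv.restrictNormalHom L)
        (AlgEquiv.restrictNormalHom_surjective ↥(K ⊔ B n))
    have h2 : Nat.card (↥(K ⊔ B n) ≃ₐ[k] ↥(K ⊔ B n)) ∣
        Nat.card ((K ≃ₐ[k] K) × (B n ≃ₐ[ℚ] B n)) := by
      refine Subgroup.card_dvd_of_injective (r₁.prod r₂) ?_
      rw [injective_iff_map_eq_one]
      intro g hg
      exact hone g (congrArg Prod.fst hg) (congrArg Prod.snd hg)
    rw [Nat.card_prod, hcardB] at h2
    rw [pow_add]
    exact h1.trans (h2.trans (Nat.mul_dvd_mul_right hcardK _))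
  have hcomp := comparable hkL l (a + n) hlp (k ⊔ B (n₀ + 1)) (L ⊓ (K ⊔ B n₀)) le_sup_left hkF
    hEL hFL galL cycL hcardL
  have hnE : ¬ k ⊔ B (n₀ + 1) ≤ L ⊓ (K ⊔ B n₀) := fun h =>
    hn₀ (le_sup_right.trans (h.trans inf_le_right))
  have hFE : L ⊓ (K ⊔ B n₀) ≤ k ⊔ B (n₀ + 1) := hcomp.resolve_left hnE
  exact between l n₀ k B hB.lay hB.mono _ hDF hFE fun h => hnE h.ge

end Pool.Agent.TWF
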