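import Pool.Agent.MUX.StIX
import Pool.Agent.MUX.XLib

/-!
# TWF: `K B_n` is contained in the ray class field of level `f l^(n+s)`
-/

set_option autoImplicit false

namespace Pool.Agent.TWF

open _root_.MU3 Pool.Agent.MU3 Pool.Agent.MU3A Pool.Agent.MU3B Pool.Agent.RI Pool.Agent.RID
  Pool.Agent.MUX Pool.Agent.MUXE Pool.Agent.MUXK Pool.Agent.MUXI
open Pool.Agent.MU3I (w3 zt)

theorem lvl (hLAY : Si_LAY) (hIAF : Si_IAF) (l s : ℕ) (hls : (l = 3 ∧ s = 1) ∨ (l = 2 ∧ s = 2))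
    (A B : ℤ) (hc : CQ A B) (T : TorX A B)
    (hNL : ∃ (b : Ideal (OO A B)) (L : PeriodPair) (om : ℂ), IsNL b L om) (f : ℕ) (hf : f ≠ 0)
    (K : IntermediateField ℚ ℂ) (hK : ∀ y ∈ K, y ∈ RF (idl (A := A) (B := B) f)) (n : ℕ)
    (Bn : IntermediateField ℚ ℂ) (hB : IsLayer l n Bn) :
    ∀ y ∈ K ⊔ Bn, y ∈ RF (idl (A := A) (B := B) (f * l ^ (n + s))) := by
  have hl0 : l ≠ 0 := by rcases hls with ⟨rfl, -⟩ | ⟨rfl, -⟩ <;> norm_num
  set M : ℕ := l ^ (n + s) with hM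
  have hM0 : M ≠ 0 := pow_ne_zero _ hl0
  have hm0 : idl (A := A) (B := B) (f * M) ≠ ⊥ := by
    rw [Ne, Ideal.span_singleton_eq_bot]
    exact natCast_ne_zero' hc (mul_ne_zero hf hM0)
  have hmf : idl (A := A) (B := B) (f * M) ≤ idl f := by
    rw [Ideal.span_singleton_le_span_singleton]
    push_cast
    exact dvd_mul_right _ _
  have hmM : idl (A := A) (B := B) (f * M) ≤ idl M := by
    rw [Ideal.span_singleton_le_span_singleton]
    push_cast
    exact dvd_mul_left _ _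
  obtain ⟨i1, -, -, -, -, -, -, i8⟩ := hIAF A B hc T hNL _ hm0
  obtain ⟨a₀, ha₀⟩ := i1 (RingEquiv.refl ℂ) rfl
  have hq0 : q0 l * l ^ n = M := by
    rcases hls with ⟨rfl, rfl⟩ | ⟨rfl, rfl⟩
    · have h3 : q0 3 = 3 := by simp [q0]
      rw [h3, hM]
      ring
    · have h3 : q0 2 = 4 := by simp [q0]
      rw [h3, hM]
      ring
  have hζ : IsPrimitiveRoot (zt M) M := Complex.isPrimitiveRoot_exp M hM0
  have hz := (i8 M (RingEquiv.refl ℂ) a₀ (zt M) hM0 hmM ha₀ hζ.pow_eq_one).1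
  have hBeq := hLAY l n (by rcases hls with ⟨h, -⟩ | ⟨h, -⟩ <;> tauto) Bn hB
  rw [hq0] at hBeq
  have hBn : Bn ≤ IntermediateField.restrictScalars ℚ (RF (idl (A := A) (B := B) (f * M))) := by
    rw [hBeq, IntermediateField.adjoin_le_iff]
    intro x hx
    rw [Set.mem_singleton_iff] at hx
    rw [hx]
    exact add_mem hz (inv_mem hz)
  have hK' : K ≤ IntermediateField.restrictScalars ℚ (RF (idl (A := A) (B := B) (f * M))) := by
    intro x hx
    exact T.mono _ _ hmf (hK x hx)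
  intro y hy
  exact (sup_le hK' hBn) hy

end Pool.Agent.TWF
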