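import Pool.Agent.TWF.Defs
import Pool.Agent.TWK.CYC2

/-!
# TWF: the fields `K B_n` grow at every large level
-/

set_option autoImplicit false

open NumberField

namespace Pool.Agent.TWF

open Pool.Agent.MU3 Pool.Agent.RI Pool.Agent.RID

/-- An automorphism of `C / k` which is trivial on `E₁` and on `E₂` is trivial on `E₁ E₂`. -/
theorem fix_sup {k C : IntermediateField ℚ ℂ} (h : k ≤ C) :
    letI := algC h
    ∀ (τ : C ≃ₐ[k] C) (E₁ E₂ : IntermediateField ℚ ℂ), E₁ ≤ C → E₂ ≤ C →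
      (∀ x : C, (x : ℂ) ∈ E₁ → τ x = x) → (∀ x : C, (x : ℂ) ∈ E₂ → τ x = x) →
      ∀ x : C, (x : ℂ) ∈ E₁ ⊔ E₂ → τ x = x := by
  let i1 : Algebra k C := algC h
  intro τ E₁ E₂ hE1 hE2 h1 h2 x hx
  have hQ : ∀ (r : ℚ), τ (r : C) = r := fun r => map_ratCast τ r
  let T : IntermediateField ℚ ℂ :=
    { carrier := {z | ∃ hz : z ∈ C, τ ⟨z, hz⟩ = ⟨z, hz⟩}
      mul_mem' := by
        rintro a b ⟨ha, ha'⟩ ⟨hb, hb'⟩
        refine ⟨mul_mem ha hb, ?_⟩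
        have e : (⟨a * b, mul_mem ha hb⟩ : C) = ⟨a, ha⟩ * ⟨b, hb⟩ := rfl
        rw [e, map_mul, ha', hb']
      add_mem' := by
        rintro a b ⟨ha, ha'⟩ ⟨hb, hb'⟩
        refine ⟨add_mem ha hb, ?_⟩
        have e : (⟨a + b, add_mem ha hb⟩ : C) = ⟨a, ha⟩ + ⟨b, hb⟩ := rfl
        rw [e, map_add, ha', hb']
      algebraMap_mem' := by
        intro r
        refine ⟨algebraMap_mem _ r, ?_⟩
        have e : (⟨algebraMap ℚ ℂ r, algebraMap_mem _ r⟩ : C) = (r : C) := by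
          apply Subtype.ext
          simp
        rw [e, hQ]
      inv_mem' := by
        rintro a ⟨ha, ha'⟩
        refine ⟨inv_mem ha, ?_⟩
        have e : (⟨a⁻¹, inv_mem ha⟩ : C) = (⟨a, ha⟩)⁻¹ := rfl
        rw [e, map_inv₀, ha'] }
  have hT : E₁ ⊔ E₂ ≤ T := by
    apply sup_le
    · intro a ha
      exact ⟨hE1 ha, h1 _ ha⟩
    · intro b hb
      exact ⟨hE2 hb, h2 _ hb⟩
  obtain ⟨hz, hx'⟩ := hT hx
  exact hx'

theorem grow (l : ℕ) [Fact l.Prime] (k K : IntermediateField ℚ ℂ)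
    (B : ℕ → IntermediateField ℚ ℂ) [FiniteDimensional ℚ K]
    [∀ n, FiniteDimensional ℚ ↥(K ⊔ B n)] (hB : Twr l k K B) :
    ∃ c, ∀ n, c ≤ n → ¬ B (n + 1) ≤ K ⊔ B n := by
  have hlp : l.Prime := Fact.out
  refine ⟨Module.finrank ℚ K, fun n hn hle => ?_⟩
  have hkC : k ≤ K ⊔ B (n + 1) := hB.hk.trans le_sup_left
  let i1 : Algebra k ↥(K ⊔ B (n + 1)) := algC hkC
  obtain ⟨e, σ, -, h2, h3, h4⟩ := Pool.Agent.TWK.t_CYC2 l k K B
    ⟨hB.hk, hB.gal, hB.ab, hB.lay, hB.mono⟩ n hkC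
  have he : e ≠ 0 := by
    rintro rfl
    rw [pow_zero, one_mul] at h2
    have h5 : n + 1 < l ^ (n + 1) := Nat.lt_pow_self hlp.one_lt
    omega
  obtain ⟨e', rfl⟩ := Nat.exists_eq_succ_of_ne_zero he
  obtain ⟨h5, x, hx1, hx2⟩ := h4 e' rfl
  apply hx2
  refine fix_sup hkC (σ ^ l ^ e') K (B n) le_sup_left
    ((hB.mono (Nat.le_succ n)).trans le_sup_right) ?_ h5 x (hle hx1)
  intro y hy
  have h6 : ∀ j : ℕ, (σ ^ j) y = y := by
    intro j
    induction j with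
    | zero => rfl
    | succ j ih => rw [pow_succ, AlgEquiv.mul_apply, h3 y hy, ih]
  exact h6 _

end Pool.Agent.TWF
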