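import Pool.Agent.TWF.Defs
import Pool.Agent.MU3.PX_NPL
import Pool.Agent.MU3.PX_NPC

/-!
# TWF, module NSP: for large `n` no prime above `q` splits in `F B_m / F B_n`

The number of the primes of `F B_n` above `q` is bounded and does not decrease, so it is constant for
large `n`.
-/

set_option autoImplicit false

open NumberField IsDedekindDomain
open scoped nonZeroDivisors Pointwise

namespace Pool.Agent.TWF

open Pool.Agent.RI

/-- The primes of `F` above `q`. -/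
def Pr (q : ℕ) (F : IntermediateField ℚ ℂ) : Type :=
  {P : Ideal (𝓞 F) // P.IsPrime ∧ (q : 𝓞 F) ∈ P}

section

variable {F K : IntermediateField ℚ ℂ} (h : F ≤ K)

/-- The inclusion of the rings of integers. -/
noncomputable abbrev iO : 𝓞 F →+* 𝓞 K :=
  RingOfIntegers.mapRingHom (IntermediateField.inclusion h : F →+* K)

/-- Contraction. -/
noncomputable def con (q : ℕ) (P : Pr q K) : Pr q F :=
  ⟨P.1.comap (iO h), by
    have := P.2.1
    exact ⟨Ideal.comap_isPrime _ _, by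
      rw [Ideal.mem_comap, map_natCast]
      exact P.2.2⟩⟩

theorem con_surj (q : ℕ) [FiniteDimensional ℚ K] : Function.Surjective (con h q) := by
  intro P
  let a1 : Algebra F K := algC h
  have hP := P.2.1
  have hF : FiniteDimensional ℚ F := FiniteDimensional.of_injective
    (IntermediateField.inclusion h).toLinearMap
    (IntermediateField.inclusion h).toRingHom.injective
  obtain ⟨P', hP', hov⟩ := (inferInstance : Nonempty (P.1.primesOver (𝓞 K)))
  have h1 : P'.comap (iO h) = P.1 := by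
    have h2 : P'.under (𝓞 F) = P.1 := hov.over.symm
    rw [← h2]
    ext x
    rw [Ideal.mem_comap, Ideal.under_def, Ideal.mem_comap]
    have h3 : iO h x = algebraMap (𝓞 F) (𝓞 K) x := by
      apply RingOfIntegers.ext
      rfl
    rw [h3]
  refine ⟨⟨P', hP', ?_⟩, Subtype.ext h1⟩
  have h4 : (q : 𝓞 F) ∈ P'.comap (iO h) := by
    rw [h1]
    exact P.2.2
  rw [Ideal.mem_comap, map_natCast] at h4
  exact h4

end

/-- The primes of `F` above the prime number `q` and the height one primes. -/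
noncomputable def prEquiv (q : ℕ) (hq : q ≠ 0) (F : IntermediateField ℚ ℂ) :
    Pr q F ≃ {v : HeightOneSpectrum (𝓞 F) // (q : 𝓞 F) ∈ v.asIdeal} where
  toFun P := ⟨⟨P.1, P.2.1, by
    intro h0
    have h1 := P.2.2
    rw [h0, Ideal.mem_bot] at h1
    exact hq (by exact_mod_cast h1)⟩, P.2.2⟩
  invFun v := ⟨v.1.asIdeal, v.1.isPrime, v.2⟩
  left_inv _ := rfl
  right_inv _ := rfl

/-- NSP. -/
theorem nonsplit_large (l q : ℕ) [Fact l.Prime] (F : IntermediateField ℚ ℂ)
    [FiniteDimensional ℚ F] (B : ℕ → IntermediateField ℚ ℂ)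
    [∀ n, FiniteDimensional ℚ ↥(F ⊔ B n)] (hq : q.Prime) (hB : ∀ n, IsLayer l n (B n))
    (hm : Monotone B) : ∃ n₀, ∀ n m, n₀ ≤ n → n ≤ m → ∀ h : F ⊔ B n ≤ F ⊔ B m, Nonsplit q h := by
  obtain ⟨t, ht⟩ := _root_.MU3.p_NPL _root_.MU3.p_NPC l q F B hq hB
  have hfin : ∀ n, Finite (Pr q (F ⊔ B n)) := by
    intro n
    have := (ht n inferInstance).2
    exact Finite.of_equiv _ (prEquiv q hq.ne_zero (F ⊔ B n)).symm
  have hle : ∀ n, Nat.card (Pr q (F ⊔ B n)) ≤ t := by
    intro n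
    rw [Nat.card_congr (prEquiv q hq.ne_zero (F ⊔ B n))]
    exact (ht n inferInstance).1
  have hmono : ∀ n m, n ≤ m → Nat.card (Pr q (F ⊔ B n)) ≤ Nat.card (Pr q (F ⊔ B m)) := by
    intro n m hnm
    have h : F ⊔ B n ≤ F ⊔ B m := sup_le_sup_left (hm hnm) F
    have := hfin m
    exact Nat.card_le_card_of_surjective _ (con_surj h q)
  obtain ⟨n₀, hn₀⟩ : ∃ n₀, ∀ n, n₀ ≤ n →
      Nat.card (Pr q (F ⊔ B n)) = Nat.card (Pr q (F ⊔ B n₀)) := by
    have h1 : ∃ M, (∃ n₀, Nat.card (Pr q (F ⊔ B n₀)) = M) ∧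
        ∀ n, Nat.card (Pr q (F ⊔ B n)) ≤ M := by
      have hbdd : BddAbove (Set.range fun n => Nat.card (Pr q (F ⊔ B n))) :=
        ⟨t, by rintro _ ⟨n, rfl⟩; exact hle n⟩
      have hne : (Set.range fun n => Nat.card (Pr q (F ⊔ B n))).Nonempty := Set.range_nonempty _
      obtain ⟨n₀, hn₀⟩ := Nat.sSup_mem hne hbdd
      exact ⟨_, ⟨n₀, hn₀⟩, fun n => le_csSup hbdd ⟨n, rfl⟩⟩
    obtain ⟨M, ⟨n₀, rfl⟩, hM⟩ := h1
    exact ⟨n₀, fun n hn => le_antisymm (hM n) (hmono n₀ n hn)⟩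
  refine ⟨n₀, fun n m hn hnm h => ?_⟩
  have e1 : Nat.card (Pr q (F ⊔ B m)) = Nat.card (Pr q (F ⊔ B n)) := by
    rw [hn₀ n hn, hn₀ m (hn.trans hnm)]
  have f1 := hfin m
  have f2 := hfin n
  have hbij : Function.Bijective (con h q) :=
    (Nat.bijective_iff_surjective_and_card _).2 ⟨con_surj h q, e1⟩
  intro P Q hP hQ hpP hpQ hPQ
  have h1 : con h q ⟨P, hP, hpP⟩ = con h q ⟨Q, hQ, hpQ⟩ := Subtype.ext hPQ
  exact congrArg Subtype.val (hbij.1 h1)

end Pool.Agent.TWF
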