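import Pool.Agent.TWF.DES
import Pool.Agent.TWF.GAL
import Pool.Agent.TWF.NSP

/-!
# TWF: from the fields `L ≤ K B_(n+b)` to all layers of their cyclotomic `ℤ_p`-extensions
-/

set_option autoImplicit false

open NumberField IsDedekindDomain Finset
open scoped nonZeroDivisors Pointwise

namespace Pool.Agent.TWF

open Pool.Agent.MU3 Pool.Agent.RI Pool.Agent.RID

/-- `B / ℚ` Galois, over the bottom field -/
theorem bot_data {B : IntermediateField ℚ ℂ} (hG : IsGalois ℚ B) :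
    IsGalois ↥(⊥ : IntermediateField ℚ ℂ)
      (IntermediateField.extendScalars (bot_le : (⊥ : IntermediateField ℚ ℂ) ≤ B)) ∧
    Module.finrank ↥(⊥ : IntermediateField ℚ ℂ)
      (IntermediateField.extendScalars (bot_le : (⊥ : IntermediateField ℚ ℂ) ≤ B)) =
      Module.finrank ℚ B := by
  refine ⟨P_GALK.bot_gal hG, ?_⟩
  let e : B ≃ₗ[ℚ] (IntermediateField.extendScalars
      (bot_le : (⊥ : IntermediateField ℚ ℂ) ≤ B)) :=
    { toFun := fun x => ⟨x.1, x.2⟩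
      invFun := fun x => ⟨x.1, x.2⟩
      left_inv := fun _ => rfl
      right_inv := fun _ => rfl
      map_add' := fun _ _ => rfl
      map_smul' := fun _ _ => rfl }
  rw [e.finrank_eq, ← Module.finrank_mul_finrank ℚ ↥(⊥ : IntermediateField ℚ ℂ)
    (IntermediateField.extendScalars (bot_le : (⊥ : IntermediateField ℚ ℂ) ≤ B)),
    IntermediateField.finrank_bot, one_mul]

/-- the degree of `K B_m / K B_n` is a power of `l` -/
theorem deg_dvd (l : ℕ) [Fact l.Prime] (K : IntermediateField ℚ ℂ)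
    (B : ℕ → IntermediateField ℚ ℂ) [FiniteDimensional ℚ K]
    [∀ n, FiniteDimensional ℚ ↥(K ⊔ B n)] (hB : ∀ n, IsLayer l n (B n)) (hm : Monotone B)
    (n m : ℕ) (hnm : n ≤ m) (h : K ⊔ B n ≤ K ⊔ B m) :
    Module.finrank ↥(K ⊔ B n) (IntermediateField.extendScalars h) ∣ l ^ m := by
  obtain ⟨fdB, hGB, -⟩ := LAY_thm l m (B m) (hB m)
  obtain ⟨g1, g2⟩ := bot_data hGB
  have h1 := (BCH_thm.1 ⊥ (B m) (K ⊔ B n) (K ⊔ B n) (K ⊔ B m) bot_le h
    (bot_sup_eq _).symm (by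
      rw [sup_comm (B m), sup_assoc, sup_eq_right.2 (hm hnm)]) g1).2
  rw [g2, (hB m).1] at h1
  exact h1

theorem end1 (p l : ℕ) [Fact p.Prime] [Fact l.Prime] (hpl : p ≠ l)
    (k K : IntermediateField ℚ ℂ) (B : ℕ → IntermediateField ℚ ℂ)
    [FiniteDimensional ℚ K] [∀ n, FiniteDimensional ℚ ↥(K ⊔ B n)] (hB : Twr l k K B) :
    ∃ n₂, ∀ n, n₂ ≤ n → ∀ (b : ℕ) (L : IntermediateField ℚ ℂ), k ≤ L → L ≤ K ⊔ B (n + b) →
      padicValNat p (classNo L) = padicValNat p (classNo (L ⊓ (K ⊔ B n))) →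
      ∀ (m : ℕ) (Q : IntermediateField ℚ ℂ), IsLayer p m Q →
        padicValNat p (classNo (L ⊔ Q)) =
          padicValNat p (classNo ((L ⊓ (K ⊔ B n)) ⊔ Q)) := by
  obtain ⟨n₀, hn₀⟩ := nonsplit_large l p K B Fact.out hB.lay hB.mono
  refine ⟨n₀, fun n hn b L hkL hL hcl m Q hQ => ?_⟩
  have hle : K ⊔ B n ≤ K ⊔ B (n + b) := sup_le_sup_left (hB.mono (Nat.le_add_right n b)) K
  have hFL : L ⊓ (K ⊔ B n) ≤ L := inf_le_left
  have hFA : L ⊓ (K ⊔ B n) ≤ K ⊔ B n := inf_le_right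
  have hkF : k ≤ L ⊓ (K ⊔ B n) := le_inf hkL (hB.hk.trans le_sup_left)
  have hkC : k ≤ K ⊔ B (n + b) := hB.hk.trans le_sup_left
  have fdL : FiniteDimensional ℚ L := FiniteDimensional.of_injective
    (IntermediateField.inclusion hL).toLinearMap
    (IntermediateField.inclusion hL).toRingHom.injective
  have fdF : FiniteDimensional ℚ ↥(L ⊓ (K ⊔ B n)) := FiniteDimensional.of_injective
    (IntermediateField.inclusion hFL).toLinearMap
    (IntermediateField.inclusion hFL).toRingHom.injective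
  -- `C / k` is abelian, so `L / k` is Galois
  have hgal : IsGalois k (IntermediateField.extendScalars hkC) ∧
      ∀ σ τ : (IntermediateField.extendScalars hkC) ≃ₐ[k] (IntermediateField.extendScalars hkC),
        σ * τ = τ * σ := by
    obtain ⟨g1, g2⟩ := gal_ab l k K B hB (n + b) hkC
    let _ : Algebra k ↥(K ⊔ B (n + b)) := algC hkC
    refine ⟨(isGalois_algC hkC).1 g1, fun σ τ => ?_⟩
    have h1 := g2 ((extEquiv hkC).autCongr σ) ((extEquiv hkC).autCongr τ)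
    rw [← map_mul, ← map_mul] at h1
    exact (extEquiv hkC).autCongr.injective h1
  have abC : IsAbelianGalois k (IntermediateField.extendScalars hkC) :=
    { toIsGalois := hgal.1
      is_comm := ⟨fun σ τ => hgal.2 σ τ⟩ }
  have hleL : IntermediateField.extendScalars hkL ≤ IntermediateField.extendScalars hkC :=
    fun x hx => hL hx
  have abL : IsAbelianGalois k (IntermediateField.extendScalars hkL) :=
    IsAbelianGalois.of_algHom (IntermediateField.inclusion hleL)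
  -- the algebras
  let i1 : Algebra ↥(L ⊓ (K ⊔ B n)) L := algC hFL
  let i2 : Algebra ↥(L ⊓ (K ⊔ B n)) ↥(K ⊔ B n) := algC hFA
  let i3 : Algebra ↥(K ⊔ B n) ↥(K ⊔ B (n + b)) := algC hle
  let i4 : Algebra L ↥(K ⊔ B (n + b)) := algC hL
  let i5 : Algebra ↥(L ⊓ (K ⊔ B n)) ↥(K ⊔ B (n + b)) := algC (hFL.trans hL)
  let i6 : Algebra k L := algC hkL
  let i7 : Algebra k ↥(L ⊓ (K ⊔ B n)) := algC hkF
  let i8 : Algebra k ↥(K ⊔ B n) := algC (hB.hk.trans le_sup_left)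
  let i9 : Algebra k ↥(K ⊔ B (n + b)) := algC hkC
  have t1 : IsScalarTower ↥(L ⊓ (K ⊔ B n)) L ↥(K ⊔ B (n + b)) := towerC hFL hL
  have t2 : IsScalarTower ↥(L ⊓ (K ⊔ B n)) ↥(K ⊔ B n) ↥(K ⊔ B (n + b)) := towerC hFA hle
  have t3 : IsScalarTower k ↥(L ⊓ (K ⊔ B n)) L := towerC hkF hFL
  have t4 : IsScalarTower k ↥(K ⊔ B n) ↥(K ⊔ B (n + b)) :=
    towerC (hB.hk.trans le_sup_left) hle
  have gL : IsGalois k L := (isGalois_algC hkL).2 abL.toIsGalois
  have gC : IsGalois k ↥(K ⊔ B (n + b)) := (isGalois_algC hkC).2 hgal.1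
  have gLF : IsGalois ↥(L ⊓ (K ⊔ B n)) L := IsGalois.tower_top_of_isGalois k _ _
  have gCA : IsGalois ↥(K ⊔ B n) ↥(K ⊔ B (n + b)) := IsGalois.tower_top_of_isGalois k _ _
  have hint : ∀ x : L, ∀ a : ↥(K ⊔ B n), algebraMap L ↥(K ⊔ B (n + b)) x =
      algebraMap ↥(K ⊔ B n) ↥(K ⊔ B (n + b)) a →
      ∃ y : ↥(L ⊓ (K ⊔ B n)), algebraMap ↥(L ⊓ (K ⊔ B n)) L y = x := by
    intro x a hxa
    have h1 : (x : ℂ) = (a : ℂ) := congrArg Subtype.val hxa
    exact ⟨⟨(x : ℂ), x.2, h1 ▸ a.2⟩, rfl⟩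
  -- the degree
  have hd : ¬ p ∣ Module.finrank ↥(L ⊓ (K ⊔ B n)) (IntermediateField.extendScalars hFL) := by
    intro hp
    have h1 : Module.finrank ↥(K ⊔ B n) (IntermediateField.extendScalars hle) ∣ l ^ (n + b) :=
      deg_dvd l K B hB.lay hB.mono n (n + b) (Nat.le_add_right n b) hle
    have fLF : FiniteDimensional ↥(L ⊓ (K ⊔ B n)) L :=
      Module.Finite.of_restrictScalars_finite ℚ ↥(L ⊓ (K ⊔ B n)) L
    have fCA : FiniteDimensional ↥(K ⊔ B n) ↥(K ⊔ B (n + b)) :=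
      Module.Finite.of_restrictScalars_finite ℚ ↥(K ⊔ B n) ↥(K ⊔ B (n + b))
    have h2 : Nat.card (L ≃ₐ[↥(L ⊓ (K ⊔ B n))] L) ∣
        Nat.card (↥(K ⊔ B (n + b)) ≃ₐ[↥(K ⊔ B n)] ↥(K ⊔ B (n + b))) :=
      Subgroup.card_dvd_of_surjective _ (res_surj (F := ↥(L ⊓ (K ⊔ B n))) (K := L)
        (A := ↥(K ⊔ B n)) (C := ↥(K ⊔ B (n + b))) hint)
    rw [IsGalois.card_aut_eq_finrank, IsGalois.card_aut_eq_finrank] at h2
    have h3 := finrank_algC hFL
    have h4 := finrank_algC hle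
    have h5 : p ∣ l ^ (n + b) := by
      refine (hp.trans ?_).trans h1
      rw [← h3, ← h4]
      exact h2
    exact hpl ((Nat.prime_dvd_prime_iff_eq Fact.out Fact.out).1 (Nat.Prime.dvd_of_dvd_pow Fact.out h5))
  -- the primes above `p`
  have hns : Nonsplit p hFL := by
    have h1 := hn₀ n (n + b) hn (Nat.le_add_right n b) hle
    exact nonsplit_desc (F := ↥(L ⊓ (K ⊔ B n))) (K := L) (A := ↥(K ⊔ B n))
      (C := ↥(K ⊔ B (n + b))) p hint h1
  exact finalC p (L ⊓ (K ⊔ B n)) L hFL ((isGalois_algC hFL).1 gLF) hd hns hcl m Q hQ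

end Pool.Agent.TWF
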