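import Pool.Agent.MUX.I_E0

/-!
# TWF: the character of ideals attached to a character of `Gal(K / k)`, `K ≤ RF f`
-/

set_option autoImplicit false

namespace Pool.Agent.TWF

open _root_.MU3 Pool.Agent.MU3 Pool.Agent.MU3A Pool.Agent.MU3B Pool.Agent.RI Pool.Agent.RID
  Pool.Agent.MUX Pool.Agent.MUXE Pool.Agent.MUXK Pool.Agent.MUXI Pool.Agent.MUXI.E0

theorem e0c (h1 : Si_ARF) (h4 : Pool.Agent.MUXF.Sx_NIM) (A B : ℤ) (hc : CQ A B) (T : TorX A B)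
    (n₀ : ℕ) (ι : Type) (R : Reps A B n₀ ι) (f : ℕ) (hf : 2 ≤ f)
    (hcop : ∀ i, (nI (R.b i)).Coprime f) (K : IntermediateField ℚ ℂ) (hK : kk A B ≤ K)
    (hKm : ∀ y ∈ K, y ∈ RF (idl (A := A) (B := B) f)) : letI := algC hK
    ∀ (_ : IsGalois (kk A B) K) (X : (K ≃ₐ[kk A B] K) →* ℂˣ) (r : ℕ) (_ : ∀ τ, X τ ^ r = 1),
    ∃ ψ : Ideal (OO A B) → ℂ,
      (∀ (τ : K ≃ₐ[kk A B] K) a, AR hK (idl f) τ a → ψ a = (((X τ)⁻¹ : ℂˣ) : ℂ)) ∧
      (∀ a a', ψ (a * a') = ψ a * ψ a') ∧ ψ ⊤ = 1 ∧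
      (∀ a, ψ a ≠ 0 ↔ IsCoprime a (idl (A := A) (B := B) f)) ∧
      (∀ a, ψ a ≠ 0 → ψ a ^ r = 1) ∧
      (∀ x y, x - y ∈ (idl f : Ideal (OO A B)) → ψ (sp x) = ψ (sp y)) ∧
      ψ (sp (-1)) = 1 ∧ ∀ i, ψ (cjI (R.b i)) ^ r = 1 := by
  let _ : Algebra (kk A B) K := algC hK
  intro hG X r hX
  have hm : (idl f : Ideal (OO A B)) ≠ ⊥ := by
    rw [Ne, Ideal.span_singleton_eq_bot]
    exact nat_ne (by omega)
  have hm1 : (idl f : Ideal (OO A B)) ≠ ⊤ := by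
    rw [Ne, Ideal.span_singleton_eq_top]
    intro hu
    obtain ⟨y, hy⟩ := hu.exists_right_inv
    have h := congrArg QuadraticAlgebra.re hy
    rw [QuadraticAlgebra.re_mul] at h
    simp only [QuadraticAlgebra.re_natCast, QuadraticAlgebra.im_natCast, QuadraticAlgebra.re_one,
      mul_zero, zero_mul, add_zero] at h
    have h' : ((f : ℕ) : ℤ) ∣ 1 := ⟨_, h.symm⟩
    have h'' := Int.le_of_dvd one_pos h'
    omega
  have hbot : ∀ a : Ideal (OO A B), IsCoprime a (idl f) → a ≠ ⊥ := by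
    rintro a ha rfl
    apply hm1
    rw [← Ideal.isCoprime_iff_sup_eq.1 ha, bot_sup_eq]
  obtain ⟨a1, a2, -, a4, a5, -, -⟩ := h1 A B hc T ⟨_, _, _, R.nl R.i0⟩ (idl f) hm K hK hKm hG
  obtain ⟨ψ, s1, s2, s3, s4, s5, s6⟩ := psi (idl f)
    (fun τ a => AR hK (idl f) τ a) X r hX a1
    (fun a ha => a2 a (hbot a ha) ha)
    (fun τ a h => by obtain ⟨σ, h, -⟩ := h; exact h.cop)
    a4 a5
  refine ⟨ψ, s1, s2, s3, s4, s5, ?_, ?_, ?_⟩
  · intro x y hxy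
    by_cases hx : IsCoprime (sp x) (idl f)
    · have hy := cop_sub hxy hx
      have hx0 : x ≠ 0 := by
        rintro rfl
        exact hbot _ hx (by rw [sp, Ideal.span_singleton_eq_bot])
      have hy0 : y ≠ 0 := by
        rintro rfl
        exact hbot _ hy (by rw [sp, Ideal.span_singleton_eq_bot])
      refine s6 _ _ ⟨y, x, hy0, hx0, hy, ?_, mul_comm _ _⟩ hx hy
      rw [← neg_sub]
      exact neg_mem hxy
    · have hy : ¬ IsCoprime (sp y) (idl f) := fun hy => hx (cop_sub (by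
        rw [← neg_sub]
        exact neg_mem hxy) hy)
      rw [not_not.1 fun h => hx ((s4 _).1 h), not_not.1 fun h => hy ((s4 _).1 h)]
  · rw [sp, Ideal.span_singleton_neg, Ideal.span_singleton_one, s3]
  · intro i
    apply s5
    rw [s4]
    obtain ⟨-, -, n3, -⟩ := h4 A B (Pool.Agent.MUXY.cqF hc)
    obtain ⟨-, -, -, n4⟩ := n3 (R.b i) (R.nl i).b_ne
    have h5 : ((nI (R.b i) : ℕ) : OO A B) ∈ cjI (R.b i) := by
      show (starRingEnd (OO A B)) ((nI (R.b i) : ℕ) : OO A B) ∈ R.b i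
      rw [map_natCast]
      exact n4
    obtain ⟨u, v, huv⟩ := cop_nat (A := A) (B := B) (hcop i)
    exact Ideal.isCoprime_iff_exists.2 ⟨u * _, Ideal.mul_mem_left _ _ h5, v * _,
      Ideal.mul_mem_left _ _ (Ideal.mem_span_singleton_self _), huv⟩

end Pool.Agent.TWF
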