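import Pool.Agent.MUX.I_CHI
import Pool.Agent.MUX.J_RES

/-!
# TWF: characters with values in the residue field lift to `ℂ`, with order prime to `p`
-/

set_option autoImplicit false

namespace Pool.Agent.TWF

open Pool.Agent.MU3I (ichi_mem_unitGroup ichiRed ichiRed_coe ichi_mem)

theorem lift_chr (p : ℕ) [hp : Fact p.Prime] (V : ValuationSubring ℂ)
    (hV : (p : ℂ) ∈ V.nonunits) (G : Type) [Group G] [Finite G]
    (χ : G →* (IsLocalRing.ResidueField V)ˣ) :
    ∃ (X : G →* ℂˣ) (s : ℕ), ¬ p ∣ s ∧ (∀ g, X g ^ s = 1) ∧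
      ∀ g, ∃ h : ((X g : ℂˣ) : ℂ) ∈ V, IsLocalRing.residue V ⟨_, h⟩ =
        ((χ g : (IsLocalRing.ResidueField V)ˣ) : IsLocalRing.ResidueField V) := by
  have hC : CharP (IsLocalRing.ResidueField V) p := (Pool.Agent.MUXJ.t_RES p V hV).1
  have hA : IsAlgClosed (IsLocalRing.ResidueField V) := (Pool.Agent.MUXJ.t_RES p V hV).2
  have hc0 : Nat.card G ≠ 0 := Nat.card_pos.ne'
  obtain ⟨a, s, hs, hcs⟩ := Nat.exists_eq_pow_mul_and_not_dvd hc0 p hp.out.ne_one
  have hs0 : s ≠ 0 := by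
    rintro rfl
    exact hs (dvd_zero p)
  have hχ : ∀ g, χ g ∈ rootsOfUnity s (IsLocalRing.ResidueField V) := by
    intro g
    rw [mem_rootsOfUnity]
    have h1 : χ g ^ (p ^ a * s) = 1 := by
      rw [← hcs, ← map_pow, pow_card_eq_one', map_one]
    have h2 : ((χ g : (IsLocalRing.ResidueField V)ˣ) : IsLocalRing.ResidueField V) ^ s = 1 := by
      have h3 : (((χ g : (IsLocalRing.ResidueField V)ˣ) : IsLocalRing.ResidueField V) ^ s)
          ^ (p ^ a) = 1 := by
        rw [← pow_mul, mul_comm s, ← Units.val_pow_eq_pow_val, h1, Units.val_one]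
      have h4 : ((((χ g : (IsLocalRing.ResidueField V)ˣ) : IsLocalRing.ResidueField V) ^ s) -
          1) ^ p ^ a = 0 := by
        rw [sub_pow_char_pow, h3, one_pow, sub_self]
      exact sub_eq_zero.1 (pow_eq_zero_iff (pow_ne_zero a hp.out.ne_zero) |>.1 h4)
    apply Units.ext
    rw [Units.val_pow_eq_pow_val, h2, Units.val_one]
  let χ' : G →* rootsOfUnity s (IsLocalRing.ResidueField V) := χ.codRestrict _ hχ
  let E : rootsOfUnity s ℂ ≃* rootsOfUnity s (IsLocalRing.ResidueField V) :=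
    MulEquiv.ofBijective (ichiRed V s hs0) (Pool.Agent.MUXI.CHI.red_bij p V hC s hs0 hs)
  refine ⟨(rootsOfUnity s ℂ).subtype.comp (E.symm.toMonoidHom.comp χ'), s, hs, ?_, ?_⟩
  · intro g
    exact (E.symm (χ' g)).2
  · intro g
    refine ⟨ichi_mem V hs0 (E.symm (χ' g)), ?_⟩
    have h1 := ichiRed_coe V s hs0 (E.symm (χ' g)) (ichi_mem V hs0 (E.symm (χ' g)))
    have h2 : ichiRed V s hs0 (E.symm (χ' g)) = χ' g := E.apply_symm_apply (χ' g)
    rw [h2] at h1
    exact h1.symm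

end Pool.Agent.TWF
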