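import Pool.Agent.TWF.CHR
import Pool.Agent.TWF.CYC
import Pool.Agent.TWF.E0C
import Pool.Agent.TWF.LVL
import Pool.Agent.TWF.LFT
import Pool.Agent.TWT.DefsT
import Pool.Agent.MUX.StJX

/-!
# TWF: the characters of `Gal(K B_(n+1) / k)` with values in the residue field (`S_FACT` of `TWT/DefsT.lean`)
-/

set_option autoImplicit false

open NumberField IsDedekindDomain Finset
open scoped nonZeroDivisors Pointwise

namespace Pool.Agent.TWF

open _root_.MU3 Pool.Agent.MU3 Pool.Agent.MU3A Pool.Agent.MU3B Pool.Agent.RI Pool.Agent.RID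
  Pool.Agent.MUX Pool.Agent.MUXK Pool.Agent.MUXI Pool.Agent.TWT
open Pool.Agent.MU3I (w3 zt)
open Pool.Agent.MU3V (Sub)

/-- the characters of a finite group with values in the `r`-th roots of unity -/
theorem fin_chr {G : Type} [Group G] [Finite G] (r : ℕ) (hr : r ≠ 0) :
    Finite {X : G →* ℂˣ // ∀ g, X g ^ r = 1} := by
  have : NeZero r := ⟨hr⟩
  have h1 : Finite (G → rootsOfUnity r ℂ) := inferInstance
  refine Finite.of_injective
    (fun (X : {X : G →* ℂˣ // ∀ g, X g ^ r = 1}) (g : G) => (⟨X.1 g, X.2 g⟩ : rootsOfUnity r ℂ)) ?_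
  intro X Y hXY
  apply Subtype.ext
  ext g
  have h2 := congrArg Subtype.val (congrFun hXY g)
  exact congrArg Units.val h2

/-- correction of the first factor to order prime to `p` -/
theorem fix_ord {G G₁ G₂ : Type} [Group G] [Group G₁] [Group G₂] [Finite G₁] (p a r t s : ℕ)
    (hp : p.Prime) (hc : Nat.card G₁ = p ^ a * r) (r₁ : G →* G₁) (r₂ : G →* G₂)
    (X : G →* ℂˣ) (X₁ : G₁ →* ℂˣ) (X₂ : G₂ →* ℂˣ) (hX : ∀ g, X g = X₁ (r₁ g) * X₂ (r₂ g))
    (ht : ¬ p ∣ t) (hXt : ∀ g, X g ^ t = 1) (hs : ¬ p ∣ s) (hXs : ∀ g, X₂ g ^ s = 1) :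
    ∃ Y : G₁ →* ℂˣ, (∀ g, Y g ^ r = 1) ∧ ∀ g, X g = Y (r₁ g) * X₂ (r₂ g) := by
  have hcop : Nat.Coprime (p ^ a) (t * s) := by
    refine Nat.Coprime.pow_left _ ?_
    rw [Nat.Prime.coprime_iff_not_dvd hp]
    intro h
    rcases (Nat.Prime.dvd_mul hp).1 h with h | h
    · exact ht h
    · exact hs h
  obtain ⟨e, he1, he2⟩ := Nat.chineseRemainder hcop 0 1
  have he1' : p ^ a ∣ e := (Nat.modEq_zero_iff_dvd).1 he1
  obtain ⟨e', rfl⟩ := he1'
  refine ⟨(powMonoidHom (p ^ a * e')).comp X₁, ?_, ?_⟩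
  · intro g
    show (X₁ g ^ (p ^ a * e')) ^ r = 1
    have h1 : X₁ g ^ (p ^ a * r) = 1 := by
      rw [← hc, ← map_pow, pow_card_eq_one', map_one]
    calc (X₁ g ^ (p ^ a * e')) ^ r = (X₁ g ^ (p ^ a * r)) ^ e' := by
          rw [← pow_mul, ← pow_mul]
          congr 1
          ring
      _ = 1 := by rw [h1, one_pow]
  · intro g
    show X g = X₁ (r₁ g) ^ (p ^ a * e') * X₂ (r₂ g)
    have h1 : X₁ (r₁ g) = X g * (X₂ (r₂ g))⁻¹ := by
      rw [hX g, mul_inv_cancel_right]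
    have h2 : (X g * (X₂ (r₂ g))⁻¹) ^ (t * s) = 1 := by
      rw [mul_pow, pow_mul, hXt, one_pow, one_mul, inv_pow, mul_comm t s, pow_mul, hXs, one_pow,
        inv_one]
    have h3 : (X g * (X₂ (r₂ g))⁻¹) ^ (p ^ a * e') = X g * (X₂ (r₂ g))⁻¹ := by
      have h4 : (X g * (X₂ (r₂ g))⁻¹) ^ (p ^ a * e') = (X g * (X₂ (r₂ g))⁻¹) ^ 1 := by
        rw [pow_eq_pow_iff_modEq]
        exact he2.of_dvd (orderOf_dvd_of_pow_eq_one h2)
      rw [h4, pow_one]
    rw [h1, h3, inv_mul_cancel_right]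

theorem t_FACT (hARF : Si_ARF) (hIAF : Si_IAF) (hXXF : Si_XXF) (hLAY : Si_LAY)
    (hNIM : Pool.Agent.MUXF.Sx_NIM) (hGAL : Pool.Agent.MUXJ.Sj_GAL) : S_FACT := by
  classical
  intro l g s hGen p hp A B P V f hS hlf T ι _ R K _ hK hSub Bn hlay hmono
  have hc : CQ A B := hS.cq
  have hls : (l = 3 ∧ s = 1) ∨ (l = 2 ∧ s = 2) := by
    rcases hGen with ⟨h1, -, h2⟩ | ⟨h1, -, h2⟩
    · exact Or.inl ⟨h1, h2⟩
    · exact Or.inr ⟨h1, h2⟩
  have hlp : l.Prime := by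
    rcases hls with ⟨rfl, -⟩ | ⟨rfl, -⟩
    · exact Nat.prime_three
    · exact Nat.prime_two
  have : Fact l.Prime := ⟨hlp⟩
  have hs1 : 1 ≤ s := by rcases hls with ⟨-, h⟩ | ⟨-, h⟩ <;> omega
  have hlf1 : l ∣ f := (dvd_pow_self l (by omega)).trans hlf
  have hpl : ¬ p ∣ l := by
    intro h
    exact hS.fp (h.trans hlf1)
  have hf2 : 2 ≤ f := by
    have h1 := Nat.le_of_dvd (Nat.pos_of_ne_zero hS.f0) hlf1
    exact hlp.two_le.trans h1
  have hfm : (idl f : Ideal (OO A B)) ≠ ⊥ := by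
    rw [Ne, Ideal.span_singleton_eq_bot]
    exact natCast_ne_zero' hc hS.f0
  have hpV : (p : ℂ) ∈ V.nonunits := by
    have h1 := (hS.hV ((p : ℕ) : OO A B)).2 hS.hP.mem
    rwa [Pool.Agent.MUX.emb_natCast hc] at h1
  have fdk : FiniteDimensional ℚ (kk A B) := FiniteDimensional.of_injective
    (IntermediateField.inclusion hK).toLinearMap
    (IntermediateField.inclusion hK).toRingHom.injective
  obtain ⟨gK, -, cK⟩ := hGAL A B T (idl f) hfm K hK hSub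
  have hB : Twr l (kk A B) K Bn := ⟨hK, gK, cK, hlay, hmono⟩
  let aK : Algebra (kk A B) K := algC hK
  have galK : IsGalois (kk A B) K := (isGalois_algC hK).2 gK
  have tK : IsScalarTower ℚ (kk A B) K := IsScalarTower.of_algebraMap_eq (fun _ => rfl)
  have fdK : FiniteDimensional (kk A B) K := Module.Finite.of_restrictScalars_finite ℚ (kk A B) K
  have hfB : ∀ n, FiniteDimensional ℚ (Bn n) := fun n => (LAY_thm l n (Bn n) (hlay n)).1
  have hfL : ∀ n, FiniteDimensional ℚ ↥(K ⊔ Bn n) := fun n =>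
    IntermediateField.finiteDimensional_sup K (Bn n)
  have hc0 : Nat.card (K ≃ₐ[kk A B] K) ≠ 0 := Nat.card_pos.ne'
  obtain ⟨a, r, hr, hcr⟩ := Nat.exists_eq_pow_mul_and_not_dvd hc0 p hp.out.ne_one
  have hr0 : r ≠ 0 := by
    rintro rfl
    exact hr (dvd_zero p)
  have hcopf : ∀ i, (nI (R.b i)).Coprime f := fun i => (R.cop i).coprime_mul_left_right
  -- the characters of `Gal(K/k)`
  have hE := fun (j : {X : (K ≃ₐ[kk A B] K) →* ℂˣ // ∀ g, X g ^ r = 1}) =>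
    e0c hARF hNIM A B hc T (p * f) ι R f hf2 hcopf K hK hSub galK j.1 r j.2
  choose Ψ e1 e2 e3 e4 e5 e6 e7 e8 using hE
  refine ⟨{X : (K ≃ₐ[kk A B] K) →* ℂˣ // ∀ g, X g ^ r = 1}, fin_chr r hr0,
    fun j i => Ψ j (cjI (R.b i)), fun j x => Ψ j (sp x), ?_, ?_⟩
  · intro j
    refine ⟨?_, ?_, ?_, ?_, ?_, ?_, r, hr, ?_, ?_⟩
    · show Ψ j (sp 1) = 1
      rw [sp, Ideal.span_singleton_one, e3]
    · intro x y
      show Ψ j (sp (x * y)) = Ψ j (sp x) * Ψ j (sp y)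
      rw [← e2, sp, sp, sp, Ideal.span_singleton_mul_span_singleton]
    · intro x y hxy
      exact e6 j x y hxy
    · intro x
      exact e4 j (sp x)
    · exact e7 j
    · show Ψ j (cjI (R.b R.i0)) = 1
      rw [R.b0]
      have h1 : cjI (⊤ : Ideal (OO A B)) = ⊤ := Ideal.comap_top
      rw [h1, e3]
    · intro i
      exact e8 j i
    · intro x hx
      exact e5 j _ hx
  · intro n hn
    let aL : Algebra (kk A B) ↥(K ⊔ Bn (n + 1)) := algC hn
    intro χ hg₀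
    obtain ⟨g₀, hg1, hg2⟩ := hg₀
    obtain ⟨galL, comL⟩ := gal_ab l (kk A B) K Bn hB (n + 1) hn
    have tL : IsScalarTower ℚ (kk A B) ↥(K ⊔ Bn (n + 1)) :=
      IsScalarTower.of_algebraMap_eq (fun _ => rfl)
    have fdL : FiniteDimensional (kk A B) ↥(K ⊔ Bn (n + 1)) :=
      Module.Finite.of_restrictScalars_finite ℚ (kk A B) _
    obtain ⟨X, t, ht, hXt, hXres⟩ :=
      lift_chr p V hpV (↥(K ⊔ Bn (n + 1)) ≃ₐ[kk A B] ↥(K ⊔ Bn (n + 1))) χ
    obtain ⟨r₁, r₂, hr1, hr2, hsplit⟩ := chr_split l (kk A B) K Bn hB (n + 1) hn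
    obtain ⟨X₁, X₂, hX12⟩ := hsplit X
    have hX2 : ∀ g : Bn (n + 1) ≃ₐ[ℚ] Bn (n + 1), X₂ g ^ (l ^ (n + 1)) = 1 := by
      intro g
      have hGB : IsGalois ℚ (Bn (n + 1)) := (LAY_thm l (n + 1) (Bn (n + 1)) (hlay (n + 1))).2.1
      have h1 : Nat.card (Bn (n + 1) ≃ₐ[ℚ] Bn (n + 1)) = l ^ (n + 1) := by
        rw [IsGalois.card_aut_eq_finrank, (hlay (n + 1)).1]
      rw [← h1, ← map_pow, pow_card_eq_one', map_one]
    have hpl' : ¬ p ∣ l ^ (n + 1) := fun h => hpl (hp.out.dvd_of_dvd_pow h)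
    obtain ⟨Y, hYr, hXY⟩ := fix_ord p a r t (l ^ (n + 1)) hp.out hcr r₁ r₂ X X₁ X₂ hX12 ht hXt
      hpl' hX2
    obtain ⟨ψ, hψ1, hψ2, hψ3⟩ := cyc hLAY l s n hls (Bn n) (Bn (n + 1)) (hlay n) (hlay (n + 1))
      (hmono (Nat.le_succ n)) X₂
    refine ⟨⟨Y, hYr⟩, ψ, hψ1, hψ2 ?_, ?_⟩
    · -- the ramified part
      refine ⟨r₂ g₀, ?_, ?_⟩
      · intro x hx
        have h1 := hr2 g₀ x ⟨(x : ℂ), (le_sup_right : Bn (n + 1) ≤ K ⊔ Bn (n + 1)) x.2⟩ rfl
        have h2 := hg1 ⟨(x : ℂ), (le_sup_right : Bn (n + 1) ≤ K ⊔ Bn (n + 1)) x.2⟩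
          ((le_sup_right : Bn n ≤ K ⊔ Bn n) hx)
        rw [h2] at h1
        exact Subtype.ext h1.symm
      · intro h1
        have h2 : r₁ g₀ = 1 := by
          ext x
          have h3 := hr1 g₀ x ⟨(x : ℂ), (le_sup_left : K ≤ K ⊔ Bn (n + 1)) x.2⟩ rfl
          have h4 := hg1 ⟨(x : ℂ), (le_sup_left : K ≤ K ⊔ Bn (n + 1)) x.2⟩
            ((le_sup_left : K ≤ K ⊔ Bn n) x.2)
          rw [h4] at h3
          exact h3.symm
        have h3 : X g₀ = 1 := by rw [hXY g₀, h1, h2, map_one, mul_one]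
        apply hg2
        obtain ⟨h4, h5⟩ := hXres g₀
        apply Units.ext
        rw [← h5, Units.val_one, ← map_one (IsLocalRing.residue V)]
        congr 1
        apply Subtype.ext
        show ((X g₀ : ℂˣ) : ℂ) = 1
        rw [h3, Units.val_one]
    · intro τ q hq
      have hM0 : (l ^ (n + 1 + s)) ≠ 0 := pow_ne_zero _ hlp.ne_zero
      have hm2 : 2 ≤ (f * l ^ (n + 1 + s)) := by
        calc 2 ≤ f := hf2
          _ = f * 1 := (mul_one f).symm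
          _ ≤ f * (l ^ (n + 1 + s)) := Nat.mul_le_mul_left _ (Nat.pos_of_ne_zero hM0)
      have hm0 : idl (A := A) (B := B) (f * l ^ (n + 1 + s)) ≠ ⊥ := by
        rw [Ne, Ideal.span_singleton_eq_bot]
        exact natCast_ne_zero' hc (by omega)
      have hcl : ∀ i, (nI (R.b i)).Coprime l := fun i => (hcopf i).coprime_dvd_right hlf1
      have hcopm : ∀ i, (nI (R.b i)).Coprime (f * l ^ (n + 1 + s)) := fun i =>
        (hcopf i).mul_right ((hcl i).pow_right _)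
      have hNL : ∃ (b : Ideal (OO A B)) (L : PeriodPair) (om : ℂ), IsNL b L om :=
        ⟨_, _, _, R.nl R.i0⟩
      have hmf : idl (A := A) (B := B) (f * l ^ (n + 1 + s)) ≤ idl f := by
        rw [Ideal.span_singleton_le_span_singleton]
        push_cast
        exact dvd_mul_right _ _
      have hmM : idl (A := A) (B := B) (f * l ^ (n + 1 + s)) ≤ idl (l ^ (n + 1 + s)) := by
        rw [Ideal.span_singleton_le_span_singleton]
        push_cast
        exact dvd_mul_left _ _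
      -- the field is contained in the ray class field
      obtain ⟨i1, -, -, -, -, -, -, i8⟩ := hIAF A B hc T hNL _ hm0
      have hD : ∀ y ∈ K ⊔ Bn (n + 1), y ∈ RF (idl (A := A) (B := B) (f * l ^ (n + 1 + s))) :=
        lvl hLAY hIAF l s hls A B hc T hNL f hS.f0 K hSub (n + 1) (Bn (n + 1)) (hlay (n + 1))
      obtain ⟨a1, -, a3, a4, a5, a6, a7⟩ := hARF A B hc T hNL (idl (f * l ^ (n + 1 + s))) hm0 (K ⊔ Bn (n + 1)) hn hD
        galL
      obtain ⟨x1, -⟩ := hXXF A B hc T (p * f) ι R (f * l ^ (n + 1 + s)) hm2 hcopm (K ⊔ Bn (n + 1)) hn hD galL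
      obtain ⟨x, hx⟩ : ∃ x : OO A B, x = Quotient.out q.2 := ⟨_, rfl⟩
      have hxc : IsCoprime x (((f * l ^ (n + 1 + s)) : ℕ) : OO A B) := by
        rw [hx]
        exact hq.1
      rw [← hx]
      have hqe : (q.1, Ideal.Quotient.mk (idl (A := A) (B := B) (f * l ^ (n + 1 + s))) x) = q := by
        have h5 : Ideal.Quotient.mk (idl (A := A) (B := B) (f * l ^ (n + 1 + s))) x = q.2 := by
          rw [hx]
          exact Quotient.out_eq q.2
        rw [h5]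
      have hAR : AR hn (idl (f * l ^ (n + 1 + s))) τ (sp x * cjI (R.b q.1)) := by
        refine (x1 τ q.1 x hxc).1 ?_
        rw [hqe]
        exact hq
      have hx0 : x ≠ 0 := by
        intro h0
        rw [h0, isCoprime_zero_left] at hxc
        obtain ⟨z, hz⟩ := hxc.exists_right_inv
        exact Pool.Agent.NSI.Xmx.natCast_not_unit hm2 z hz
      have hb0 : R.b q.1 ≠ ⊥ := (R.nl q.1).b_ne
      have hspx : sp x ≠ ⊥ := by
        rwa [Ne, Ideal.span_singleton_eq_bot]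
      obtain ⟨N, hNdef⟩ : ∃ N : ℕ, N = nI (sp x * cjI (R.b q.1)) := ⟨_, rfl⟩
      have hN : ((N : ℕ) : ℤ) = nm x * nI (R.b q.1) := by
        rw [hNdef, nI_mul hc hspx (cjI_ne_bot hc hb0), nI_sp hc hx0, nI_cjI hc hb0]
        push_cast
        rw [abs_of_nonneg (nm_nonneg hc x)]
      -- the automorphism of `ℂ`
      obtain ⟨σ, hσ, hσe⟩ := hAR
      have hσz : ∀ z : ℂ, z ^ (l ^ (n + 1 + s)) = 1 → σ z = z ^ N := fun z hz => by
        rw [hNdef]
        exact (i8 (l ^ (n + 1 + s)) σ _ z hM0 hmM hσ hz).2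
      have hNl : N.Coprime l := by
        have hζ : IsPrimitiveRoot (zt (l ^ (n + 1 + s))) (l ^ (n + 1 + s)) := Complex.isPrimitiveRoot_exp (l ^ (n + 1 + s)) hM0
        have h1 : IsPrimitiveRoot (σ (zt (l ^ (n + 1 + s)))) (l ^ (n + 1 + s)) := hζ.map_of_injective (f := σ) σ.injective
        rw [hσz _ hζ.pow_eq_one] at h1
        have h2 := (hζ.pow_iff_coprime (Nat.pos_of_ne_zero hM0) N).1 h1
        exact h2.coprime_dvd_right (dvd_pow_self l (by omega))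
      have hσB : ∀ y : Bn (n + 1), (σ : ℂ →+* ℂ) (y : ℂ) = (r₂ τ y : Bn (n + 1)) := by
        intro y
        have h1 := hσe ⟨(y : ℂ), (le_sup_right : Bn (n + 1) ≤ K ⊔ Bn (n + 1)) y.2⟩
        have h2 := hr2 τ y ⟨(y : ℂ), (le_sup_right : Bn (n + 1) ≤ K ⊔ Bn (n + 1)) y.2⟩ rfl
        rw [h2] at h1
        exact h1
      have hψN := hψ3 (σ : ℂ →+* ℂ) N (r₂ τ) hNl hσz hσB
      have hARK : AR hK (idl f) (r₁ τ) (sp x * cjI (R.b q.1)) :=
        a6 K hK (idl f) hmf le_sup_left τ (r₁ τ) _ (fun y y' h => hr1 τ y y' h) ⟨σ, hσ, hσe⟩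
      have hΨ := e1 ⟨Y, hYr⟩ (r₁ τ) _ hARK
      rw [e2] at hΨ
      have hcast : ((nm x * nI (R.b q.1) : ℤ) : ZMod (l ^ (n + 1 + s))) = ((N : ℕ) : ZMod (l ^ (n + 1 + s))) := by
        rw [← hN, Int.cast_natCast]
      have hth : thT R (fun i => Ψ ⟨Y, hYr⟩ (cjI (R.b i))) (fun x => Ψ ⟨Y, hYr⟩ (sp x)) ψ q.1 x =
          ((X τ⁻¹ : ℂˣ) : ℂ) := by
        show Ψ ⟨Y, hYr⟩ (cjI (R.b q.1)) * Ψ ⟨Y, hYr⟩ (sp x) *
          ψ ((nm x * nI (R.b q.1) : ℤ) : ZMod (l ^ (n + 1 + s))) = _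
        rw [hcast, hψN, mul_comm (Ψ ⟨Y, hYr⟩ (cjI (R.b q.1))), hΨ, ← Units.val_mul, ← mul_inv,
          ← hXY τ, map_inv]
      refine (congrArg (rsd V) hth).trans ?_
      obtain ⟨h4, h5⟩ := hXres τ⁻¹
      unfold rsd
      rw [dif_pos h4, h5, map_inv]

end Pool.Agent.TWF
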