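import Pool.Agent.TWF.END3
import Pool.Agent.TWF.FACT
import Pool.Agent.TWT.UNITA
import Pool.Agent.TWG.SYMA
import Pool.Agent.TWK.All3
import Pool.Agent.MUX.ZW
import Pool.Agent.MUX.ZY
import Pool.Agent.MUX.Z_THN
import Pool.Agent.MUX.IAll
import Pool.Agent.MUX.JAll
import Pool.Agent.MUX.XFAll
import Pool.Agent.MUX.XCAll
import Pool.Agent.HB.JTAll

/-!
# TWF: assembly of the split version of Theorem C, except `S_CRIT` and `S_UNF`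
-/

set_option autoImplicit false

open NumberField IsDedekindDomain

namespace Pool.Agent.TWF

open _root_.MU3 Pool.Agent.MU3 Pool.Agent.MU3A Pool.Agent.MU3B Pool.Agent.RI Pool.Agent.RID
  Pool.Agent.MUX Pool.Agent.MUXJ Pool.Agent.MUXY Pool.Agent.TWT Pool.Agent.TWK Pool.Agent.MUXW
  Pool.Agent.MUXI Pool.Agent.MUXZ

theorem a_FACT : S_FACT :=
  t_FACT MUXI.i_ARF MUXI.i_IAF MUXI.i_XXF MUXI.i_LAY MUXF.xf_NIM MUXJ.j_GAL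

theorem a_FIN3 (hCRIT : S_CRIT) : S_FIN3 :=
  k_FIN3 z_MEM z_TOW z_SUC z_KOL (tz_THN z_THG) (t_UNITA Pool.Agent.TWG.t_SYMA hCRIT a_FACT)

/-- everything except `S_CRIT` and `S_UNF` -/
theorem asm (hCRIT : S_CRIT) (hUNF : S_UNF) (k : IntermediateField ℚ ℂ)
    (h2 : Module.finrank ℚ k = 2) (hi : ∃ z ∈ k, (starRingEnd ℂ) z ≠ z)
    (h4 : ∀ z ∈ k, z ^ 2 ≠ -1) (h3 : ∀ z ∈ k, z ^ 2 ≠ -3) :
    ∃ S : Finset ℕ, ∀ p : ℕ, p.Prime → p ∉ S →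
      (∃ P₁ P₂ : Ideal (𝓞 k), P₁.IsPrime ∧ P₂.IsPrime ∧ P₁ ≠ P₂ ∧ (p : 𝓞 k) ∈ P₁ ∧
        (p : 𝓞 k) ∈ P₂) → StP k p :=
  final (a_FIN3 hCRIT) MUXI.i_LAY MUXI.i_IAF MUXY.z_REX MUXY.z_NLE hUNF MUXC.c_TOR z_GRB
    MUXV.q_ALU Pool.Agent.JT.j_JTR Pool.Agent.JT.j_JQF MUXJ.j_DIR MUXJ.j_LAY k h2 hi h4 h3

end Pool.Agent.TWF
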