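import Mathlib

/-!
# TWF: characters of `Gal(K B_n / k)`, group theory and cyclotomic part
-/

set_option autoImplicit false

open NumberField

namespace Pool.Agent.TWF

/-- Factorization of a character of a subgroup of a product. -/
theorem factor {G G₁ G₂ : Type} [Group G] [Group G₁] [Group G₂] [Finite G₁] [Finite G₂]
    (h1 : ∀ a b : G₁, a * b = b * a) (h2 : ∀ a b : G₂, a * b = b * a) (r₁ : G →* G₁)
    (r₂ : G →* G₂) (hinj : ∀ g, r₁ g = 1 → r₂ g = 1 → g = 1) (X : G →* ℂˣ) :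
    ∃ (X₁ : G₁ →* ℂˣ) (X₂ : G₂ →* ℂˣ), ∀ g, X g = X₁ (r₁ g) * X₂ (r₂ g) := by
  let i1 : CommGroup G₁ := { ‹Group G₁› with mul_comm := h1 }
  let i2 : CommGroup G₂ := { ‹Group G₂› with mul_comm := h2 }
  let r : G →* G₁ × G₂ := r₁.prod r₂
  have hr : Function.Injective r := by
    rw [injective_iff_map_eq_one]
    intro g hg
    exact hinj g (congrArg Prod.fst hg) (congrArg Prod.snd hg)
  let e : G ≃* r.range := MonoidHom.ofInjective hr
  obtain ⟨Y, hY⟩ := MonoidHom.domRestrict_surjective ℂ r.range (X.comp e.symm.toMonoidHom)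
  refine ⟨Y.comp (MonoidHom.inl G₁ G₂), Y.comp (MonoidHom.inr G₁ G₂), fun g => ?_⟩
  have h3 : Y (r g) = X g := by
    have h4 := DFunLike.congr_fun hY (e g)
    have h5 : (X.comp e.symm.toMonoidHom) (e g) = X g := by
      show X (e.symm (e g)) = X g
      rw [e.symm_apply_apply]
    rw [h5] at h4
    exact h4
  rw [← h3]
  show Y (r g) = Y (r₁ g, 1) * Y (1, r₂ g)
  rw [← map_mul]
  congr 1
  show (r₁ g, r₂ g) = (r₁ g, 1) * (1, r₂ g)
  rw [Prod.mk_mul_mk, mul_one, one_mul]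

/-- The automorphisms of a Galois subfield `B` of `ℚ(ζ)`. -/
theorem alpha (M : ℕ) [NeZero M] (ζ : ℂ) (hζ : IsPrimitiveRoot ζ M) (B : IntermediateField ℚ ℂ)
    [FiniteDimensional ℚ B] [IsGalois ℚ B] (hB : B ≤ IntermediateField.adjoin ℚ {ζ}) :
    ∃ α : (ZMod M)ˣ →* (B ≃ₐ[ℚ] B), (∀ (σ : ℂ →+* ℂ) (c : ℕ) (u : (ZMod M)ˣ),
      (u : ZMod M) = (c : ZMod M) → σ ζ = ζ ^ c → ∀ y : B, σ (y : ℂ) = (α u y : B)) ∧
      ∀ (u : (ZMod M)ˣ) (y : B), (y : ℂ) = ζ + ζ⁻¹ →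
        ((α u y : B) : ℂ) = ζ ^ (u : ZMod M).val + (ζ ^ (u : ZMod M).val)⁻¹ := by
  have hC : IsCyclotomicExtension {M} ℚ (IntermediateField.adjoin ℚ {ζ}) := by
    change IsCyclotomicExtension {M} ℚ (IntermediateField.adjoin ℚ {ζ}).toSubalgebra
    have hi : IsIntegral ℚ ζ := (hζ.isIntegral (NeZero.pos M)).tower_top
    rw [IntermediateField.adjoin_simple_toSubalgebra_of_isAlgebraic hi.isAlgebraic]
    exact hζ.adjoin_isCyclotomicExtension ℚ
  set C := IntermediateField.adjoin ℚ {ζ} with hCdef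
  have hfd : FiniteDimensional ℚ C := IsCyclotomicExtension.finiteDimensional {M} ℚ C
  have hnf : NumberField C := NumberField.mk
  let aB : Algebra B C := (IntermediateField.inclusion hB).toRingHom.toAlgebra
  have tow : IsScalarTower ℚ B C := IsScalarTower.of_algebraMap_eq (fun _ => rfl)
  let E := (IsCyclotomicExtension.Rat.galEquivZMod M C)
  let α : (ZMod M)ˣ →* (B ≃ₐ[ℚ] B) :=
    (AlgEquiv.restrictNormalHom (F := ℚ) (K₁ := C) B).comp E.symm.toMonoidHom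
  have hζC : ζ ∈ C := IntermediateField.mem_adjoin_simple_self ℚ ζ
  have hval : ∀ u : (ZMod M)ˣ, ((E.symm u ⟨ζ, hζC⟩ : C) : ℂ) = ζ ^ (u : ZMod M).val := by
    intro u
    have h3 : (⟨ζ, hζC⟩ : C) ^ M = 1 := by
      apply Subtype.ext
      exact hζ.pow_eq_one
    have h4 := IsCyclotomicExtension.Rat.galEquivZMod_apply_of_pow_eq M C (E.symm u) h3
    rw [h4]
    have h5 : IsCyclotomicExtension.Rat.galEquivZMod M C (E.symm u) = u := E.apply_symm_apply u
    rw [h5]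
    rfl
  have hres : ∀ (u : (ZMod M)ˣ) (y : B), ((α u y : B) : ℂ) =
      ((E.symm u (algebraMap B C y) : C) : ℂ) := by
    intro u y
    have h2 : algebraMap B C (α u y) = E.symm u (algebraMap B C y) :=
      AlgEquiv.restrictNormal_commutes (E.symm u) B y
    rw [← h2]
    rfl
  refine ⟨α, fun σ c u hu hσ y => ?_, fun u y hy => ?_⟩
  · have h2 : ((E.symm u ⟨ζ, hζC⟩ : C) : ℂ) = ζ ^ c := by
      rw [hval]
      have h7 : (u : ZMod M).val ≡ c [MOD M] := by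
        rw [← ZMod.natCast_eq_natCast_iff, ZMod.natCast_zmod_val, hu]
      rw [← Nat.mod_add_div (u : ZMod M).val M, ← Nat.mod_add_div c M, h7, pow_add, pow_add,
        pow_mul, pow_mul, hζ.pow_eq_one, one_pow, one_pow]
    let f : C →ₐ[ℚ] ℂ := (σ.comp (algebraMap C ℂ)).toRatAlgHom
    let g : C →ₐ[ℚ] ℂ := C.val.comp ((E.symm u : C ≃ₐ[ℚ] C) : C →ₐ[ℚ] C)
    have h6 : f = g := by
      refine IntermediateField.adjoin_algHom_ext ℚ ?_
      intro x hx
      have hx' : x = ζ := hx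
      subst hx'
      show σ x = ((E.symm u ⟨x, _⟩ : C) : ℂ)
      rw [hσ]
      exact h2.symm
    rw [hres]
    exact DFunLike.congr_fun h6 (algebraMap B C y)
  · have h1 : algebraMap B C y = (⟨ζ, hζC⟩ : C) + (⟨ζ, hζC⟩ : C)⁻¹ := by
      apply Subtype.ext
      exact hy
    rw [hres, h1, map_add, map_inv₀]
    show ((E.symm u ⟨ζ, hζC⟩ : C) : ℂ) + ((E.symm u ⟨ζ, hζC⟩ : C) : ℂ)⁻¹ = _
    rw [hval]

end Pool.Agent.TWF
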