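import Pool.Agent.RI.FinalA

/-!
# TWF, module DES: descent of the triviality of the relative class group

`F ⊆ K`, `A ⊆ C`, `K ⊆ C`, `K ∩ A = F`. If the relative class group of `C / A` has trivial `p`-part then
so has the relative class group of `K / F`. If no prime above `p` splits in `C / A` then no prime above
`p` splits in `K / F`.
-/

set_option autoImplicit false

open NumberField IsDedekindDomain
open scoped nonZeroDivisors Pointwise

namespace Pool.Agent.TWF

open Pool.Agent.RI

section

variable {F K A C : Type} [Field F] [NumberField F] [Field K] [NumberField K] [Field A]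
  [NumberField A] [Field C] [NumberField C] [Algebra F K] [Algebra F A] [Algebra F C]
  [Algebra K C] [Algebra A C] [IsScalarTower F K C] [IsScalarTower F A C] [IsGalois F K]

/-- The restriction `Gal(C/A) → Gal(K/F)`. -/
noncomputable def res : (C ≃ₐ[A] C) →* (K ≃ₐ[F] K) where
  toFun σ := (σ.restrictScalars F).restrictNormal K
  map_one' := by
    ext x
    apply (algebraMap K C).injective
    rw [AlgEquiv.restrictNormal_commutes]
    rfl
  map_mul' σ τ := by
    ext x
    apply (algebraMap K C).injective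
    rw [AlgEquiv.restrictNormal_commutes, AlgEquiv.mul_apply, AlgEquiv.restrictNormal_commutes,
      AlgEquiv.restrictNormal_commutes]
    rfl

theorem res_commutes (σ : C ≃ₐ[A] C) (x : K) :
    algebraMap K C (res (F := F) σ x) = σ (algebraMap K C x) :=
  AlgEquiv.restrictNormal_commutes (σ.restrictScalars F) K x

/-- The restriction is surjective if `K ∩ A = F`. -/
theorem res_surj [IsGalois A C]
    (hint : ∀ x : K, ∀ a : A, algebraMap K C x = algebraMap A C a → ∃ y : F, algebraMap F K y = x) :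
    Function.Surjective (res (F := F) (K := K) (A := A) (C := C)) := by
  have h1 : (res (F := F) (K := K) (A := A) (C := C)).range = ⊤ := by
    rw [← IntermediateField.fixingSubgroup_fixedField (res (F := F) (K := K) (A := A) (C := C)).range]
    have h2 : IntermediateField.fixedField (res (F := F) (K := K) (A := A) (C := C)).range = ⊥ := by
      rw [eq_bot_iff]
      intro x hx
      rw [IntermediateField.mem_fixedField_iff] at hx
      have h3 : algebraMap K C x ∈ (⊥ : IntermediateField A C) := by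
        rw [IsGalois.mem_bot_iff_fixed]
        intro σ
        rw [← res_commutes (F := F) σ x, hx _ ⟨σ, rfl⟩]
      obtain ⟨a, ha⟩ := IntermediateField.mem_bot.1 h3
      obtain ⟨y, hy⟩ := hint x a ha.symm
      exact IntermediateField.mem_bot.2 ⟨y, hy⟩
    rw [h2, IntermediateField.fixingSubgroup_bot]
  exact MonoidHom.range_eq_top.1 h1

/-- The norm of an extended ideal. -/
theorem prod_ext [IsGalois A C]
    (hint : ∀ x : K, ∀ a : A, algebraMap K C x = algebraMap A C a → ∃ y : F, algebraMap F K y = x)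
    (c : J K) (hc : (∏ σ : K ≃ₐ[F] K, σ • c) = 1) : (∏ σ : C ≃ₐ[A] C, σ • ext K C c) = 1 := by
  classical
  have h1 : ∀ σ : C ≃ₐ[A] C, σ • ext K C c = ext K C (res (F := F) σ • c) := fun σ =>
    (EXTACT_thm F K A C σ (res (F := F) σ) (fun x => res_commutes σ x) c).symm
  rw [Finset.prod_congr rfl fun σ _ => h1 σ, ← map_prod]
  have h2 : (∏ σ : C ≃ₐ[A] C, res (F := F) (K := K) σ • c) = 1 := by
    rw [← Finset.prod_fiberwise Finset.univ (fun σ : C ≃ₐ[A] C => res (F := F) (K := K) σ)]
    have h3 : ∀ τ : K ≃ₐ[F] K, (∏ σ ∈ Finset.univ.filter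
        (fun σ : C ≃ₐ[A] C => res (F := F) (K := K) σ = τ), res (F := F) (K := K) σ • c) =
        (τ • c) ^ (Finset.univ.filter
          (fun σ : C ≃ₐ[A] C => res (F := F) (K := K) σ = 1)).card := by
      intro τ
      rw [Finset.prod_congr rfl (g := fun _ => τ • c) (by
        intro σ hσ
        rw [(Finset.mem_filter.1 hσ).2]), Finset.prod_const]
      congr 1
      exact MonoidHom.card_fiber_eq_of_mem_range (res (F := F) (K := K) (A := A) (C := C))
        (res_surj hint τ) ⟨1, map_one _⟩
    rw [Finset.prod_congr rfl fun τ _ => h3 τ, Finset.prod_pow, hc, one_pow]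
  rw [h2, map_one]

/-- DES: the relative class group goes down. -/
theorem relTriv_desc (p : ℕ) [IsGalois A C] [IsGalois K C]
    (hcop : (Module.finrank K C).Coprime p)
    (hint : ∀ x : K, ∀ a : A, algebraMap K C x = algebraMap A C a → ∃ y : F, algebraMap F K y = x)
    (h : RelTriv A C p) : RelTriv F K p := by
  intro c hc
  obtain ⟨m, hm, x, hx⟩ := h (ext K C c) (prod_ext hint c hc)
  refine ⟨m * Module.finrank K C, Nat.Coprime.mul_left hm hcop,
    Units.map (Algebra.norm K : C →* K) x, ?_⟩
  apply ext_injective K C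
  rw [← CL.nm_prin (F := K) x, ← hx, map_pow, map_pow (CL.nm K C), CL.nm_ext, ← pow_mul,
    mul_comm]

/-- Primes that do not split in `C / A` do not split in `K / F`. -/
theorem nonsplit_desc (p : ℕ) [IsGalois A C]
    (hint : ∀ x : K, ∀ a : A, algebraMap K C x = algebraMap A C a → ∃ y : F, algebraMap F K y = x)
    (h : ∀ P Q : Ideal (𝓞 C), P.IsPrime → Q.IsPrime → (p : 𝓞 C) ∈ P → (p : 𝓞 C) ∈ Q →
      P.under (𝓞 A) = Q.under (𝓞 A) → P = Q) :
    ∀ P Q : Ideal (𝓞 K), P.IsPrime → Q.IsPrime → (p : 𝓞 K) ∈ P → (p : 𝓞 K) ∈ Q →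
      P.under (𝓞 F) = Q.under (𝓞 F) → P = Q := by
  intro P Q hP hQ hpP hpQ hPQ
  obtain ⟨τ, hτ⟩ := Algebra.IsInvariant.exists_smul_of_under_eq (𝓞 F) (𝓞 K) (K ≃ₐ[F] K) P Q hPQ
  obtain ⟨σ, hσ⟩ := res_surj (F := F) (K := K) (A := A) (C := C) hint τ
  obtain ⟨P', hP', hover⟩ : ∃ P' : Ideal (𝓞 C), P'.IsPrime ∧ P'.under (𝓞 K) = P := by
    obtain ⟨P', hP', hov⟩ := (inferInstance : Nonempty (P.primesOver (𝓞 C)))
    exact ⟨P', hP', hov.over.symm⟩
  have h1 : (p : 𝓞 C) ∈ P' := by
    have : (p : 𝓞 K) ∈ P'.under (𝓞 K) := by rw [hover]; exact hpP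
    rw [Ideal.under_def, Ideal.mem_comap, map_natCast] at this
    exact this
  have h2 : (σ • P').IsPrime := by
    have := hP'
    infer_instance
  have h3 : (p : 𝓞 C) ∈ σ • P' := by
    rw [Ideal.mem_pointwise_smul_iff_inv_smul_mem]
    have : σ⁻¹ • (p : 𝓞 C) = (p : 𝓞 C) := map_natCast (MulSemiringAction.toRingHom (C ≃ₐ[A] C) (𝓞 C) σ⁻¹) p
    rw [this]
    exact h1
  have h4 : (σ • P').under (𝓞 A) = P'.under (𝓞 A) := by
    exact Ideal.under_smul (𝓞 A) P' σ
  have h5 := h _ _ h2 hP' h3 h1 h4
  have h6 : (σ • P').under (𝓞 K) = τ • P := by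
    have h7 := NSN.under_smul (K := K) (σ.restrictScalars F) P'
    rw [NSN.restrictScalars_smul, hover] at h7
    rw [h7, ← hσ]
    rfl
  rw [hτ, ← h6, h5, hover]

end

end Pool.Agent.TWF
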