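import Pool.Agent.MU3.StP
import Pool.Agent.RI.Basic

/-!
# TWF: the fields of the theorem on twisted layers

All fields are subfields of `ℂ`, `B n` is the `n`-th layer of the cyclotomic `ℤ_l`-extension of `ℚ`.
-/

set_option autoImplicit false

open NumberField

namespace Pool.Agent.TWF

open Pool.Agent.RI

/-- `K / k` is Galois with abelian group, `B n` the layers of the cyclotomic `ℤ_l`-extension of `ℚ`. -/
structure Twr (l : ℕ) (k K : IntermediateField ℚ ℂ) (B : ℕ → IntermediateField ℚ ℂ) : Prop where
  hk : k ≤ K
  gal : IsGalois k (IntermediateField.extendScalars hk)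
  ab : ∀ σ τ : (IntermediateField.extendScalars hk) ≃ₐ[k] (IntermediateField.extendScalars hk),
    σ * τ = τ * σ
  lay : ∀ n, IsLayer l n (B n)
  mono : Monotone B

end Pool.Agent.TWF
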