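import Pool.Agent.TWF.StF
import Pool.Agent.TWF.END1
import Pool.Agent.TWF.COR
import Pool.Agent.TWF.GRO
import Pool.Agent.TWF.LVL
import Pool.Agent.TWK.FIN3
import Pool.Agent.TWK.PVX
import Pool.Agent.MUX.StYR
import Pool.Agent.MUX.StJX
import Pool.Agent.HB.StJT

/-!
# TWF: the final theorem from its inputs
-/

set_option autoImplicit false

open NumberField IsDedekindDomain

namespace Pool.Agent.TWF

open _root_.MU3 Pool.Agent.MU3 Pool.Agent.MU3A Pool.Agent.MU3B Pool.Agent.RI Pool.Agent.RID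
  Pool.Agent.MUX Pool.Agent.MUXJ Pool.Agent.MUXY Pool.Agent.TWT Pool.Agent.TWK
open Pool.Agent.MU3V (Sub)

/-- The layers, in the form used here. -/
theorem layers (hLAYs : Sj_LAY) (l : ℕ) (hl : l = 2 ∨ l = 3) :
    ∃ Bn : ℕ → IntermediateField ℚ ℂ, (∀ n, IsLayer l n (Bn n)) ∧ Monotone Bn ∧
      ∀ (n : ℕ) (Q : IntermediateField ℚ ℂ), IsLayer l n Q → Q = Bn n := hLAYs l hl

/-- All good reduction data outside a finite set of primes. -/
def Good (A B : ℤ) (n₀ : ℕ) : Prop :=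
  n₀ ≠ 0 ∧ ∀ V : ValuationSubring ℂ, V.valuation (n₀ : ℂ) = 1 →
    ∀ (N₀ : ℕ) (ι : Type) (R : Reps A B N₀ ι), GRd V R

/-- a natural number prime to `p` is a unit of `V` -/
theorem val_unit (V : ValuationSubring ℂ) (p n : ℕ) (hp : p.Prime) (hV : (p : ℂ) ∈ V.nonunits)
    (hn : ¬ p ∣ n) : V.valuation (n : ℂ) = 1 := by
  have hle : ∀ m : ℤ, V.valuation (m : ℂ) ≤ 1 := by
    intro m
    rw [ValuationSubring.valuation_le_one_iff]
    exact intCast_mem V m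
  have hcop : IsCoprime (p : ℤ) (n : ℤ) :=
    Nat.isCoprime_iff_coprime.2 ((Nat.Prime.coprime_iff_not_dvd hp).2 hn)
  obtain ⟨u, v, huv⟩ := hcop
  have h1 : V.valuation ((u : ℂ) * p) < 1 := by
    rw [map_mul]
    have h2 : V.valuation (p : ℂ) < 1 := (V.mem_nonunits_iff).1 hV
    calc V.valuation (u : ℂ) * V.valuation (p : ℂ) ≤ 1 * V.valuation (p : ℂ) :=
          mul_le_mul_left (hle u) _
      _ = V.valuation (p : ℂ) := one_mul _
      _ < 1 := h2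
  by_contra hne
  have h3 : V.valuation (n : ℂ) < 1 := by
    have h4 := hle n
    rw [Int.cast_natCast] at h4
    exact lt_of_le_of_ne h4 hne
  have h5 : V.valuation ((v : ℂ) * n) < 1 := by
    rw [map_mul]
    calc V.valuation (v : ℂ) * V.valuation (n : ℂ) ≤ 1 * V.valuation (n : ℂ) :=
          mul_le_mul_left (hle v) _
      _ = V.valuation (n : ℂ) := one_mul _
      _ < 1 := h3
  have h6 : (u : ℂ) * p + (v : ℂ) * n = 1 := by exact_mod_cast huv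
  have h7 := V.valuation.map_add_lt h1 h5
  rw [h6, map_one] at h7
  exact lt_irrefl _ h7

/-- The core: `k = kk A B`, one prime `p`, one field `K`, one prime `l`. -/
theorem core (hFIN : S_FIN3) (hLAY : Pool.Agent.MUXI.Si_LAY) (hIAF : Pool.Agent.MUXI.Si_IAF)
    (hREX : Sy_REX) (l g h : ℕ) (hgen : Pool.Agent.TWR.Gen l g h) (p : ℕ) (A B : ℤ)
    (P : Ideal (OO A B)) (V : ValuationSubring ℂ) (f : ℕ) (hS : SetG p A B P V f)
    (hlf : l ^ h ∣ f) (T : TorX A B) (hd3 : absD A B ≠ 3) (hd4 : absD A B ≠ 4)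
    (hgood : ∀ (N₀ : ℕ) (ι : Type) (R : Reps A B N₀ ι), GRd V R)
    (K : IntermediateField ℚ ℂ) [FiniteDimensional ℚ K] (hk : kk A B ≤ K)
    (hG : IsGalois (kk A B) (IntermediateField.extendScalars hk))
    (hab : ∀ σ τ : (IntermediateField.extendScalars hk) ≃ₐ[kk A B]
      (IntermediateField.extendScalars hk), σ * τ = τ * σ)
    (hdeg : ¬ p ∣ Module.finrank (kk A B) (IntermediateField.extendScalars hk))
    (hKf : ∀ x ∈ K, x ∈ (RF (idl f) : IntermediateField (kk A B) ℂ))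
    (Bn : ℕ → IntermediateField ℚ ℂ) (hlay : ∀ n, IsLayer l n (Bn n)) (hmono : Monotone Bn) :
    ∃ n₀ : ℕ, (¬ Bn (n₀ + 1) ≤ K ⊔ Bn n₀) ∧ ∀ n, n₀ ≤ n →
      ∀ L : IntermediateField ℚ ℂ, kk A B ≤ L → L ≤ K ⊔ Bn n →
      ∀ (m : ℕ) (Q : IntermediateField ℚ ℂ), IsLayer p m Q →
        padicValNat p (classNo (L ⊔ Q)) =
          padicValNat p (classNo ((L ⊓ (K ⊔ Bn n₀)) ⊔ Q)) := by
  have hpp : Fact p.Prime := ⟨hS.pp⟩
  have hls : (l = 3 ∧ h = 1) ∨ (l = 2 ∧ h = 2) := by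
    rcases hgen with ⟨h1, -, h2⟩ | ⟨h1, -, h2⟩
    · exact Or.inl ⟨h1, h2⟩
    · exact Or.inr ⟨h1, h2⟩
  have hlp : l.Prime := by
    rcases hls with ⟨rfl, -⟩ | ⟨rfl, -⟩
    · exact Nat.prime_three
    · exact Nat.prime_two
  have hlF : Fact l.Prime := ⟨hlp⟩
  have hpl : p ≠ l := by
    have h5 := hS.p5
    rcases hls with ⟨rfl, -⟩ | ⟨rfl, -⟩ <;> omega
  obtain ⟨ι, iι, ⟨R⟩⟩ := hREX A B hS.cq hd3 hd4 (p * f) (mul_ne_zero hS.pp.ne_zero hS.f0)
  have fdk : FiniteDimensional ℚ (kk A B) := FiniteDimensional.of_injective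
    (IntermediateField.inclusion hk).toLinearMap
    (IntermediateField.inclusion hk).toRingHom.injective
  have hfB : ∀ n, FiniteDimensional ℚ (Bn n) := fun n => (LAY_thm l n (Bn n) (hlay n)).1
  have hfL : ∀ n, FiniteDimensional ℚ ↥(K ⊔ Bn n) := fun n =>
    IntermediateField.finiteDimensional_sup K (Bn n)
  have hT : Twr l (kk A B) K Bn := ⟨hk, hG, hab, hlay, hmono⟩
  have hNL : ∃ (b : Ideal (OO A B)) (L : PeriodPair) (om : ℂ), IsNL b L om :=
    ⟨_, _, _, R.nl R.i0⟩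
  obtain ⟨n₁, hn₁⟩ := hFIN l g h hgen p A B P V f hS hlf T ι R (hgood _ _ R) K hk hdeg hKf Bn
    hlay hmono (fun n => lvl hLAY hIAF l h hls A B hS.cq T hNL f hS.f0 K hKf n (Bn n) (hlay n))
  obtain ⟨n₂, hn₂⟩ := end1 p l hpl (kk A B) K Bn hT
  obtain ⟨n₃, hn₃⟩ := grow l (kk A B) K Bn hT
  refine ⟨n₁ + n₂ + n₃, hn₃ _ (by omega), ?_⟩
  intro n hn L hkL hL m Q hQ
  obtain ⟨b, rfl⟩ := Nat.exists_eq_add_of_le hn
  exact hn₂ _ (by omega) b L hkL hL (hn₁ _ (by omega) b L hkL hL) m Q hQ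

end Pool.Agent.TWF
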