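import Pool.Agent.TWF.END2
import Pool.Agent.TWF.COR2
import Pool.Agent.TWK.GRD
import Pool.Agent.MUX.XLib
import Pool.Agent.MUX.ZUni

/-!
# TWF: the final theorem for `k = kk A B` and for all `k`
-/

set_option autoImplicit false

open NumberField IsDedekindDomain

namespace Pool.Agent.TWF

open _root_.MU3 Pool.Agent.MU3 Pool.Agent.MU3A Pool.Agent.MU3B Pool.Agent.RI Pool.Agent.RID
  Pool.Agent.MUX Pool.Agent.MUXJ Pool.Agent.MUXY Pool.Agent.TWT Pool.Agent.TWK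
open Pool.Agent.MU3V (Sub)

/-- a valuation ring above the conjugate of an ideal of norm `p` -/
theorem conjV (A B : ℤ) (hc : CQ A B) (p : ℕ) (hp : p.Prime) (P : Ideal (OO A B))
    (hP : IsPN p P) : ∃ V' : ValuationSubring ℂ, OverI V' (cjI P) := by
  have hP0 : P ≠ ⊥ := by
    rintro rfl
    exact natCast_ne_zero' hc hp.ne_zero (Ideal.mem_bot.1 hP.mem)
  have hpr : (cjI P).IsPrime := by
    have := hP.prime
    exact Ideal.IsPrime.comap _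
  have hmem : ((p : ℕ) : OO A B) ∈ cjI P := by
    unfold cjI
    rw [Ideal.mem_comap, map_natCast]
    exact hP.mem
  have hcard : Nat.card (OO A B ⧸ cjI P) = p := by
    have h1 : nI (cjI P) = p := by rw [nI_cjI hc hP0, hP.norm]
    exact h1
  have hmax : (cjI P).IsMaximal := by
    have hfin : Finite (OO A B ⧸ cjI P) :=
      Nat.finite_of_card_ne_zero (by rw [hcard]; exact hp.ne_zero)
    have := Fintype.ofFinite (OO A B ⧸ cjI P)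
    have hc1 : Fintype.card (OO A B ⧸ cjI P) = p := by rw [← Nat.card_eq_fintype_card, hcard]
    apply Ideal.Quotient.maximal_of_isField
    have := Fact.mk hp
    let e := ZMod.ringEquivOfPrime (OO A B ⧸ cjI P) hp hc1
    exact e.symm.toMulEquiv.isField (Field.toIsField (ZMod p))
  obtain ⟨V', hV', -⟩ := PVXx.exV hc (cjI P) p hmem hmax
  exact ⟨V', hV'⟩

/-- the prime-to-`l` part -/
theorem dvd_split (l a N : ℕ) [Fact l.Prime] (h : ¬ l ^ (a + 1) ∣ N) :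
    ∃ r, ¬ l ∣ r ∧ N ∣ l ^ a * r := by
  have hN : N ≠ 0 := by
    rintro rfl
    exact h (dvd_zero _)
  obtain ⟨b, r, hr, hb⟩ := Nat.exists_eq_pow_mul_and_not_dvd hN l (Fact.out : l.Prime).ne_one
  refine ⟨r, hr, ?_⟩
  rw [hb]
  refine Nat.mul_dvd_mul_right (pow_dvd_pow l ?_) r
  by_contra hlt
  push Not at hlt
  exact h ((pow_dvd_pow l hlt).trans (by rw [hb]; exact dvd_mul_right _ _))

/-- The statement for the field `k` and the prime `p`. -/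
def StP (k : IntermediateField ℚ ℂ) (p : ℕ) : Prop :=
  ∀ (K : IntermediateField ℚ ℂ) [FiniteDimensional ℚ K] (hk : k ≤ K),
    IsGalois k (IntermediateField.extendScalars hk) →
    (∀ σ τ : (IntermediateField.extendScalars hk) ≃ₐ[k] (IntermediateField.extendScalars hk),
      σ * τ = τ * σ) →
    ¬ p ∣ Module.finrank k (IntermediateField.extendScalars hk) →
    (∀ Q : Ideal (𝓞 K), Q.IsPrime → (p : 𝓞 K) ∈ Q → (p : 𝓞 K) ∉ Q ^ 2) →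
    ∀ l : ℕ, (l = 2 ∨ l = 3) → ∃ n₀ : ℕ, ∀ B₀ : IntermediateField ℚ ℂ, IsLayer l n₀ B₀ →
      (∀ a : ℕ, ¬ l ^ (a + 1) ∣ Module.finrank k (IntermediateField.extendScalars hk) →
        ∀ n : ℕ, n₀ + a ≤ n → ∀ B B' : IntermediateField ℚ ℂ, IsLayer l n B →
        IsLayer l (n + 1) B' → ∀ (L : IntermediateField ℚ ℂ) (hL : k ≤ L),
        L ≤ K ⊔ B' → ¬ L ≤ K ⊔ B →
        IsCyclic ((IntermediateField.extendScalars hL) ≃ₐ[k]
          (IntermediateField.extendScalars hL)) →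
        ∀ (L₁ : IntermediateField ℚ ℂ) (h₁ : k ≤ L₁) (h₂ : L₁ ≤ L),
        ¬ l ∣ Module.finrank k (IntermediateField.extendScalars h₁) →
        (∃ e : ℕ, Module.finrank L₁ (IntermediateField.extendScalars h₂) = l ^ e) →
        ∀ (m : ℕ) (Q : IntermediateField ℚ ℂ), IsLayer p m Q →
          padicValNat p (classNo (L ⊔ Q)) = padicValNat p (classNo (L₁ ⊔ B₀ ⊔ Q))) ∧
      ∀ n : ℕ, n₀ ≤ n → ∀ B : IntermediateField ℚ ℂ, IsLayer l n B →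
        ∀ L : IntermediateField ℚ ℂ, k ≤ L → L ≤ K ⊔ B →
        ∀ (m : ℕ) (Q : IntermediateField ℚ ℂ), IsLayer p m Q →
          padicValNat p (classNo (L ⊔ Q)) = padicValNat p (classNo ((L ⊓ (K ⊔ B₀)) ⊔ Q))

/-- the statement for `k = kk A B` and one prime `p` with good reduction -/
theorem fin_p (hFIN : S_FIN3) (hLAY : Pool.Agent.MUXI.Si_LAY) (hIAF : Pool.Agent.MUXI.Si_IAF)
    (hREX : Sy_REX) (hUNF : S_UNF) (hJTR : Pool.Agent.JT.Sj_JTR) (hDIR : Sj_DIR)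
    (hLAYs : Sj_LAY) (A B : ℤ) (hc : CQ A B) (T : TorX A B) (hNL : NLex A B)
    (hd3 : absD A B ≠ 3) (hd4 : absD A B ≠ 4)
    (n₀ : ℕ) (hn₀ : Good A B n₀) (p : ℕ) (hp : p.Prime)
    (hp5 : 5 ≤ p) (hpD : ¬ (p : ℤ) ∣ absD A B) (hpn : ¬ p ∣ n₀)
    (P₁ P₂ : Ideal (𝓞 (kk A B))) (h1 : P₁.IsPrime) (h2 : P₂.IsPrime) (h12 : P₁ ≠ P₂)
    (hp1 : (p : 𝓞 (kk A B)) ∈ P₁) (hp2 : (p : 𝓞 (kk A B)) ∈ P₂) : StP (kk A B) p := by
  intro K fdK hk hG hab hdeg hram l hl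
  have hpF : Fact p.Prime := ⟨hp⟩
  obtain ⟨P, V, hP, hV, hpV⟩ := t_PVX A B hc p hp P₁ P₂ h1 h2 h12 hp1 hp2
  obtain ⟨V', hV'⟩ := conjV A B hc p hp P hP
  have hp0 : P ≠ ⊥ := by
    rintro rfl
    exact natCast_ne_zero' hc hp.ne_zero (Ideal.mem_bot.1 hP.mem)
  have hpV' : (p : ℂ) ∈ V'.nonunits := by
    have h3 : ((p : ℕ) : OO A B) ∈ cjI P := by
      unfold cjI
      rw [Ideal.mem_comap, map_natCast]
      exact hP.mem
    have h4 := (hV' _).2 h3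
    rwa [emb_natCast hc] at h4
  have hVn : V.valuation (n₀ : ℂ) = 1 := val_unit V p n₀ hp hpV hpn
  have hVn' : V'.valuation (n₀ : ℂ) = 1 := val_unit V' p n₀ hp hpV' hpn
  have hU : TorU A B K := hJTR A B hc T hNL K hk hG hab
  obtain ⟨M, hM0, hM⟩ := hDIR A B hc T K hU
  -- the exponent `h`
  obtain ⟨g, h, hgen⟩ : ∃ g h : ℕ, Pool.Agent.TWR.Gen l g h := by
    rcases hl with rfl | rfl
    · exact ⟨5, 2, Or.inr ⟨rfl, rfl, rfl⟩⟩
    · exact ⟨4, 1, Or.inl ⟨rfl, rfl, rfl⟩⟩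
  have hlp : l.Prime := by
    rcases hl with rfl | rfl
    · exact Nat.prime_two
    · exact Nat.prime_three
  have hlF : Fact l.Prime := ⟨hlp⟩
  have hpl : ¬ p ∣ l ^ h := by
    intro h3
    have h4 := (Nat.prime_dvd_prime_iff_eq hp hlp).1 (hp.dvd_of_dvd_pow h3)
    rcases hl with rfl | rfl <;> omega
  -- a base level
  have hD0 : absD A B ≠ 0 := by
    intro h3
    exact hpD (by rw [h3]; exact dvd_zero _)
  have hDn : (((absD A B).natAbs : ℕ) : ℤ) = |absD A B| := Int.natCast_natAbs _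
  have hSet : SetG p A B P V (2 * (absD A B).natAbs) := by
    refine ⟨hc, hp, hp5, hP, hV, hpD, ?_, ?_, ?_⟩
    · exact mul_ne_zero two_ne_zero (Int.natAbs_ne_zero.2 hD0)
    · intro h3
      rcases (Nat.Prime.dvd_mul hp).1 h3 with h4 | h4
      · have := Nat.le_of_dvd (by norm_num) h4
        omega
      · exact hpD (Int.natCast_dvd.2 h4)
    · rw [Nat.cast_mul, hDn, Nat.cast_two]
      exact mul_dvd_mul_left 2 ((dvd_abs _ _).2 dvd_rfl)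
  obtain ⟨ι, iι, ⟨R⟩⟩ := hREX A B hc hd3 hd4 1 one_ne_zero
  obtain ⟨f, hf0, hfp, hlf, hfD, hKf⟩ := hUNF p A B P V V' _ hSet hV' T 1 ι R
    (hn₀.2 V hVn 1 ι R) (hn₀.2 V' hVn' 1 ι R) K hk hdeg M hM0 hM hram (l ^ h)
    (pow_ne_zero _ hlp.ne_zero) hpl
  have hS : SetG p A B P V f := ⟨hc, hp, hp5, hP, hV, hpD, hf0, hfp, hfD⟩
  obtain ⟨Bn, hlay, hmono, huni⟩ := layers hLAYs l hl
  obtain ⟨n₁, hno, hmain⟩ := core hFIN hLAY hIAF hREX l g h hgen p A B P V f hS hlf T hd3 hd4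
    (fun N₀ ι' R' => hn₀.2 V hVn N₀ ι' R') K hk hG hab hdeg hKf Bn hlay hmono
  refine ⟨n₁, fun B₀ hB₀ => ?_⟩
  obtain rfl := huni n₁ B₀ hB₀
  refine ⟨?_, ?_⟩
  · intro a ha n hn B₁ B₂ hB₁ hB₂ L hkL hL hnL hcyc L₁ hk1 h1L hd1 hd2 m Q hQ
    obtain ⟨e, he⟩ := hd2
    obtain rfl := huni n B₁ hB₁
    obtain rfl := huni (n + 1) B₂ hB₂
    have hfL : ∀ n, FiniteDimensional ℚ ↥(K ⊔ Bn n) := fun n => by
      have : FiniteDimensional ℚ (Bn n) := (LAY_thm l n (Bn n) (hlay n)).1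
      exact IntermediateField.finiteDimensional_sup K (Bn n)
    have hT : Twr l (kk A B) K Bn := ⟨hk, hG, hab, hlay, hmono⟩
    obtain ⟨r, hr, hdr⟩ := dvd_split l a _ ha
    rw [hmain (n + 1) (by omega) L hkL hL m Q hQ,
      cor2 l a r n₁ hr (kk A B) K Bn hT hdr hno (n + 1) (by omega) L hkL hL hcyc hnL L₁ hk1 h1L e
        (dvd_of_eq he) hd1]
  · intro n hn B₁ hB₁ L hkL hL m Q hQ
    obtain rfl := huni n B₁ hB₁
    exact hmain n hn L hkL hL m Q hQ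

lemma kk_one : Complex.I ∈ kk (MUXZ.pA 1) (MUXZ.pB 1) := by
  have h : wC (MUXZ.pA 1) (MUXZ.pB 1) = Complex.I := by
    unfold wC
    rw [MUXZ.absD_p]
    unfold MUXZ.pB
    norm_num
  rw [← h]
  exact IntermediateField.subset_adjoin ℚ _ rfl

lemma kk_three : ∃ z ∈ kk (MUXZ.pA 3) (MUXZ.pB 3), z ^ 2 = -3 := by
  refine ⟨2 * wC (MUXZ.pA 3) (MUXZ.pB 3) - 1, ?_, ?_⟩
  · have h1 : wC (MUXZ.pA 3) (MUXZ.pB 3) ∈ kk (MUXZ.pA 3) (MUXZ.pB 3) :=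
      IntermediateField.subset_adjoin ℚ _ rfl
    have h2 : (2 : ℂ) ∈ kk (MUXZ.pA 3) (MUXZ.pB 3) := by
      exact_mod_cast (kk (MUXZ.pA 3) (MUXZ.pB 3)).algebraMap_mem 2
    have h3 : (1 : ℂ) ∈ kk (MUXZ.pA 3) (MUXZ.pB 3) := one_mem _
    exact sub_mem (mul_mem h2 h1) h3
  · unfold wC
    rw [MUXZ.absD_p]
    unfold MUXZ.pB
    norm_num
    have h3 : ((Real.sqrt 3 : ℝ) : ℂ) ^ 2 = 3 := by
      rw [← Complex.ofReal_pow, Real.sq_sqrt (by norm_num)]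
      norm_num
    ring_nf
    rw [h3, Complex.I_sq]
    norm_num

/-- All imaginary quadratic `k` except `ℚ(i)` and `ℚ(√-3)`, all split primes outside a finite set. -/
theorem final (hFIN : S_FIN3) (hLAY : Pool.Agent.MUXI.Si_LAY) (hIAF : Pool.Agent.MUXI.Si_IAF)
    (hREX : Sy_REX) (hNLE : Sy_NLE) (hUNF : S_UNF) (hTOR : ∀ A B : ℤ, CQ A B → TorX A B)
    (hGRB : Pool.Agent.MUXW.Sy_GRB) (hALU : Pool.Agent.MUXV.Sq_ALU)
    (hJTR : Pool.Agent.JT.Sj_JTR) (hJQF : Pool.Agent.JT.Sj_JQF) (hDIR : Sj_DIR)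
    (hLAYs : Sj_LAY) (k : IntermediateField ℚ ℂ) (h2 : Module.finrank ℚ k = 2)
    (hi : ∃ z ∈ k, (starRingEnd ℂ) z ≠ z) (h4 : ∀ z ∈ k, z ^ 2 ≠ -1)
    (h3 : ∀ z ∈ k, z ^ 2 ≠ -3) :
    ∃ S : Finset ℕ, ∀ p : ℕ, p.Prime → p ∉ S →
      (∃ P₁ P₂ : Ideal (𝓞 k), P₁.IsPrime ∧ P₂.IsPrime ∧ P₁ ≠ P₂ ∧ (p : 𝓞 k) ∈ P₁ ∧
        (p : 𝓞 k) ∈ P₂) → StP k p := by
  obtain ⟨d, hd, rfl, -⟩ := hJQF k h2 hi
  have hd1 : d ≠ 1 := by
    rintro rfl
    exact h4 _ kk_one Complex.I_sq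
  have hd3 : d ≠ 3 := by
    rintro rfl
    obtain ⟨z, hz, hz3⟩ := kk_three
    exact h3 z hz hz3
  have hc : CQ (MUXZ.pA d) (MUXZ.pB d) := MUXZ.cq_p hd
  have T := hTOR _ _ hc
  have hD3 : absD (MUXZ.pA d) (MUXZ.pB d) ≠ 3 := by
    rw [MUXZ.absD_p]
    split_ifs <;> omega
  have hD4 : absD (MUXZ.pA d) (MUXZ.pB d) ≠ 4 := by
    rw [MUXZ.absD_p]
    split_ifs <;> omega
  have hd0 : d ≠ 0 := hd.ne_zero
  have hD0 : absD (MUXZ.pA d) (MUXZ.pB d) ≠ 0 := by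
    rw [MUXZ.absD_p]
    split_ifs <;> omega
  have hNL : NLex (MUXZ.pA d) (MUXZ.pB d) := by
    obtain ⟨L, om, hL⟩ := hNLE _ _ hc hD3 hD4 ⊤ (by
      have h1 := natCast_ne_zero' hc one_ne_zero
      intro h5
      have h6 : ((1 : ℕ) : OO (MUXZ.pA d) (MUXZ.pB d)) ∈
        (⊤ : Ideal (OO (MUXZ.pA d) (MUXZ.pB d))) := Submodule.mem_top
      rw [h5, Ideal.mem_bot] at h6
      exact h1 h6)
    exact ⟨⊤, L, om, hL⟩
  obtain ⟨ι, iι, ⟨R⟩⟩ := hREX _ _ hc hD3 hD4 1 one_ne_zero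
  obtain ⟨n₀, hn₀⟩ := t_GRD _ _ hc T hGRB hALU 1 ι R
  refine ⟨{2, 3} ∪ (absD (MUXZ.pA d) (MUXZ.pB d)).natAbs.primeFactors ∪ n₀.primeFactors,
    fun p hp hpS hex => ?_⟩
  rw [Finset.notMem_union, Finset.notMem_union] at hpS
  obtain ⟨⟨hp23, hpD⟩, hpn⟩ := hpS
  have hp5 : 5 ≤ p := by
    by_contra h5
    have h6 := hp.two_le
    have h7 : p ≠ 4 := by rintro rfl; exact absurd hp (by norm_num)
    apply hp23
    have h8 : p = 2 ∨ p = 3 := by omega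
    rcases h8 with rfl | rfl <;> simp
  have hpD' : ¬ (p : ℤ) ∣ absD (MUXZ.pA d) (MUXZ.pB d) := by
    intro h5
    exact hpD (Nat.mem_primeFactors.2 ⟨hp, Int.natCast_dvd.1 h5, Int.natAbs_ne_zero.2 hD0⟩)
  have hpn' : ¬ p ∣ n₀ := fun h5 => hpn (Nat.mem_primeFactors.2 ⟨hp, h5, hn₀.1⟩)
  obtain ⟨P₁, P₂, e1, e2, e12, ep1, ep2⟩ := hex
  exact fin_p hFIN hLAY hIAF hREX hUNF hJTR hDIR hLAYs _ _ hc T hNL hD3 hD4 n₀ hn₀ p hp hp5
    hpD' hpn' P₁ P₂ e1 e2 e12 ep1 ep2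

end Pool.Agent.TWF
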