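import Pool.Agent.TWF.Defs

/-!
# TWF: statement of module URE
-/

set_option autoImplicit false

open NumberField IsDedekindDomain

namespace Pool.Agent.TWF

open Pool.Agent.RI

/-- URE: the primes of `F` which ramify in `F E Q`, `Q` a layer of the cyclotomic `ℤ_p`-extension, contain one of
finitely many prime numbers (`p` and those which ramify in `E`).

PROOF. `T = {p} ∪ {q : q divides the discriminant of E}` (or of a polynomial which defines `E`). Let `P` not contain a
`q ∈ T`, `q` the prime number in `P`. `E / ℚ` is unramified above `q`, so `F E / F` is unramified above `P` (base change),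
and `F E Q / F E` is unramified outside `p` (`RAM_thm` of `RI`, see `MAINC.ram_aux` in `RI/MAINC.lean`). The
ramification index is multiplicative in towers. -/
def S_URE : Prop :=
  ∀ (p : ℕ) [Fact p.Prime] (E : IntermediateField ℚ ℂ) [FiniteDimensional ℚ E],
    ∃ T : Finset ℕ, (∀ q ∈ T, q.Prime) ∧
      ∀ (F : IntermediateField ℚ ℂ) [FiniteDimensional ℚ F] (m : ℕ)
        (Q : IntermediateField ℚ ℂ), IsLayer p m Q → ∀ (h : F ≤ F ⊔ E ⊔ Q) (P : Ideal (𝓞 F)),
        P.IsPrime → P ≠ ⊥ → Ramifies h P → ∃ q ∈ T, (q : 𝓞 F) ∈ P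

end Pool.Agent.TWF
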