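import Pool.Agent.TWF.END1
import Pool.Agent.TWF.StE
import Pool.Agent.TWF.COR

/-!
# TWF: from the fields `L ≤ K B_(n+b)` to the fields `L E Q_m`, `E / k` a Galois `p`-extension
-/

set_option autoImplicit false

open NumberField IsDedekindDomain Finset
open scoped nonZeroDivisors Pointwise

namespace Pool.Agent.TWF

open Pool.Agent.MU3 Pool.Agent.RI Pool.Agent.RID

/-- an imaginary quadratic field has no real embedding -/
theorem cplx (k : IntermediateField ℚ ℂ) (h2 : Module.finrank ℚ k = 2)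
    (hi : ∃ z ∈ k, (starRingEnd ℂ) z ≠ z) (φ : k →+* ℂ) :
    ¬ ∀ x : k, (starRingEnd ℂ) (φ x) = φ x := by
  intro hφ
  obtain ⟨z, hz, hne⟩ := hi
  have hfd : FiniteDimensional ℚ k := Module.finite_of_finrank_pos (by rw [h2]; norm_num)
  let x : k := ⟨z, hz⟩
  let f := minpoly ℚ x
  have hint : IsIntegral ℚ x := IsIntegral.of_finite ℚ x
  have hf0 : f ≠ 0 := minpoly.ne_zero hint
  have hdeg : f.natDegree ≤ 2 := by
    rw [← h2]
    exact minpoly.natDegree_le x
  have hfx : Polynomial.aeval x f = 0 := minpoly.aeval ℚ x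
  let ψ : k →ₐ[ℚ] ℂ := k.val
  let φ' : k →ₐ[ℚ] ℂ := φ.toRatAlgHom
  let c : ℂ →ₐ[ℚ] ℂ := (starRingEnd ℂ).toRatAlgHom
  have e1 : Polynomial.aeval z f = 0 := by
    have h1 : Polynomial.aeval (ψ x) f = ψ (Polynomial.aeval x f) := Polynomial.aeval_algHom_apply ψ x f
    rw [hfx, map_zero] at h1
    exact h1
  have e2 : Polynomial.aeval ((starRingEnd ℂ) z) f = 0 := by
    have h1 : Polynomial.aeval (c z) f = c (Polynomial.aeval z f) := Polynomial.aeval_algHom_apply c z f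
    rw [e1, map_zero] at h1
    exact h1
  have e3 : Polynomial.aeval (φ x) f = 0 := by
    have h1 : Polynomial.aeval (φ' x) f = φ' (Polynomial.aeval x f) :=
      Polynomial.aeval_algHom_apply φ' x f
    rw [hfx, map_zero] at h1
    exact h1
  have hφz : φ x ≠ z := by
    intro h
    have := hφ x
    rw [h] at this
    exact hne this
  have hφc : φ x ≠ (starRingEnd ℂ) z := by
    intro h
    have h1 := hφ x
    rw [h, Complex.conj_conj] at h1
    exact hne h1.symm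
  have hsub : ({z, (starRingEnd ℂ) z, φ x} : Finset ℂ) ⊆ (f.aroots ℂ).toFinset := by
    intro y hy
    rw [Multiset.mem_toFinset, Polynomial.mem_aroots]
    refine ⟨hf0, ?_⟩
    simp only [Finset.mem_insert, Finset.mem_singleton] at hy
    rcases hy with rfl | rfl | rfl
    · exact e1
    · exact e2
    · exact e3
  have hcard : ({z, (starRingEnd ℂ) z, φ x} : Finset ℂ).card = 3 := by
    rw [Finset.card_insert_of_notMem, Finset.card_insert_of_notMem, Finset.card_singleton]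
    · rw [Finset.mem_singleton]
      exact fun h => hφc h.symm
    · simp only [Finset.mem_insert, Finset.mem_singleton, not_or]
      exact ⟨fun h => hne h.symm, fun h => hφz h.symm⟩
  have h3 := (Finset.card_le_card hsub).trans (Multiset.toFinset_card_le _)
  rw [hcard] at h3
  have h4 : Multiset.card (f.aroots ℂ) ≤ f.natDegree := by
    refine (Polynomial.card_roots' _).trans ?_
    exact Polynomial.natDegree_map_le
  omega

/-- `M / F` is unramified at infinity if `F` contains an imaginary quadratic field -/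
theorem unramInf (k F M : IntermediateField ℚ ℂ) (h2 : Module.finrank ℚ k = 2)
    (hi : ∃ z ∈ k, (starRingEnd ℂ) z ≠ z) (hkF : k ≤ F) (hFM : F ≤ M) : UnramInf hFM := by
  intro φ hφ
  exfalso
  refine cplx k h2 hi (φ.comp (IntermediateField.inclusion (hkF.trans hFM)).toRingHom) fun x => ?_
  exact hφ (IntermediateField.inclusion (hkF.trans hFM) x) (hkF x.2)

theorem stepE (p : ℕ) [Fact p.Prime] (k F L : IntermediateField ℚ ℂ)
    (h2 : Module.finrank ℚ k = 2) (hi : ∃ z ∈ k, (starRingEnd ℂ) z ≠ z)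
    [FiniteDimensional ℚ F] [FiniteDimensional ℚ L] (hkF : k ≤ F) (hFL : F ≤ L)
    (hGF : IsGalois F (IntermediateField.extendScalars hFL))
    (hd : ¬ p ∣ Module.finrank F (IntermediateField.extendScalars hFL))
    (E : IntermediateField ℚ ℂ) [FiniteDimensional ℚ E] (hkE : k ≤ E)
    (hGE : IsGalois k (IntermediateField.extendScalars hkE)) (c : ℕ)
    (hdE : Module.finrank k (IntermediateField.extendScalars hkE) = p ^ c)
    (T : Finset ℕ) (m : ℕ) (Q : IntermediateField ℚ ℂ) (hQ : IsLayer p m Q)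
    (hTU : ∀ (h : F ≤ F ⊔ E ⊔ Q) (P : Ideal (𝓞 F)),
        P.IsPrime → P ≠ ⊥ → Ramifies h P → ∃ q ∈ T, (q : 𝓞 F) ∈ P)
    (hns : ∀ q ∈ T, Nonsplit q hFL)
    (hcl : padicValNat p (classNo L) = padicValNat p (classNo F)) :
    padicValNat p (classNo (L ⊔ E ⊔ Q)) = padicValNat p (classNo (F ⊔ E ⊔ Q)) := by
  obtain ⟨fdQ, hGQ, -⟩ := LAY_thm p m Q hQ
  obtain ⟨g1, g2⟩ := bot_data hGQ
  have hFM : F ≤ F ⊔ E ⊔ Q := le_sup_left.trans le_sup_left
  have hFE : F ≤ F ⊔ E := le_sup_left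
  have hFQ : F ≤ F ⊔ Q := le_sup_left
  have fdFE : FiniteDimensional ℚ ↥(F ⊔ E) := IntermediateField.finiteDimensional_sup F E
  have fdFQ : FiniteDimensional ℚ ↥(F ⊔ Q) := IntermediateField.finiteDimensional_sup F Q
  have fdM : FiniteDimensional ℚ ↥(F ⊔ E ⊔ Q) := IntermediateField.finiteDimensional_sup (F ⊔ E) Q
  obtain ⟨a1, a2⟩ := BCH_thm.1 k E F F (F ⊔ E) hkE hFE (sup_eq_right.2 hkF).symm (sup_comm _ _) hGE
  obtain ⟨b1, b2⟩ := BCH_thm.1 ⊥ Q F F (F ⊔ Q) bot_le hFQ (bot_sup_eq _).symm (sup_comm _ _) g1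
  have hEQ : (F ⊔ E) ⊔ (F ⊔ Q) = F ⊔ E ⊔ Q := by
    rw [← sup_assoc]
    congr 1
    exact sup_eq_left.2 le_sup_left
  have gM : IsGalois F (IntermediateField.extendScalars hFM) := by
    have h' : F ≤ (F ⊔ E) ⊔ (F ⊔ Q) := le_sup_left.trans le_sup_left
    have h1 := BCH_thm.2 F (F ⊔ E) (F ⊔ Q) hFE hFQ h' a1 b1
    revert h' h1
    rw [hEQ]
    exact fun h' h1 => h1
  -- the degree
  have hFEM : F ⊔ E ≤ F ⊔ E ⊔ Q := le_sup_left
  obtain ⟨c1, c2⟩ := BCH_thm.1 ⊥ Q (F ⊔ E) (F ⊔ E) (F ⊔ E ⊔ Q) bot_le hFEM (bot_sup_eq _).symm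
    (sup_comm _ _) g1
  rw [g2, hQ.1] at c2
  rw [hdE] at a2
  have hdM : Module.finrank F (IntermediateField.extendScalars hFM) ∣ p ^ (c + m) := by
    have hpos : 0 < Module.finrank ℚ F := Module.finrank_pos
    have e1 := deg_mul hFE
    have e2 := deg_mul hFEM
    have e3 := deg_mul hFM
    have e4 : Module.finrank F (IntermediateField.extendScalars hFM) =
        Module.finrank F (IntermediateField.extendScalars hFE) *
          Module.finrank ↥(F ⊔ E) (IntermediateField.extendScalars hFEM) := by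
      apply Nat.eq_of_mul_eq_mul_left hpos
      rw [e3, ← e2, ← e1, mul_assoc]
    rw [e4, pow_add]
    exact Nat.mul_dvd_mul a2 c2
  obtain ⟨a, -, ha⟩ := (Nat.dvd_prime_pow (Fact.out : p.Prime)).1 hdM
  have hres := finalA p a F L (F ⊔ E ⊔ Q) hFL hFM hGF hd gM ha (unramInf k F _ h2 hi hkF hFM) ?_ hcl
  · rw [← hres]
    congr 2
    rw [← sup_assoc, ← sup_assoc, sup_eq_left.2 hFL]
  intro P P' hP hP' hPP hR
  by_cases hP0 : P = ⊥
  · subst hP0
    let i1 : Algebra F L := algC hFL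
    have h0 : (⊥ : Ideal (𝓞 L)).under (𝓞 F) = ⊥ := Ideal.under_bot _ _
    have h1 : P'.under (𝓞 F) = ⊥ := by
      rw [← h0]
      exact hPP.symm
    exact (Ideal.eq_bot_of_comap_eq_bot h1).symm
  · have hPF : P.comap (RingOfIntegers.mapRingHom
        (IntermediateField.inclusion hFL : F →+* L)) ≠ ⊥ := by
      intro h0
      let i1 : Algebra F L := algC hFL
      have h1 : P.under (𝓞 F) = ⊥ := h0
      exact hP0 (Ideal.eq_bot_of_comap_eq_bot h1)
    obtain ⟨q, hq, hqP⟩ := hTU hFM _ (Ideal.comap_isPrime _ _) hPF hR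
    have hqP1 : (q : 𝓞 L) ∈ P := by
      rw [Ideal.mem_comap, map_natCast] at hqP
      exact hqP
    have hqP2 : (q : 𝓞 L) ∈ P' := by
      rw [hPP, Ideal.mem_comap, map_natCast] at hqP
      exact hqP
    exact hns q hq P P' hP hP' hqP1 hqP2 hPP

theorem endE (hURE : S_URE) (p l : ℕ) [Fact p.Prime] [Fact l.Prime] (hpl : p ≠ l)
    (k K : IntermediateField ℚ ℂ) (h2 : Module.finrank ℚ k = 2)
    (hi : ∃ z ∈ k, (starRingEnd ℂ) z ≠ z) (B : ℕ → IntermediateField ℚ ℂ)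
    [FiniteDimensional ℚ K] [∀ n, FiniteDimensional ℚ ↥(K ⊔ B n)] (hB : Twr l k K B)
    (E : IntermediateField ℚ ℂ) [FiniteDimensional ℚ E] (hkE : k ≤ E)
    (hGE : IsGalois k (IntermediateField.extendScalars hkE)) (c : ℕ)
    (hdE : Module.finrank k (IntermediateField.extendScalars hkE) = p ^ c) :
    ∃ n₂, ∀ n, n₂ ≤ n → ∀ (b : ℕ) (L : IntermediateField ℚ ℂ), k ≤ L → L ≤ K ⊔ B (n + b) →
      padicValNat p (classNo L) = padicValNat p (classNo (L ⊓ (K ⊔ B n))) →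
      ∀ (m : ℕ) (Q : IntermediateField ℚ ℂ), IsLayer p m Q →
        padicValNat p (classNo (L ⊔ E ⊔ Q)) =
          padicValNat p (classNo ((L ⊓ (K ⊔ B n)) ⊔ E ⊔ Q)) := by
  obtain ⟨T, hT, hTU⟩ := hURE p E
  have hN : ∀ q : ℕ, ∃ n₀, q ∈ T → ∀ n m, n₀ ≤ n → n ≤ m → ∀ h : K ⊔ B n ≤ K ⊔ B m,
      Nonsplit q h := by
    intro q
    by_cases hq : q ∈ T
    · obtain ⟨n₀, hn₀⟩ := nonsplit_large l q K B (hT q hq) hB.lay hB.mono
      exact ⟨n₀, fun _ => hn₀⟩
    · exact ⟨0, fun h => absurd h hq⟩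
  choose N hN using hN
  refine ⟨T.sup N, fun n hn b L hkL hL hcl m Q hQ => ?_⟩
  have hle : K ⊔ B n ≤ K ⊔ B (n + b) := sup_le_sup_left (hB.mono (Nat.le_add_right n b)) K
  have hFL : L ⊓ (K ⊔ B n) ≤ L := inf_le_left
  have hFA : L ⊓ (K ⊔ B n) ≤ K ⊔ B n := inf_le_right
  have hkF : k ≤ L ⊓ (K ⊔ B n) := le_inf hkL (hB.hk.trans le_sup_left)
  have hkC : k ≤ K ⊔ B (n + b) := hB.hk.trans le_sup_left
  have fdL : FiniteDimensional ℚ L := FiniteDimensional.of_injective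
    (IntermediateField.inclusion hL).toLinearMap
    (IntermediateField.inclusion hL).toRingHom.injective
  have fdF : FiniteDimensional ℚ ↥(L ⊓ (K ⊔ B n)) := FiniteDimensional.of_injective
    (IntermediateField.inclusion hFL).toLinearMap
    (IntermediateField.inclusion hFL).toRingHom.injective
  -- `C / k` is abelian, so `L / k` is Galois
  have hgal : IsGalois k (IntermediateField.extendScalars hkC) ∧
      ∀ σ τ : (IntermediateField.extendScalars hkC) ≃ₐ[k] (IntermediateField.extendScalars hkC),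
        σ * τ = τ * σ := by
    obtain ⟨g1, g2⟩ := gal_ab l k K B hB (n + b) hkC
    let _ : Algebra k ↥(K ⊔ B (n + b)) := algC hkC
    refine ⟨(isGalois_algC hkC).1 g1, fun σ τ => ?_⟩
    have h1 := g2 ((extEquiv hkC).autCongr σ) ((extEquiv hkC).autCongr τ)
    rw [← map_mul, ← map_mul] at h1
    exact (extEquiv hkC).autCongr.injective h1
  have abC : IsAbelianGalois k (IntermediateField.extendScalars hkC) :=
    { toIsGalois := hgal.1
      is_comm := ⟨fun σ τ => hgal.2 σ τ⟩ }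
  have hleL : IntermediateField.extendScalars hkL ≤ IntermediateField.extendScalars hkC :=
    fun x hx => hL hx
  have abL : IsAbelianGalois k (IntermediateField.extendScalars hkL) :=
    IsAbelianGalois.of_algHom (IntermediateField.inclusion hleL)
  -- the algebras
  let i1 : Algebra ↥(L ⊓ (K ⊔ B n)) L := algC hFL
  let i2 : Algebra ↥(L ⊓ (K ⊔ B n)) ↥(K ⊔ B n) := algC hFA
  let i3 : Algebra ↥(K ⊔ B n) ↥(K ⊔ B (n + b)) := algC hle
  let i4 : Algebra L ↥(K ⊔ B (n + b)) := algC hL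
  let i5 : Algebra ↥(L ⊓ (K ⊔ B n)) ↥(K ⊔ B (n + b)) := algC (hFL.trans hL)
  let i6 : Algebra k L := algC hkL
  let i7 : Algebra k ↥(L ⊓ (K ⊔ B n)) := algC hkF
  let i8 : Algebra k ↥(K ⊔ B n) := algC (hB.hk.trans le_sup_left)
  let i9 : Algebra k ↥(K ⊔ B (n + b)) := algC hkC
  have t1 : IsScalarTower ↥(L ⊓ (K ⊔ B n)) L ↥(K ⊔ B (n + b)) := towerC hFL hL
  have t2 : IsScalarTower ↥(L ⊓ (K ⊔ B n)) ↥(K ⊔ B n) ↥(K ⊔ B (n + b)) := towerC hFA hle
  have t3 : IsScalarTower k ↥(L ⊓ (K ⊔ B n)) L := towerC hkF hFL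
  have t4 : IsScalarTower k ↥(K ⊔ B n) ↥(K ⊔ B (n + b)) :=
    towerC (hB.hk.trans le_sup_left) hle
  have gL : IsGalois k L := (isGalois_algC hkL).2 abL.toIsGalois
  have gC : IsGalois k ↥(K ⊔ B (n + b)) := (isGalois_algC hkC).2 hgal.1
  have gLF : IsGalois ↥(L ⊓ (K ⊔ B n)) L := IsGalois.tower_top_of_isGalois k _ _
  have gCA : IsGalois ↥(K ⊔ B n) ↥(K ⊔ B (n + b)) := IsGalois.tower_top_of_isGalois k _ _
  have hint : ∀ x : L, ∀ a : ↥(K ⊔ B n), algebraMap L ↥(K ⊔ B (n + b)) x =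
      algebraMap ↥(K ⊔ B n) ↥(K ⊔ B (n + b)) a →
      ∃ y : ↥(L ⊓ (K ⊔ B n)), algebraMap ↥(L ⊓ (K ⊔ B n)) L y = x := by
    intro x a hxa
    have h1 : (x : ℂ) = (a : ℂ) := congrArg Subtype.val hxa
    exact ⟨⟨(x : ℂ), x.2, h1 ▸ a.2⟩, rfl⟩
  -- the degree
  have hd : ¬ p ∣ Module.finrank ↥(L ⊓ (K ⊔ B n)) (IntermediateField.extendScalars hFL) := by
    intro hp
    have h1 : Module.finrank ↥(K ⊔ B n) (IntermediateField.extendScalars hle) ∣ l ^ (n + b) :=
      deg_dvd l K B hB.lay hB.mono n (n + b) (Nat.le_add_right n b) hle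
    have fLF : FiniteDimensional ↥(L ⊓ (K ⊔ B n)) L :=
      Module.Finite.of_restrictScalars_finite ℚ ↥(L ⊓ (K ⊔ B n)) L
    have fCA : FiniteDimensional ↥(K ⊔ B n) ↥(K ⊔ B (n + b)) :=
      Module.Finite.of_restrictScalars_finite ℚ ↥(K ⊔ B n) ↥(K ⊔ B (n + b))
    have h2 : Nat.card (L ≃ₐ[↥(L ⊓ (K ⊔ B n))] L) ∣
        Nat.card (↥(K ⊔ B (n + b)) ≃ₐ[↥(K ⊔ B n)] ↥(K ⊔ B (n + b))) :=
      Subgroup.card_dvd_of_surjective _ (res_surj (F := ↥(L ⊓ (K ⊔ B n))) (K := L)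
        (A := ↥(K ⊔ B n)) (C := ↥(K ⊔ B (n + b))) hint)
    rw [IsGalois.card_aut_eq_finrank, IsGalois.card_aut_eq_finrank] at h2
    have h3 := finrank_algC hFL
    have h4 := finrank_algC hle
    have h5 : p ∣ l ^ (n + b) := by
      refine (hp.trans ?_).trans h1
      rw [← h3, ← h4]
      exact h2
    exact hpl ((Nat.prime_dvd_prime_iff_eq Fact.out Fact.out).1 (Nat.Prime.dvd_of_dvd_pow Fact.out h5))
  -- the primes which ramify
  have hns : ∀ q ∈ T, Nonsplit q hFL := by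
    intro q hq
    have h1 := hN q hq n (n + b) ((Finset.le_sup hq).trans hn) (Nat.le_add_right n b) hle
    exact nonsplit_desc (F := ↥(L ⊓ (K ⊔ B n))) (K := L) (A := ↥(K ⊔ B n))
      (C := ↥(K ⊔ B (n + b))) q hint h1
  have hGF : IsGalois ↥(L ⊓ (K ⊔ B n)) (IntermediateField.extendScalars hFL) :=
    (isGalois_algC hFL).1 gLF
  exact stepE p k (L ⊓ (K ⊔ B n)) L h2 hi hkF hFL hGF hd E hkE hGE c hdE T m Q hQ
    (fun h P => hTU (L ⊓ (K ⊔ B n)) m Q hQ h P) hns hcl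

end Pool.Agent.TWF
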