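import Pool.Agent.TWF.UNF2
import Pool.Agent.TWT.RAMG
import Pool.Agent.MUX.W_ACM
import Pool.Agent.MUX.W_KER

/-!
# TWF, module UNF: a field unramified above `p`, of degree prime to `p` over `k`, has a level prime to `p` (helper56)

`S_UNF` (`UNF0.lean`). Let `F = RF (idl (f p)) ≥ K`. The inertia group of `F / k` at `V` (above `P`) has order divisible by
`p - 1` and is contained in the group `{σ : σ = (c), c ≡ 1 modulo f cjI P}`, which has at most `p - 1` elements; so they are equal,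
and this group is trivial on `K`, which is unramified at `V`. The same for `V'` and `cjI P`. The two groups generate
`Gal(F / RF (idl f))`.
-/

set_option autoImplicit false

open WeierstrassCurve Polynomial NumberField IsDedekindDomain

namespace Pool.Agent.TWF

open _root_.MU3 Pool.Agent.MU3A Pool.Agent.MU3B Pool.Agent.MU3C Pool.Agent.RI Pool.Agent.RID
open Pool.Agent.MUX Pool.Agent.MUXU Pool.Agent.MUXW Pool.Agent.TWT
open Pool.Agent.MU3V (cls Sub GD algDF)
open Pool.Agent.MUXV (GR InK tX)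
open OnePoint

noncomputable section

namespace UNF

variable {p : ℕ} {A B : ℤ} {P : Ideal (OO A B)} {V : ValuationSubring ℂ} {f n : ℕ} {ι : Type}

theorem idl_mul (a b : ℕ) : idl (A := A) (B := B) a * idl b = idl (a * b) := by
  unfold idl
  rw [Ideal.span_singleton_mul_span_singleton, ← Nat.cast_mul]

/-- the automorphisms which act trivially on `E[f cjI P]` are in the inertia group at `V` -/
theorem inert (h : SetG p A B P V f) (T : TorX A B) (R : Reps A B n ι) (hR : GRd V R)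
    (σ : (RF (idl (f * p)) : IntermediateField (kk A B) ℂ) ≃ₐ[kk A B] RF (idl (f * p)))
    (c : OO A B) (hc : ActH σ ((f * p : ℕ) : OO A B) c) (hc1 : c - 1 ∈ idl f * cjI P) :
    σ ∈ IGV V (RF (idl (f * p))) := by
  have hC := h.cq
  have hp := h.pp
  have hm0 : ((f * p : ℕ) : OO A B) ≠ 0 :=
    Pool.Agent.MUX.natCast_ne_zero' hC (mul_ne_zero h.f0 hp.ne_zero)
  have hmI : idl (A := A) (B := B) (f * p) ≠ ⊥ := Pool.Agent.MUXJ.LEV.idl_ne
    (mul_ne_zero h.f0 hp.ne_zero)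
  have hL0 : IsNL (⊤ : Ideal (OO A B)) (R.L R.i0) (R.om R.i0) := by
    have h1 := R.nl R.i0
    rwa [R.b0] at h1
  obtain ⟨i1, i2, i3, i4, i5, -, -⟩ := t_IDP p A B P V f h
  have hfin := T.fin _ hmI
  have hgal := T.gal _ hmI
  obtain ⟨a1, a2, a3, a4, a5, a6, a7, a8⟩ := ty_ACM Pool.Agent.MUXV.q_EMB A B hC _ _ hL0 _ hm0
  obtain ⟨k1, k2⟩ := ty_KER Pool.Agent.MUXV.q_EMB A B hC T _ hm0
  -- the group
  set HP : Set ((RF (idl (f * p)) : IntermediateField (kk A B) ℂ) ≃ₐ[kk A B] RF (idl (f * p))) :=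
    {τ | ∃ d : OO A B, ActH τ ((f * p : ℕ) : OO A B) d ∧ d - 1 ∈ idl f * cjI P} with hHP
  have hsub : IGV V (RF (idl (f * p))) ⊆ HP := by
    intro τ hτ
    obtain ⟨d, hd⟩ := k1 τ (trH h T R hR hmI τ hτ)
    rcases act_cong h R hR _ le_rfl τ hτ d hd with h1 | h1
    · exact ⟨d, hd, h1⟩
    · refine ⟨-d, a2 _ τ d (-d) (Or.inr (by rw [add_neg_cancel]; exact dvd_zero _)) hd, ?_⟩
      have h2 : -d - 1 = -(d + 1) := by ring
      rw [h2]
      exact (Ideal.neg_mem_iff _).2 h1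
  have hHPfin : HP.Finite := Set.toFinite _
  -- at most `p - 1` elements
  have hcard : HP.ncard ≤ p - 1 := by
    have hch : ∀ τ : HP, ∃ (d : OO A B) (j : ℕ), ActH τ.1 ((f * p : ℕ) : OO A B) d ∧
        d - 1 ∈ idl f * cjI P ∧ j ∈ Finset.Icc 1 (p - 1) ∧ d - (j : OO A B) ∈ P := by
      rintro ⟨τ, d, hd, hd1⟩
      obtain ⟨j, hj, hjP⟩ := i1 d
      refine ⟨d, j, hd, hd1, ?_, hjP⟩
      rw [Finset.mem_Icc]
      have hj0 : j ≠ 0 := by
        rintro rfl
        rw [Nat.cast_zero, sub_zero] at hjP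
        have h1 := hd.cop
        obtain ⟨u, v, huv⟩ := h1
        apply h.hP.prime.ne_top
        rw [Ideal.eq_top_iff_one, ← huv]
        refine P.add_mem (P.mul_mem_left _ hjP) (P.mul_mem_left _ ?_)
        rw [Nat.cast_mul]
        exact P.mul_mem_left _ h.hP.mem
      omega
    choose d j hd hd1 hj hjP using hch
    rw [← Nat.card_coe_set_eq]
    have hinj : Function.Injective (fun τ : HP => (⟨j τ, hj τ⟩ : Finset.Icc 1 (p - 1))) := by
      intro τ τ' hττ
      have h1 : j τ = j τ' := congrArg Subtype.val hττ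
      have h2 : d τ - d τ' ∈ P := by
        have h3 : d τ - d τ' = (d τ - (j τ : OO A B)) - (d τ' - (j τ' : OO A B)) := by
          rw [h1]
          ring
        rw [h3]
        exact P.sub_mem (hjP τ) (hjP τ')
      have h3 : d τ - d τ' ∈ idl f * cjI P := by
        have h4 : d τ - d τ' = (d τ - 1) - (d τ' - 1) := by ring
        rw [h4]
        exact Ideal.sub_mem _ (hd1 τ) (hd1 τ')
      have h4 : IsCoprime (idl (A := A) (B := B) f * cjI P) P :=
        IsCoprime.mul_left (i5 f h.fp).1 i4.symm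
      have h5 : d τ - d τ' ∈ idl (A := A) (B := B) (f * p) := by
        have h6 : idl (A := A) (B := B) f * cjI P * P = idl (f * p) := by
          rw [mul_assoc, mul_comm (cjI P) P, i3, idl_mul]
        rw [← h6, Ideal.mul_eq_inf_of_coprime (Ideal.isCoprime_iff_sup_eq.1 h4)]
        exact ⟨h3, h2⟩
      have h6 : ActH τ'.1 ((f * p : ℕ) : OO A B) (d τ) :=
        a2 _ _ (d τ') (d τ) (Or.inl (by
          have h7 := Ideal.mem_span_singleton.1 h5
          rw [← neg_sub]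
          exact (dvd_neg).2 h7)) (hd τ')
      exact Subtype.ext (a5 _ _ _ (hd τ) h6)
    have h8 : Nat.card (Finset.Icc 1 (p - 1)) = p - 1 := by
      rw [Nat.card_eq_fintype_card, Fintype.card_coe, Nat.card_Icc, Nat.add_sub_cancel]
    exact (Nat.card_le_card_of_injective _ hinj).trans h8.le
  -- roots of unity
  have hdvd : (p - 1) ∣ Nat.card (IGV V (RF (idl (A := A) (B := B) (f * p)))) := by
    refine unf_dvd hC hp h.hP.mem h.hV (RAMG.not_sq hp h.p5 h.pD h.hP.norm) _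
      ⟨_, ?_, Complex.isPrimitiveRoot_exp p hp.ne_zero⟩
    obtain ⟨a, -, ha⟩ := T.act (idl (f * p)) hmI (RingEquiv.refl ℂ) rfl
    obtain ⟨b', L', om', mu, -, hact⟩ := ha _ _ _ hL0
    refine (T.zeta p (idl (f * p)) a (RingEquiv.refl ℂ) ⊤ _ L' _ mu hmI rfl hp.ne_zero
      (Pool.Agent.MUXJ.LEV.idl_le (Dvd.intro_left _ rfl)) hL0 hact _ ?_).1
    exact (Complex.isPrimitiveRoot_exp p hp.ne_zero).pow_eq_one
  have h1mem : (1 : (RF (idl (f * p)) : IntermediateField (kk A B) ℂ) ≃ₐ[kk A B]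
      RF (idl (f * p))) ∈ IGV V (RF (idl (f * p))) := by
    intro x _
    simp
  have hpos : 0 < (IGV V (RF (idl (A := A) (B := B) (f * p)))).ncard :=
    (Set.ncard_pos (Set.toFinite _)).2 ⟨1, h1mem⟩
  rw [Nat.card_coe_set_eq] at hdvd
  have hle := Nat.le_of_dvd hpos hdvd
  have heq := Set.eq_of_subset_of_ncard_le hsub (hcard.trans hle) hHPfin
  rw [heq]
  exact ⟨c, hc, hc1⟩

/-- the inertia group is trivial on `K` -/
theorem fixes (h : SetG p A B P V f) (T : TorX A B)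
    (K : IntermediateField ℚ ℂ) [FiniteDimensional ℚ K] (hk : kk A B ≤ K)
    {m : Ideal (OO A B)} (hm : m ≠ ⊥)
    (hK : ∀ x ∈ K, x ∈ (RF m : IntermediateField (kk A B) ℂ))
    (hun : ∀ Q : Ideal (𝓞 K), Q.IsPrime → (p : 𝓞 K) ∈ Q → (p : 𝓞 K) ∉ Q ^ 2)
    (σ : RF m ≃ₐ[kk A B] RF m) (hσ : σ ∈ IGV V (RF m)) (x : RF m) (hx : (x : ℂ) ∈ K) :
    σ x = x := by
  have hC := h.cq
  have hp := h.pp
  obtain ⟨hgal, hfin, -⟩ := Pool.Agent.MUXJ.t_GAL A B T m hm K hk hK
  set K' : IntermediateField (kk A B) ℂ := IntermediateField.extendScalars hk with hK'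
  have hle : K' ≤ RF m := fun y hy => hK y hy
  -- the ramification hypothesis for `K'`
  let e0 : K ≃+* K' :=
    { toFun := fun y => ⟨y.1, y.2⟩
      invFun := fun y => ⟨y.1, y.2⟩
      left_inv := fun _ => rfl
      right_inv := fun _ => rfl
      map_mul' := fun _ _ => rfl
      map_add' := fun _ _ => rfl }
  let e : 𝓞 K' ≃+* 𝓞 K := RingOfIntegers.mapRingEquiv e0.symm
  have hun' : ∀ Q : Ideal (𝓞 K'), Q.IsPrime → (p : 𝓞 K') ∈ Q → (p : 𝓞 K') ∉ Q ^ 2 := by
    intro Q hQ hpQ hpQ2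
    have hQ' : (Q.map e).IsPrime := Ideal.map_isPrime_of_equiv e
    refine hun (Q.map e) hQ' ?_ ?_
    · have h1 := Ideal.mem_map_of_mem e hpQ
      rwa [map_natCast] at h1
    · have h1 := Ideal.mem_map_of_mem e hpQ2
      rwa [map_natCast, Ideal.map_pow] at h1
  let _ : Algebra K' (RF m) := (IntermediateField.inclusion hle).toRingHom.toAlgebra
  have _ : IsScalarTower (kk A B) K' (RF m) := IsScalarTower.of_algebraMap_eq fun y => rfl
  let σ' : K' ≃ₐ[kk A B] K' := σ.restrictNormal K'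
  have hσ' : ∀ y : K', ((σ' y : K') : ℂ) = ((σ ⟨y.1, hle y.2⟩ : RF m) : ℂ) := by
    intro y
    have h1 := σ.restrictNormal_commutes K' y
    exact congrArg Subtype.val h1
  have h1 : σ' = 1 := by
    refine unf_one hC hp h.hP.mem h.hV (RAMG.not_sq hp h.p5 h.pD h.hP.norm) K' hun' σ' ?_
    intro y hy
    rw [hσ']
    exact hσ ⟨y.1, hle y.2⟩ hy
  have h2 := hσ' ⟨x.1, hx⟩
  rw [h1] at h2
  exact Subtype.ext h2.symm

end UNF

open UNF in
/-- a field unramified above `p`, of degree prime to `p` over `k`, has a level prime to `p` -/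
theorem t_UNF : S_UNF := by
  intro p A B P V V' f₀ hS₀ hV' T n ι _ R hR hR' K _ hk hKp M hM0 hM hun N hN0 hNp
  have hC := hS₀.cq
  have hp := hS₀.pp
  have hp2 : p ≠ 2 := by have := hS₀.p5; omega
  obtain ⟨f, hf0, hfp, hNf, hDf, hKf⟩ := unf_lev hp hp2 hC.neg hS₀.pD T
    ⟨_, _, _, R.nl R.i0⟩ K hk hKp M hM0 hM N hN0 hNp
  refine ⟨f, hf0, hfp, hNf, hDf, ?_⟩
  have hP0 : P ≠ ⊥ := PIS.P_ne hS₀
  have hS : SetG p A B P V f := ⟨hC, hp, hS₀.p5, hS₀.hP, hS₀.hV, hS₀.pD, hf0, hfp, hDf⟩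
  have hPc : IsPN p (cjI P) := by
    refine ⟨?_, ?_, ?_⟩
    · have := hS₀.hP.prime
      exact Ideal.comap_isPrime _ _
    · show starRingEnd (OO A B) ((p : ℕ) : OO A B) ∈ P
      rw [map_natCast]
      exact hS₀.hP.mem
    · rw [Pool.Agent.MUX.nI_cjI hC hP0]
      exact hS₀.hP.norm
  have hS' : SetG p A B (cjI P) V' f := ⟨hC, hp, hS₀.p5, hPc, hV', hS₀.pD, hf0, hfp, hDf⟩
  have hm0 : ((f * p : ℕ) : OO A B) ≠ 0 :=
    Pool.Agent.MUX.natCast_ne_zero' hC (mul_ne_zero hf0 hp.ne_zero)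
  have hmI : idl (A := A) (B := B) (f * p) ≠ ⊥ := Pool.Agent.MUXJ.LEV.idl_ne
    (mul_ne_zero hf0 hp.ne_zero)
  have hfO : ((f : ℕ) : OO A B) ≠ 0 := Pool.Agent.MUX.natCast_ne_zero' hC hf0
  have hL0 : IsNL (⊤ : Ideal (OO A B)) (R.L R.i0) (R.om R.i0) := by
    have h1 := R.nl R.i0
    rwa [R.b0] at h1
  obtain ⟨i1, i2, i3, i4, i5, -, -⟩ := t_IDP p A B P V f hS
  have hfin := T.fin _ hmI
  have hgal := T.gal _ hmI
  obtain ⟨a1, a2, a3, a4, a5, a6, a7, a8⟩ := ty_ACM Pool.Agent.MUXV.q_EMB A B hC _ _ hL0 _ hm0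
  obtain ⟨b1, -, -, -, -, b6, -, -⟩ := ty_ACM Pool.Agent.MUXV.q_EMB A B hC _ _ hL0 _ hfO
  obtain ⟨k1, k2⟩ := ty_KER Pool.Agent.MUXV.q_EMB A B hC T _ hm0
  have h01 : idl (A := A) (B := B) (f * p) ≤ idl f :=
    Pool.Agent.MUXJ.LEV.idl_le (Dvd.intro _ rfl)
  have h01' : (RF (idl f) : IntermediateField (kk A B) ℂ) ≤ RF (idl (f * p)) := T.mono _ _ h01
  -- the automorphisms which are trivial on `RF (idl f)`
  have key : ∀ σ : (RF (idl (f * p)) : IntermediateField (kk A B) ℂ) ≃ₐ[kk A B] RF (idl (f * p)),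
      (∀ y : (RF (idl (f * p)) : IntermediateField (kk A B) ℂ),
        (y : ℂ) ∈ (RF (idl f) : IntermediateField (kk A B) ℂ) → σ y = y) →
      ∀ x : (RF (idl (f * p)) : IntermediateField (kk A B) ℂ), (x : ℂ) ∈ K → σ x = x := by
    intro σ hσ x hx
    have hH : TrH σ := by
      intro y hy
      exact hσ y (T.mono _ _ le_top hy)
    have hex : ∃ c : OO A B, ActH σ ((f * p : ℕ) : OO A B) c ∧ ((f : ℕ) : OO A B) ∣ c - 1 := by
      obtain ⟨c, hc⟩ := k1 σ hH
      have h1 : ActH (1 : (RF (idl f) : IntermediateField (kk A B) ℂ) ≃ₐ[kk A B] RF (idl f))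
          ((f : ℕ) : OO A B) c := by
        refine a8 _ σ 1 c (Nat.cast_dvd_cast (Dvd.intro _ rfl)) ?_ hc
        intro y hy
        rw [hσ ⟨y, hy⟩ y.2]
        rfl
      rcases b1 _ _ c 1 le_rfl h1 (b6 _) with h2 | h2
      · exact ⟨c, hc, h2⟩
      · refine ⟨-c, a2 _ σ c (-c) (Or.inr (by rw [add_neg_cancel]; exact dvd_zero _)) hc, ?_⟩
        have h3 : -c - 1 = -(c + 1) := by ring
        rw [h3]
        exact (dvd_neg).2 h2
    obtain ⟨c, hc, t, ht⟩ := hex
    obtain ⟨i, hi, j, hj, hij⟩ := Ideal.isCoprime_iff_exists.1 i4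
    have hijP : i * j ∈ idl (A := A) (B := B) p := by
      rw [← i3]
      exact Ideal.mul_mem_mul hi hj
    obtain ⟨u, hu⟩ := Ideal.mem_span_singleton.1 hijP
    set c1 : OO A B := 1 + (c - 1) * j with hc1
    set c2 : OO A B := 1 + (c - 1) * i with hc2
    have hprod : c1 * c2 = c + ((f * p : ℕ) : OO A B) * (t * u * (c - 1)) := by
      rw [hc1, hc2, Nat.cast_mul]
      linear_combination (c - 1) * hij + (c - 1) ^ 2 * hu + ((p : ℕ) : OO A B) * u * (c - 1) * ht
    have hcop : IsCoprime (c1 * c2) ((f * p : ℕ) : OO A B) := by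
      rw [hprod]
      exact IsCoprime.add_mul_left_left hc.cop _
    obtain ⟨σ1, hσ1⟩ := k2 c1 hcop.of_mul_left_left
    obtain ⟨σ2, hσ2⟩ := k2 c2 hcop.of_mul_left_right
    have h12 : σ = σ1 * σ2 := by
      refine a5 _ _ c hc (a2 _ _ (c1 * c2) c (Or.inl ?_) (a4 _ _ _ _ _ le_rfl hσ1 hσ2))
      rw [hprod, add_sub_cancel_left]
      exact Dvd.intro _ rfl
    have hcf : c - 1 ∈ idl (A := A) (B := B) f := Ideal.mem_span_singleton.2 ⟨t, ht⟩
    have hI1 := inert hS T R hR σ1 c1 hσ1 (by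
      rw [hc1, add_sub_cancel_left]
      exact Ideal.mul_mem_mul hcf hj)
    have hI2 := inert hS' T R hR' σ2 c2 hσ2 (by
      rw [hc2, add_sub_cancel_left, Pool.Agent.MUX.cjI_cjI hC hP0]
      exact Ideal.mul_mem_mul hcf hi)
    rw [h12, AlgEquiv.mul_apply, fixes hS' T K hk hmI hKf hun σ2 hI2 x hx,
      fixes hS T K hk hmI hKf hun σ1 hI1 x hx]
  let F0 : IntermediateField (kk A B) (RF (idl (A := A) (B := B) (f * p))) :=
    IntermediateField.restrict h01'
  intro x hx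
  have h1 : (⟨x, hKf x hx⟩ : (RF (idl (A := A) (B := B) (f * p)) :
      IntermediateField (kk A B) ℂ)) ∈ F0 := by
    rw [← IsGalois.fixedField_fixingSubgroup F0, IntermediateField.mem_fixedField_iff]
    intro σ hσ
    refine key σ (fun y hy => ?_) _ hx
    rw [IntermediateField.mem_fixingSubgroup_iff] at hσ
    exact hσ y ((IntermediateField.mem_restrict h01' _).2 hy)
  exact (IntermediateField.mem_restrict h01' _).1 h1

end

end Pool.Agent.TWF
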