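import Pool.Agent.TWF.Asm
import Pool.Agent.TWF.UNF
import Pool.Agent.TWT.BAll
import Pool.Agent.TWT.AAll

/-!
# TWF: Theorem C for split primes
-/

set_option autoImplicit false

open NumberField

namespace Pool.Agent.TWF

open Pool.Agent.RI

/-- Theorem C for split primes. -/
theorem last (k : IntermediateField ℚ ℂ)
    (h2 : Module.finrank ℚ k = 2) (hi : ∃ z ∈ k, (starRingEnd ℂ) z ≠ z)
    (h4 : ∀ z ∈ k, z ^ 2 ≠ -1) (h3 : ∀ z ∈ k, z ^ 2 ≠ -3) :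
    ∃ S : Finset ℕ, ∀ p : ℕ, p.Prime → p ∉ S →
      (∃ P₁ P₂ : Ideal (𝓞 k), P₁.IsPrime ∧ P₂.IsPrime ∧ P₁ ≠ P₂ ∧ (p : 𝓞 k) ∈ P₁ ∧
        (p : 𝓞 k) ∈ P₂) → StP k p :=
  asm (Pool.Agent.TWT.t_CRIT Pool.Agent.TWT.a_KEYA) t_UNF k h2 hi h4 h3

end Pool.Agent.TWF
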