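import Pool.Agent.TWF.StF
import Pool.Agent.TWT.StT2
import Pool.Agent.MUX.J_LEV
import Pool.Agent.MUX.J_GAL

/-!
# TWF, module UNF, part 0: a field unramified above `p`, of degree prime to `p` over `k`, has a level prime to `p` (helper56)

The level `f p` (the proof of `Pool/Agent/MUX/J_LEV.lean` for all odd `p`).
-/

set_option autoImplicit false

open WeierstrassCurve Polynomial NumberField IsDedekindDomain

namespace Pool.Agent.TWF

open _root_.MU3 Pool.Agent.MU3A Pool.Agent.MU3B Pool.Agent.MU3C Pool.Agent.RI Pool.Agent.RID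
open Pool.Agent.MUX Pool.Agent.MUXU Pool.Agent.MUXW Pool.Agent.TWT
open Pool.Agent.MU3V (cls Sub GD algDF)
open Pool.Agent.MUXV (GR InK tX)
open OnePoint

noncomputable section

open Pool.Agent.MUXJ.LEV in
/-- a field of degree prime to `p` over `k` is contained in a ray class field of level `f p` -/
theorem unf_lev {p : ℕ} {A B : ℤ} (hp : p.Prime) (hp2 : p ≠ 2) (hneg : B ^ 2 + 4 * A < 0)
    (hpD : ¬ (p : ℤ) ∣ absD A B) (T : TorX A B)
    (hN : ∃ (b : Ideal (OO A B)) (L : PeriodPair) (om : ℂ), IsNL b L om)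
    (K : IntermediateField ℚ ℂ) [FiniteDimensional ℚ K] (hk : kk A B ≤ K)
    (hKp : ¬ p ∣ Module.finrank (kk A B) (IntermediateField.extendScalars hk)) (M : ℕ)
    (hM0 : M ≠ 0) (hM : ∀ x ∈ K, x ∈ (RF (idl M) : IntermediateField (kk A B) ℂ))
    (N : ℕ) (hN0 : N ≠ 0) (hNp : ¬ p ∣ N) :
    ∃ f : ℕ, f ≠ 0 ∧ ¬ p ∣ f ∧ N ∣ f ∧ 2 * absD A B ∣ (f : ℤ) ∧
      ∀ x ∈ K, x ∈ (RF (idl (f * p)) : IntermediateField (kk A B) ℂ) := by
  obtain ⟨j, M', hM', hMj⟩ := Nat.exists_eq_pow_mul_and_not_dvd hM0 p hp.ne_one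
  have hM'0 : M' ≠ 0 := by
    rintro rfl
    exact hM' (dvd_zero p)
  have hD0 : 0 < absD A B := by
    unfold absD
    omega
  set c : ℕ := (absD A B).toNat with hc
  have hcD : (c : ℤ) = absD A B := Int.toNat_of_nonneg hD0.le
  have hc0 : c ≠ 0 := by omega
  have hcp : ¬ p ∣ c := by
    intro h
    apply hpD
    rw [← hcD]
    exact_mod_cast h
  have hup : ¬ p ∣ 2 := by
    intro h3
    rcases (Nat.dvd_prime Nat.prime_two).1 h3 with h4 | h4
    · exact hp.ne_one h4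
    · exact hp2 h4
  set f : ℕ := 2 * c * (N * M') with hf
  have hf0 : f ≠ 0 := mul_ne_zero (mul_ne_zero two_ne_zero hc0) (mul_ne_zero hN0 hM'0)
  have hfp : ¬ p ∣ f := by
    rw [hf, hp.dvd_mul, hp.dvd_mul, hp.dvd_mul]
    push Not
    exact ⟨⟨hup, hcp⟩, hNp, hM'⟩
  refine ⟨f, hf0, hfp, ⟨2 * c * M', by rw [hf]; ring⟩, ?_, ?_⟩
  · refine ⟨(N * M' : ℕ), ?_⟩
    rw [hf, ← hcD]
    push_cast
    ring
  -- the two levels
  set m1 : Ideal (OO A B) := idl (f * p * p ^ j) with hm1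
  set m0 : Ideal (OO A B) := idl (f * p) with hm0
  have hm1' : m1 ≠ ⊥ := idl_ne (mul_ne_zero (mul_ne_zero hf0 hp.ne_zero)
    (pow_ne_zero _ hp.ne_zero))
  have hm0' : m0 ≠ ⊥ := idl_ne (mul_ne_zero hf0 hp.ne_zero)
  have h01 : m1 ≤ m0 := idl_le (Dvd.intro _ rfl)
  have hMm : m1 ≤ idl M := idl_le (by
    rw [hMj]
    exact ⟨2 * c * N * p, by rw [hf]; ring⟩)
  have hK1 : ∀ x ∈ K, x ∈ RF m1 := fun x hx => T.mono _ _ hMm (hM x hx)
  have hfin := T.fin m1 hm1'
  have hgal := T.gal m1 hm1'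
  have h01' : RF m0 ≤ RF m1 := T.mono _ _ h01
  let K' : IntermediateField (kk A B) ℂ := IntermediateField.extendScalars hk
  have hK' : K' ≤ RF m1 := fun x hx => hK1 x hx
  let E : IntermediateField (kk A B) (RF m1) := IntermediateField.restrict hK'
  let F0 : IntermediateField (kk A B) (RF m1) := IntermediateField.restrict h01'
  have hcomm := T.comm m1 hm1'
  have hnorm : E.fixingSubgroup.Normal := by
    constructor
    intro n hn g
    rw [hcomm g n, mul_assoc, mul_inv_cancel, mul_one]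
    exact hn
  have hidx : ¬ p ∣ E.fixingSubgroup.index := by
    rw [← IntermediateField.finrank_eq_fixingSubgroup_index,
      ← (IntermediateField.restrictAlgEquiv hK').toLinearEquiv.finrank_eq]
    exact hKp
  -- elements which are trivial on `RF m0`
  have hkey : F0.fixingSubgroup ≤ E.fixingSubgroup := by
    intro σ hσ
    rw [IntermediateField.mem_fixingSubgroup_iff] at hσ
    obtain ⟨s, hs, hsσ⟩ := lift T hm1' σ
    obtain ⟨a, hac, ha⟩ := T.act m1 hm1' s hs
    obtain ⟨b, L, om, hL⟩ := hN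
    obtain ⟨b', L', om', mu, hL', hact⟩ := ha b L om hL
    have htr0 : ∀ y ∈ RF m0, s y = y := by
      intro y hy
      have h1 := hsσ ⟨y, h01' hy⟩
      have h2 := hσ ⟨y, h01' hy⟩ ((IntermediateField.mem_restrict h01' _).2 hy)
      rw [h2] at h1
      exact h1
    obtain ⟨x, hx, hax⟩ := (T.triv m0 a s b L L' om mu hm0' hs hL (act_mono h01 hact)
      hL'.nrm).1 htr0
    -- powers
    have hpow : ∀ n : ℕ, ∃ t : ℂ ≃+* ℂ, FixK A B t ∧
        (∀ y : RF m1, t (y : ℂ) = ((σ ^ (n + 1)) y : ℂ)) ∧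
        ∃ (b' : Ideal (OO A B)) (L' : PeriodPair) (om' mu : ℂ), IsNL b' L' om' ∧
          ActI t m1 (a ^ (n + 1)) L L' mu := by
      intro n
      induction n with
      | zero =>
        refine ⟨s, hs, fun y => ?_, b', L', om', mu, hL', ?_⟩
        · rw [zero_add, pow_one]; exact hsσ y
        · rw [zero_add, pow_one]; exact hact
      | succ n ih =>
        obtain ⟨t, ht, ht1, b₁, L₁, om₁, mu₁, hL₁, hact₁⟩ := ih
        obtain ⟨b₂, L₂, om₂, mu₂, hL₂, hact₂⟩ := ha b₁ L₁ om₁ hL₁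
        refine ⟨t.trans s, ?_, fun y => ?_, b₂, L₂, om₂, mu₂ * mu₁, hL₂, ?_⟩
        · show s (t (wC A B)) = wC A B
          rw [show t (wC A B) = wC A B from ht]
          exact hs
        · show s (t (y : ℂ)) = _
          rw [ht1 y, hsσ, pow_succ' σ (n + 1)]
          rfl
        · rw [pow_succ a (n + 1)]
          exact T.comp m1 _ a t s L L₁ L₂ mu₁ mu₂ hact₁ hact₂
    have hpj : 0 < p ^ j := pow_pos hp.pos j
    obtain ⟨t, ht, ht1, b₁, L₁, om₁, mu₁, hL₁, hact₁⟩ := hpow (p ^ j - 1)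
    rw [Nat.sub_add_cancel hpj] at ht1 hact₁
    have h3 : x ^ p ^ j - 1 ∈ m1 := by
      have h4 : ((f * p : ℕ) : OO A B) ∣ x - 1 := Ideal.mem_span_singleton.1 hx
      have h5 : ((p : ℕ) : OO A B) ∣ ((f * p : ℕ) : OO A B) :=
        Nat.cast_dvd_cast (Dvd.intro_left _ rfl)
      have h6 := pow_dvd p _ x h5 h4 j
      rw [hm1, Ideal.mem_span_singleton]
      push_cast at h6 ⊢
      exact h6
    have h4 : σ ^ p ^ j = 1 := by
      have h5 := (T.triv m1 _ t b L L₁ om mu₁ hm1' ht hL hact₁ hL₁.nrm).2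
        ⟨x ^ p ^ j, h3, by rw [hax, Ideal.span_singleton_pow]⟩
      refine AlgEquiv.ext fun y => Subtype.ext ?_
      rw [← ht1 y, h5 y y.2]
      rfl
    have h5 : σ ^ E.fixingSubgroup.index ∈ E.fixingSubgroup := Subgroup.pow_index_mem _ σ
    refine mem_of_pow_mem _ (m := p ^ j) (by rw [h4]; exact one_mem _) h5 ?_
    exact Nat.Coprime.pow_left j ((Nat.Prime.coprime_iff_not_dvd hp).2 hidx)
  have hEF : E ≤ F0 := by
    rw [← IsGalois.fixedField_fixingSubgroup F0, IntermediateField.le_iff_le]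
    exact hkey
  intro x hx
  have h1 : (⟨x, hK1 x hx⟩ : RF m1) ∈ F0 :=
    hEF ((IntermediateField.mem_restrict hK' _).2 hx)
  exact (IntermediateField.mem_restrict h01' _).1 h1

end

end Pool.Agent.TWF
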