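import Pool.Agent.TWF.UNF0
import Pool.Agent.MUX.J_RAM

/-!
# TWF, module UNF, part 1: the order of the inertia group at `V` (helper56)

From the proof of `Pool/Agent/MUX/J_RAM.lean` (helper48).
-/

set_option autoImplicit false

open NumberField IsDedekindDomain

namespace Pool.Agent.TWF

open _root_.MU3 Pool.Agent.MU3 Pool.Agent.MU3A Pool.Agent.MU3B Pool.Agent.MUX Pool.Agent.MUXE

noncomputable section

/-- the inertia group of `F / k` at `V` -/
def IGV {A B : ℤ} (V : ValuationSubring ℂ) (F : IntermediateField (kk A B) ℂ) :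
    Set (F ≃ₐ[kk A B] F) :=
  {σ | ∀ x : F, V.valuation (x : ℂ) ≤ 1 → V.valuation ((σ x : ℂ) - x) < 1}

open Pool.Agent.MUXJ.JRAM Pool.Agent.MUXE.RamE Pool.Agent.MU3E.RAM in
/-- the prime `w` of `F` below `V`, and the value of `p` -/
theorem unf_w {p : ℕ} {A B : ℤ} {P : Ideal (OO A B)} {V : ValuationSubring ℂ} (hC : CQ A B)
    (hp : p.Prime) (hpP : ((p : ℕ) : OO A B) ∈ P) (hV : OverI V P)
    (hsplit : ((p : ℕ) : OO A B) ∉ P ^ 2)
    (F : IntermediateField (kk A B) ℂ) [FiniteDimensional (kk A B) F] [IsGalois (kk A B) F]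
    [NumberField F] :
    ∃ w : HeightOneSpectrum (𝓞 F),
      (∀ x : 𝓞 F, x ∈ w.asIdeal ↔ V.valuation ((algebraMap F ℂ) (x : F)) < 1) ∧
      w.valuation F (p : F) = WithZero.exp (-1 : ℤ) ^ Nat.card (IGV V F) := by
  obtain ⟨⟨φ, hφ⟩, hinj, hded, hpos, hint⟩ := te_RNG A B hC
  have hw0 : IsIntegral ℤ (wC A B) := by
    rw [hint _ (wC_mem A B)]
    exact ⟨⟨0, 1⟩, by simp [emb]⟩
  have hfd : FiniteDimensional ℚ (kk A B) :=
    IntermediateField.adjoin.finiteDimensional hw0.tower_top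
  have hk : NumberField (kk A B) := ⟨⟩
  have hIn : ∀ x : OO A B, IsIntegral ℤ (ek x) := by
    intro x
    have h2 : IsIntegral ℤ (emb x) := (hint (emb x) (emb_mem x)).mpr ⟨x, rfl⟩
    have h3 : algebraMap (kk A B) ℂ (ek x) = emb x := rfl
    rw [← h3] at h2
    exact (isIntegral_algebraMap_iff (FaithfulSMul.algebraMap_injective (kk A B) ℂ)).mp h2
  -- the ring isomorphism
  let e : OO A B →+* 𝓞 (kk A B) :=
    { toFun := fun x => ⟨ek x, hIn x⟩
      map_one' := by
        apply RingOfIntegers.ext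
        apply Subtype.ext
        change emb 1 = 1
        rw [← hφ, map_one]
      map_mul' := by
        intro a b
        apply RingOfIntegers.ext
        apply Subtype.ext
        change emb (a * b) = emb a * emb b
        rw [← hφ, ← hφ, ← hφ, map_mul]
      map_zero' := by
        apply RingOfIntegers.ext
        apply Subtype.ext
        change emb 0 = 0
        rw [← hφ, map_zero]
      map_add' := by
        intro a b
        apply RingOfIntegers.ext
        apply Subtype.ext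
        change emb (a + b) = emb a + emb b
        rw [← hφ, ← hφ, ← hφ, map_add] }
  have he : ∀ x, (((e x : 𝓞 (kk A B)) : kk A B) : ℂ) = emb x := fun x => rfl
  have hesurj : Function.Surjective e := by
    intro x
    have h2 : IsIntegral ℤ ((x : kk A B) : ℂ) :=
      (RingOfIntegers.isIntegral_coe x).map (Algebra.ofId (kk A B) ℂ |>.restrictScalars ℤ)
    obtain ⟨z, hz⟩ := (hint _ (x : kk A B).2).mp h2
    refine ⟨z, ?_⟩
    apply RingOfIntegers.ext
    apply Subtype.ext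
    rw [he, hz]
  have heinj : Function.Injective e := by
    rw [injective_iff_map_eq_zero]
    intro x hx
    apply hinj
    rw [← he, hx]
    rfl
  have hpC : emb ((p : ℕ) : OO A B) = (p : ℂ) := by rw [← hφ, map_natCast]
  have hpne : (p : ℂ) ≠ 0 := by exact_mod_cast hp.ne_zero
  have hvP : ∀ x : OO A B, V.valuation (emb x) < 1 ↔ x ∈ P := fun x => by
    rw [← hV x, ValuationSubring.mem_nonunits_iff]
  obtain ⟨w, hw⟩ := exists_prime (V := V) (algebraMap F ℂ)
    (z := ((p : ℕ) : 𝓞 F)) (by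
      intro h
      have h1 := congrArg (fun t : 𝓞 F => algebraMap F ℂ (t : F)) h
      have h2 : ((p : ℕ) : ℂ) = 0 := by
        simpa using h1
      exact hpne h2) (by
      have h2 : (algebraMap F ℂ) ((((p : ℕ) : 𝓞 F)) : F) = (p : ℂ) := by simp
      rw [h2, ← hpC, hvP]
      exact hpP)
  have hcomap : (w.asIdeal.under (𝓞 (kk A B))).comap e = P := by
    ext z
    have hxw : z ∈ (w.asIdeal.under (𝓞 (kk A B))).comap e ↔ V.valuation (emb z) < 1 := by
      exact hw (algebraMap (𝓞 (kk A B)) (𝓞 F) (e z))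
    rw [hxw, hvP]
  have hmap : P.map e = w.asIdeal.under (𝓞 (kk A B)) := by
    rw [← hcomap]
    exact Ideal.map_comap_of_surjective e hesurj _
  have hep : e ((p : ℕ) : OO A B) = ((p : ℕ) : 𝓞 (kk A B)) := map_natCast e p
  have hq1 : ((p : ℕ) : 𝓞 (kk A B)) ∈ w.asIdeal.under (𝓞 (kk A B)) := by
    rw [← hmap, ← hep]
    exact Ideal.mem_map_of_mem e hpP
  have hq2 : ((p : ℕ) : 𝓞 (kk A B)) ∉ (w.asIdeal.under (𝓞 (kk A B))) ^ 2 := by
    rw [← hmap, ← Ideal.map_pow, ← hep, Ideal.mem_map_iff_of_surjective e hesurj]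
    rintro ⟨z, hz, hz2⟩
    rw [heinj hz2] at hz
    exact hsplit hz
  have hord := val_card (k := kk A B) (algebraMap F ℂ) hw hq1 hq2
  have hpF : (algebraMap (kk A B) F (((p : ℕ) : 𝓞 (kk A B)) : kk A B)) = (p : F) := by
    simp
  rw [hpF] at hord
  exact ⟨w, hw, hord⟩

/-- `F` is a number field -/
theorem unf_nf {A B : ℤ} (hC : CQ A B) (F : IntermediateField (kk A B) ℂ)
    [FiniteDimensional (kk A B) F] : NumberField F := by
  obtain ⟨⟨φ, hφ⟩, hinj, hded, hpos, hint⟩ := te_RNG A B hC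
  have hw0 : IsIntegral ℤ (wC A B) := by
    rw [hint _ (wC_mem A B)]
    exact ⟨⟨0, 1⟩, by simp [emb]⟩
  have hfd : FiniteDimensional ℚ (kk A B) :=
    IntermediateField.adjoin.finiteDimensional hw0.tower_top
  have hk : NumberField (kk A B) := ⟨⟩
  have hFQ : FiniteDimensional ℚ F := FiniteDimensional.trans ℚ (kk A B) F
  exact ⟨⟩

open Pool.Agent.MUXJ.JRAM in
/-- if `F` contains the roots of unity of order `p` then `p - 1` divides the order of the inertia group -/
theorem unf_dvd {p : ℕ} {A B : ℤ} {P : Ideal (OO A B)} {V : ValuationSubring ℂ} (hC : CQ A B)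
    (hp : p.Prime) (hpP : ((p : ℕ) : OO A B) ∈ P) (hV : OverI V P)
    (hsplit : ((p : ℕ) : OO A B) ∉ P ^ 2)
    (F : IntermediateField (kk A B) ℂ) [FiniteDimensional (kk A B) F] [IsGalois (kk A B) F]
    (hζ : ∃ ζ ∈ F, IsPrimitiveRoot ζ p) : (p - 1) ∣ Nat.card (IGV V F) := by
  have hF : NumberField F := unf_nf hC F
  obtain ⟨ζ, hζF, hζ⟩ := hζ
  obtain ⟨w, -, hord⟩ := unf_w hC hp hpP hV hsplit F
  have hζ' : IsPrimitiveRoot (⟨ζ, hζF⟩ : F) (p ^ (0 + 1)) := by
    rw [zero_add, pow_one]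
    exact IsPrimitiveRoot.of_map_of_injective (f := algebraMap F ℂ) hζ
      (FaithfulSMul.algebraMap_injective F ℂ)
  have hcy := val_p w hp hζ'
  rw [zero_add, pow_one, Nat.totient_prime hp] at hcy
  rw [hcy] at hord
  set N := Nat.card (IGV V F) with hN
  have hp1 : p - 1 ≠ 0 := Nat.sub_ne_zero_of_lt hp.one_lt
  have h0 : w.valuation F (1 - (⟨ζ, hζF⟩ : F)) ≠ 0 := by
    intro h0
    rw [h0, zero_pow hp1] at hord
    have h5 : (WithZero.exp (-1 : ℤ)) ^ N ≠ (0 : WithZero (Multiplicative ℤ)) :=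
      pow_ne_zero _ WithZero.exp_ne_zero
    exact h5 hord.symm
  rw [← WithZero.exp_log h0, ← WithZero.exp_nsmul, ← WithZero.exp_nsmul, WithZero.exp_inj,
    nsmul_eq_mul, nsmul_eq_mul] at hord
  have h6 : ((p - 1 : ℕ) : ℤ) ∣ (N : ℤ) :=
    ⟨-WithZero.log (w.valuation F (1 - (⟨ζ, hζF⟩ : F))), by linear_combination hord⟩
  exact_mod_cast h6

open Pool.Agent.MUXE.RamE in
/-- if `p` is not in the square of a prime ideal then the inertia group is trivial -/
theorem unf_one {p : ℕ} {A B : ℤ} {P : Ideal (OO A B)} {V : ValuationSubring ℂ} (hC : CQ A B)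
    (hp : p.Prime) (hpP : ((p : ℕ) : OO A B) ∈ P) (hV : OverI V P)
    (hsplit : ((p : ℕ) : OO A B) ∉ P ^ 2)
    (F : IntermediateField (kk A B) ℂ) [FiniteDimensional (kk A B) F] [IsGalois (kk A B) F]
    (hun : ∀ Q : Ideal (𝓞 F), Q.IsPrime → (p : 𝓞 F) ∈ Q → (p : 𝓞 F) ∉ Q ^ 2) :
    ∀ σ ∈ IGV V F, σ = 1 := by
  have hF : NumberField F := unf_nf hC F
  obtain ⟨w, hw, hord⟩ := unf_w hC hp hpP hV hsplit F
  have hvp : V.valuation (p : ℂ) < 1 := by
    obtain ⟨⟨φ, hφ⟩, -⟩ := te_RNG A B hC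
    have h1 : emb ((p : ℕ) : OO A B) = (p : ℂ) := by rw [← hφ, map_natCast]
    rw [← h1, ← ValuationSubring.mem_nonunits_iff]
    exact (hV _).2 hpP
  have h1 : (p : 𝓞 F) ∈ w.asIdeal := by
    rw [hw]
    have h2 : (algebraMap F ℂ) (((p : 𝓞 F)) : F) = (p : ℂ) := by simp
    rw [h2]
    exact hvp
  have h2 := hun w.asIdeal w.isPrime h1
  have h3 := intVal_one w h1 h2
  have h4 : w.valuation F (p : F) = WithZero.exp (-1 : ℤ) := by
    have h5 := w.valuation_of_algebraMap (K := F) (p : 𝓞 F)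
    rw [h3] at h5
    rw [← h5]
    simp
  rw [h4] at hord
  have h5 : Nat.card (IGV V F) = 1 := by
    have h6 : (WithZero.exp (-1 : ℤ) : WithZero (Multiplicative ℤ)) =
        WithZero.exp ((Nat.card (IGV V F)) • (-1 : ℤ)) := by
      rw [hord, WithZero.exp_nsmul]
    rw [WithZero.exp_inj, nsmul_eq_mul] at h6
    have h7 : (Nat.card (IGV V F) : ℤ) = 1 := by linear_combination h6
    exact_mod_cast h7
  have h6 : (1 : F ≃ₐ[kk A B] F) ∈ IGV V F := by
    intro x _
    simp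
  rw [Nat.card_eq_one_iff_unique] at h5
  intro σ hσ
  have h7 := h5.1
  exact congrArg Subtype.val (Subsingleton.elim (⟨σ, hσ⟩ : IGV V F) ⟨1, h6⟩)

end

end Pool.Agent.TWF
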