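import Pool.Agent.TWF.UNF1
import Pool.Agent.TWT.IDP
import Pool.Agent.TWT.PIS
import Pool.Agent.MUX.RQAll
import Pool.Agent.MUX.XLib
import Pool.Agent.MUX.C_QCR
import Pool.Agent.MUX.C_TRO
import Pool.Agent.MUX.C_FNG
import Pool.Agent.MUX.Y_SAM
import Pool.Agent.MUX.XFAll

/-!
# TWF, module UNF, part 2: the points of level `f cjI P` at `V` (helper56)
-/

set_option autoImplicit false

open WeierstrassCurve Polynomial NumberField IsDedekindDomain

namespace Pool.Agent.TWF

open _root_.MU3 Pool.Agent.MU3A Pool.Agent.MU3B Pool.Agent.MU3C Pool.Agent.RI Pool.Agent.RID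
open Pool.Agent.MUX Pool.Agent.MUXU Pool.Agent.MUXW Pool.Agent.TWT
open Pool.Agent.MU3V (cls Sub GD algDF)
open Pool.Agent.MUXV (GR InK tX)
open OnePoint

noncomputable section

namespace UNF

lemma mem_l {S : Type*} [CommRing S] {I J : Ideal S} {x : S} (h : x ∈ I * J) : x ∈ I :=
  Ideal.mul_le_left h

lemma mem_r {S : Type*} [CommRing S] {I J : Ideal S} {x : S} (h : x ∈ I * J) : x ∈ J :=
  Ideal.mul_le_right h

lemma mem_of_cop {S : Type*} [CommRing S] {I J : Ideal S} (hIJ : IsCoprime I J) {x : S}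
    (h : x ∈ I) (h' : x ∈ J) : x ∈ I * J := by
  rw [Ideal.mul_eq_inf_of_coprime (Ideal.isCoprime_iff_sup_eq.1 hIJ)]
  exact ⟨h, h'⟩

variable {p : ℕ} {A B : ℤ} {P : Ideal (OO A B)} {V : ValuationSubring ℂ} {f n : ℕ} {ι : Type}

theorem good (h : SetG p A B P V f) (R : Reps A B n ι) (hR : GRd V R) (i : ι) :
    ∃ (W : WeierstrassCurve.Affine ℂ) (ξ : ℂ →+ W.Point),
      GR V W (R.L i) (fun z => (R.L i).weierstrassP z - 1 / 12)
        (fun z => (R.L i).derivWeierstrassP z / 2) ξ := by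
  have h5 := h.p5
  have h2 : V.valuation (2 : ℂ) = 1 := by
    have h3 := PIS.val_int h 2 (fun h4 => by
      have h6 := Int.le_of_dvd (by norm_num) h4
      omega)
    have h7 : ((2 : ℤ) : ℂ) = 2 := by norm_num
    rwa [h7] at h3
  refine Pool.Agent.MUXV.x_NGR V (R.L i) (R.nl i).nrm h2 (hR.kap i) ?_
  have h3 := hR.dis i
  have h4 : (1 : ℂ) + 1728 * Pool.Agent.MUX.kap (R.L i) = 12 * (R.L i).g₂ := by
    unfold Pool.Agent.MUX.kap
    ring
  rwa [h4] at h3

theorem cmo (hC : CQ A B) {b : Ideal (OO A B)} {L : PeriodPair} {om : ℂ} (hL : IsNL b L om) :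
    Pool.Agent.MUXV.CMO A B L := by
  intro x z hz
  obtain ⟨t, ht, rfl⟩ := (hL.mem z).1 hz
  exact (hL.mem _).2 ⟨x * t, b.mul_mem_left x ht, by rw [Pool.Agent.MUX.emb_mul hC]; ring⟩

theorem isq (hC : CQ A B) {Q : Ideal (OO A B)} (hQ : Q ≠ ⊥) (R : Reps A B n ι) (i : ι) :
    ∃ (j : ι) (mu : ℂ), IsQ Q (R.L i) (R.L j) mu := by
  have : IsDomain (OO A B) := Pool.Agent.MUX.isDomain hC
  have hp0 : ((nI Q : ℕ) : OO A B) ≠ 0 :=
    Pool.Agent.MUX.natCast_ne_zero' hC (Pool.Agent.MUX.nI_ne_zero hC hQ)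
  have hc : cjI Q * R.b i ≠ ⊥ :=
    Pool.Agent.MUX.mul_ne_bot hC (Pool.Agent.MUX.cjI_ne_bot hC hQ) (R.nl i).b_ne
  obtain ⟨j, x, y, hx, hy, hxy⟩ := R.surj _ hc
  have e : sp (x * ((nI Q : ℕ) : OO A B)) * R.b i = sp y * (Q * R.b j) := by
    have h1 : Q * cjI Q = sp ((nI Q : ℕ) : OO A B) := Pool.Agent.MUX.mul_cjI hC hQ
    calc sp (x * ((nI Q : ℕ) : OO A B)) * R.b i = sp x * sp ((nI Q : ℕ) : OO A B) * R.b i := by
          rw [Ideal.span_singleton_mul_span_singleton]
      _ = Q * (sp x * (cjI Q * R.b i)) := by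
          rw [← h1]
          ring
      _ = Q * (sp y * R.b j) := by rw [hxy]
      _ = _ := by ring
  exact ⟨j, _, Pool.Agent.MUXC.tc_QCR Pool.Agent.MUXC.tc_TRO A B hC Q (R.b i) (R.b j) (R.L i)
    (R.L j) (R.om i) (R.om j) (R.nl i).toIsLI (R.nl j).toIsLI hQ _ _ (mul_ne_zero hx hp0) hy e⟩

/-- the points of `E[cjI P]` are not in the kernel of reduction -/
theorem injQ (h : SetG p A B P V f) (R : Reps A B n ι) (hR : GRd V R) (i : ι) (z : ℂ)
    (hz : Tor (cjI P) (R.L i) z)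
    (hK : InK V (R.L i) (fun z => (R.L i).weierstrassP z - 1 / 12) z) :
    z ∈ (R.L i).lattice := by
  have hC := h.cq
  have hp := h.pp
  have hp2 : p ≠ 2 := by have := h.p5; omega
  obtain ⟨-, -, i3, i4, -, ⟨y0, hy0, hy0'⟩, -⟩ := t_IDP p A B P V f h
  have hP0 : P ≠ ⊥ := PIS.P_ne h
  set Q : Ideal (OO A B) := cjI P with hQ
  have hQ0 : Q ≠ ⊥ := Pool.Agent.MUX.cjI_ne_bot hC hP0
  have hcard : Nat.card (OO A B ⧸ Q) = p := by
    have h1 := Pool.Agent.MUX.nI_cjI hC hP0
    rw [h.hP.norm] at h1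
    exact h1
  have hdisc : ¬ (p : ℤ) ∣ B ^ 2 + 4 * A := by
    intro h1
    apply h.pD
    have h2 : absD A B = -(B ^ 2 + 4 * A) := by
      unfold absD
      ring
    rw [h2]
    exact (dvd_neg).2 h1
  have hpC : (p : ℂ) ≠ 0 := by exact_mod_cast hp.ne_zero
  have hpO : ((p : ℕ) : OO A B) ≠ 0 := Pool.Agent.MUX.natCast_ne_zero' hC hp.ne_zero
  obtain ⟨j, mu, hmu⟩ := isq hC hQ0 R i
  obtain ⟨a, c, haQ, ha0, hc, hpc, hael⟩ := Pool.Agent.MUXV.q_AEL A B hC.toF Q p hp hp2 hdisc hcard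
  have haP : a ∉ P := by
    intro haP
    have h1 : a ∈ P * Q := mem_of_cop i4 haP haQ
    rw [i3] at h1
    obtain ⟨a', rfl⟩ := Ideal.mem_span_singleton.1 h1
    have hL := R.nl R.i0
    have hom := hL.om_ne
    have h2 := hael (R.L R.i0) (cmo hC hL) (R.om R.i0 / p) (by
      refine (hL.mem _).2 ⟨a', by rw [R.b0]; exact Submodule.mem_top, ?_⟩
      rw [Pool.Agent.MUX.emb_mul hC, Pool.Agent.MUX.emb_natCast hC]
      field_simp)
    obtain ⟨t, -, ht⟩ := (hL.mem _).1 (h2 y0 hy0)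
    have h3 : y0 * ((c : ℕ) : OO A B) = ((p : ℕ) : OO A B) * t := by
      apply Pool.Agent.MUX.emb_inj hC
      rw [Pool.Agent.MUX.emb_mul hC, Pool.Agent.MUX.emb_mul hC, Pool.Agent.MUX.emb_natCast hC,
        Pool.Agent.MUX.emb_natCast hC]
      field_simp at ht
      linear_combination ht
    have h4 : IsCoprime (p : ℤ) (c : ℤ) :=
      Nat.isCoprime_iff_coprime.2 ((Nat.Prime.coprime_iff_not_dvd hp).2 hpc)
    obtain ⟨u, v, huv⟩ := h4
    apply hy0'
    have h5 : ((u : ℤ) : OO A B) * ((p : ℕ) : OO A B) + ((v : ℤ) : OO A B) * ((c : ℕ) : OO A B) = 1 := by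
      have h6 := congrArg (fun t : ℤ => (t : OO A B)) huv
      push_cast at h6
      exact h6
    have h6 : y0 = ((p : ℕ) : OO A B) * (((u : ℤ) : OO A B) * y0 + ((v : ℤ) : OO A B) * t) := by
      linear_combination (-y0) * h5 + ((v : ℤ) : OO A B) * h3
    rw [h6]
    exact P.mul_mem_right _ h.hP.mem
  have hva : V.valuation (emb a) = 1 := by
    have h1 := (Pool.Agent.MUXV.q_VQI A B hC.toF V).1 a
    refine le_antisymm h1 (not_lt.1 fun h2 => haP ?_)
    rw [← h.hV]
    exact V.mem_nonunits_iff.2 h2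
  have hL := R.nl i
  have hM := R.nl j
  have hmu0 := hmu.1
  have hvmu : V.valuation mu = 1 := by
    rw [← hva]
    refine Pool.Agent.MUXV.x_MLT V (R.L i) (R.L j) (1 / 12) (1 / 12) mu (emb a) c (good h R hR i)
      (good h R hR j) hmu0 ?_ ?_ hc ?_ ?_
    · intro h1
      rw [h1, map_zero] at hva
      exact zero_ne_one hva
    · intro w hw
      have h1 : mu * (w / mu) ∈ (R.L j).lattice := by
        rw [mul_div_cancel₀ _ hmu0]
        exact hw
      have h2 := (hmu.2 _).1 h1 a haQ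
      have h3 : emb a / mu * w = emb a * (w / mu) := by ring
      rw [h3]
      exact h2
    · have h1 := PIS.val_int h (c : ℤ) (by exact_mod_cast hpc)
      rwa [Int.cast_natCast] at h1
    · intro w hw
      have h3 : emb a / mu * w = emb a * (w / mu) := by ring
      rw [h3] at hw
      have h4 := hael (R.L i) (cmo hC hL) _ hw
      have h5 := (hmu.2 _).2 h4
      have h6 : mu * ((c : ℂ) * (w / mu)) = (c : ℂ) * w := by
        field_simp
      rwa [h6] at h5
  obtain ⟨⟨H, hH⟩, -, -⟩ := Pool.Agent.MUXV.q_ISQ A B hC.toF Q p hp hp2 hdisc hcard (R.L i) (R.L j)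
    (1 / 12) (1 / 12) mu (cmo hC hL) hmu V (good h R hR i) (good h R hR j)
  exact Pool.Agent.MUXV.x_INJ V (R.L i) (R.L j) (1 / 12) (1 / 12) mu p H hH hvmu z
    ((hmu.2 z).2 hz) hK

/-- the points of `E[f cjI P]` are not in the kernel of reduction -/
theorem inj (h : SetG p A B P V f) (R : Reps A B n ι) (hR : GRd V R) (i : ι) (z : ℂ)
    (hz : Tor (idl f * cjI P) (R.L i) z)
    (hK : InK V (R.L i) (fun z => (R.L i).weierstrassP z - 1 / 12) z) :
    z ∈ (R.L i).lattice := by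
  have hC := h.cq
  obtain ⟨W, ξ, G⟩ := good h R hR i
  have h1 : (f : ℂ) * z ∈ (R.L i).lattice := by
    refine injQ h R hR i _ ?_ (Pool.Agent.MUXV.inK_nat G hK f)
    intro x hx
    have h2 := hz (((f : ℕ) : OO A B) * x) (Ideal.mul_mem_mul (Ideal.mem_span_singleton_self _) hx)
    rw [Pool.Agent.MUX.emb_mul hC, Pool.Agent.MUX.emb_natCast hC] at h2
    have h3 : emb x * ((f : ℂ) * z) = (f : ℂ) * emb x * z := by ring
    rwa [h3]
  refine Pool.Agent.MUXV.mem_of_nat_mul G hK ?_ h1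
  have h2 := PIS.val_int h (f : ℤ) (by exact_mod_cast h.fp)
  rwa [Int.cast_natCast] at h2

/-- an element of the inertia group acts trivially on `E[f cjI P]`, up to the sign -/
theorem act_cong (h : SetG p A B P V f) (R : Reps A B n ι) (hR : GRd V R)
    (F : IntermediateField (kk A B) ℂ) (hF : RF (idl (f * p)) ≤ F) (σ : F ≃ₐ[kk A B] F)
    (hσ : σ ∈ IGV V F) (c : OO A B) (hc : ActH σ ((f * p : ℕ) : OO A B) c) :
    c - 1 ∈ idl f * cjI P ∨ c + 1 ∈ idl f * cjI P := by
  have hC := h.cq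
  have hp := h.pp
  obtain ⟨-, -, i3, i4, i5, -, -⟩ := t_IDP p A B P V f h
  obtain ⟨i6, i7, x0, hx0, hx1⟩ := i5 f h.fp
  have hL := R.nl R.i0
  have hom := hL.om_ne
  obtain ⟨W, ξ, G⟩ := good h R hR R.i0
  have hmem : ∀ y : OO A B, R.om R.i0 * emb y ∈ (R.L R.i0).lattice := fun y =>
    (hL.mem _).2 ⟨y, by rw [R.b0]; exact Submodule.mem_top, rfl⟩
  have hfpC : ((f * p : ℕ) : ℂ) ≠ 0 := by exact_mod_cast mul_ne_zero h.f0 hp.ne_zero
  have hfp0 : ((f * p : ℕ) : OO A B) ≠ 0 :=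
    Pool.Agent.MUX.natCast_ne_zero' hC (mul_ne_zero h.f0 hp.ne_zero)
  -- the ideal of level `f p`
  have hid : idl (A := A) (B := B) f * cjI P * P = idl (f * p) := by
    rw [mul_assoc, mul_comm (cjI P) P, i3]
    unfold idl
    rw [Ideal.span_singleton_mul_span_singleton, ← Nat.cast_mul]
  set z : ℂ := R.om R.i0 * emb x0 / ((f * p : ℕ) : ℂ) with hz
  -- membership
  have hlat : ∀ y : OO A B, emb y * z ∈ (R.L R.i0).lattice ↔ y * x0 ∈ idl (A := A) (B := B) (f * p) := by
    intro y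
    rw [Ideal.mem_span_singleton]
    constructor
    · intro h1
      obtain ⟨t, -, ht⟩ := (hL.mem _).1 h1
      refine ⟨t, ?_⟩
      apply Pool.Agent.MUX.emb_inj hC
      rw [Pool.Agent.MUX.emb_mul hC, Pool.Agent.MUX.emb_mul hC, Pool.Agent.MUX.emb_natCast hC]
      rw [hz] at ht
      have h2 : R.om R.i0 * (emb y * emb x0) = R.om R.i0 * (((f * p : ℕ) : ℂ) * emb t) := by
        calc R.om R.i0 * (emb y * emb x0)
            = ((f * p : ℕ) : ℂ) * (emb y * (R.om R.i0 * emb x0 / ((f * p : ℕ) : ℂ))) := by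
              field_simp
          _ = _ := by
              rw [ht]
              ring
      exact mul_left_cancel₀ hom h2
    · rintro ⟨t, ht⟩
      have h2 : emb y * z = R.om R.i0 * emb t := by
        have h3 : emb y * emb x0 = ((f * p : ℕ) : ℂ) * emb t := by
          rw [← Pool.Agent.MUX.emb_mul hC, ht, Pool.Agent.MUX.emb_mul hC,
            Pool.Agent.MUX.emb_natCast hC]
        rw [hz]
        calc emb y * (R.om R.i0 * emb x0 / ((f * p : ℕ) : ℂ))
            = R.om R.i0 * (emb y * emb x0) / ((f * p : ℕ) : ℂ) := by ring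
          _ = R.om R.i0 * emb t := by
              rw [h3]
              field_simp
      rw [h2]
      exact hmem t
  -- the annihilator of `z`
  have hann : ∀ y : OO A B, y ∈ idl f * cjI P ↔ emb y * z ∈ (R.L R.i0).lattice := by
    intro y
    rw [hlat]
    constructor
    · intro hy
      rw [← hid]
      exact Ideal.mul_mem_mul hy hx0
    · intro hy
      have h1 : y * x0 ∈ idl f * cjI P := mem_l (hid.symm ▸ hy)
      have h2 : y = y * x0 - y * (x0 - 1) := by ring
      rw [h2]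
      exact Ideal.sub_mem _ h1 (Ideal.mul_mem_left _ _ hx1)
  have htop : idl (A := A) (B := B) f * cjI P ≠ ⊤ := by
    intro h1
    have h5 : (1 : OO A B) ∈ idl (A := A) (B := B) f * cjI P := by
      rw [h1]
      exact Submodule.mem_top
    have h2 : (1 : OO A B) ∈ cjI P := mem_r h5
    have h3 : (1 : OO A B) ∈ P := by
      have h4 : starRingEnd (OO A B) 1 ∈ P := h2
      rwa [map_one] at h4
    exact h.hP.prime.ne_top ((Ideal.eq_top_iff_one _).2 h3)
  have hzL : z ∉ (R.L R.i0).lattice := by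
    intro h1
    apply htop
    rw [Ideal.eq_top_iff_one, hann, Pool.Agent.MUX.emb_one hC, one_mul]
    exact h1
  have hTor : Tor (idl f * cjI P) (R.L R.i0) z := fun x hx => (hann x).1 hx
  have hmz : emb ((f * p : ℕ) : OO A B) * z ∈ (R.L R.i0).lattice := by
    rw [hlat]
    exact Ideal.mul_mem_right _ _ (Ideal.mem_span_singleton_self _)
  obtain ⟨hcL, hact⟩ := hc.pt _ _ _ hL z hmz hzL
  have hxF : xn (R.L R.i0) z ∈ F := by
    apply hF
    refine IntermediateField.subset_adjoin _ _ ⟨_, _, _, hL, Or.inr ⟨z, ?_, hzL, rfl⟩⟩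
    intro x hx
    obtain ⟨t, rfl⟩ := Ideal.mem_span_singleton.1 hx
    have h2 : emb (((f * p : ℕ) : OO A B) * t) * z =
        emb t * (emb ((f * p : ℕ) : OO A B) * z) := by
      rw [Pool.Agent.MUX.emb_mul hC]
      ring
    rw [h2]
    exact cmo hC hL t _ hmz
  have hTorc : Tor (idl f * cjI P) (R.L R.i0) (emb c * z) := by
    intro x hx
    have h1 : emb x * (emb c * z) = emb c * (emb x * z) := by ring
    rw [h1]
    exact cmo hC hL c _ (hTor x hx)
  have hnz : ¬ InK V (R.L R.i0) (fun z => (R.L R.i0).weierstrassP z - 1 / 12) z := fun h1 =>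
    hzL (inj h R hR R.i0 z hTor h1)
  have hncz : ¬ InK V (R.L R.i0) (fun z => (R.L R.i0).weierstrassP z - 1 / 12) (emb c * z) :=
    fun h1 => hcL (inj h R hR R.i0 _ hTorc h1)
  have hlt : V.valuation (xn (R.L R.i0) (emb c * z) - xn (R.L R.i0) z) < 1 := by
    have h1 := hσ ⟨xn (R.L R.i0) z, hxF⟩ (Pool.Agent.MUXV.int_X hnz).2
    rw [hact hxF] at h1
    exact h1
  by_cases h1 : InK V (R.L R.i0) (fun z => (R.L R.i0).weierstrassP z - 1 / 12) (emb c * z + z)
  · right
    rw [hann]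
    have h2 : emb (c + 1) * z = emb c * z + z := by
      rw [Pool.Agent.MUX.emb_add hC, Pool.Agent.MUX.emb_one hC]
      ring
    rw [h2]
    refine inj h R hR R.i0 _ ?_ h1
    intro x hx
    rw [mul_add]
    exact (R.L R.i0).lattice.add_mem (hTorc x hx) (hTor x hx)
  by_cases h2 : InK V (R.L R.i0) (fun z => (R.L R.i0).weierstrassP z - 1 / 12) (emb c * z - z)
  · left
    rw [hann]
    have h3 : emb (c - 1) * z = emb c * z - z := by
      rw [Pool.Agent.MUX.emb_sub hC, Pool.Agent.MUX.emb_one hC]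
      ring
    rw [h3]
    refine inj h R hR R.i0 _ ?_ h2
    intro x hx
    rw [mul_sub]
    exact (R.L R.i0).lattice.sub_mem (hTorc x hx) (hTor x hx)
  exact absurd (Pool.Agent.MUXV.v_X_sub G hncz hnz h1 h2) hlt.ne

/-- an element of the inertia group is trivial on the Hilbert class field -/
theorem trH (h : SetG p A B P V f) (T : TorX A B) (R : Reps A B n ι) (hR : GRd V R)
    {m : Ideal (OO A B)} (hm : m ≠ ⊥) (σ : RF m ≃ₐ[kk A B] RF m) (hσ : σ ∈ IGV V (RF m)) :
    TrH σ := by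
  have hC := h.cq
  have hle : (RF (⊤ : Ideal (OO A B)) : IntermediateField (kk A B) ℂ) ≤ RF m :=
    T.mono _ _ le_top
  obtain ⟨s, hs, hsσ⟩ := Pool.Agent.MUXJ.LEV.lift T hm σ
  -- the values `kap`
  have hkap : ∀ (b : Ideal (OO A B)) (L : PeriodPair) (om : ℂ), IsNL b L om →
      ∃ i, kap L = kap (R.L i) := by
    intro b L om hL
    obtain ⟨i, x, y, hx, hy, hxy⟩ := R.surj b hL.b_ne
    refine ⟨i, ?_⟩
    have h1 := Pool.Agent.MUXY.ty_SAM Pool.Agent.MUXF.xf_ALG A B hC b (R.b i) L (R.L i) om (R.om i)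
      x y hL (R.nl i) hx hy hxy
    obtain ⟨-, -, h2, -⟩ := ta_SCP L (R.L i) 1 one_ne_zero (fun u => by rw [one_mul]; exact h1 u)
    unfold kap
    rw [h2]
    norm_num
  have hfix : ∀ (b : Ideal (OO A B)) (L : PeriodPair) (om : ℂ), IsNL b L om →
      s (kap L) = kap L := by
    intro b L om hL
    obtain ⟨a, -, ha⟩ := T.act m hm s hs
    obtain ⟨b', L', om', mu, hL', hact⟩ := ha b L om hL
    obtain ⟨i, hi⟩ := hkap b L om hL
    obtain ⟨j, hj⟩ := hkap b' L' om' hL'
    have hmem : kap L ∈ (RF m : IntermediateField (kk A B) ℂ) :=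
      IntermediateField.subset_adjoin _ _ ⟨b, L, om, hL, Or.inl rfl⟩
    have h1 := hσ ⟨kap L, hmem⟩ (by
      show V.valuation (kap L) ≤ 1
      rw [hi, hR.kap i])
    rw [← hsσ, ← hact.kap] at h1
    have h2 : j = i := hR.inj j i (by
      rw [← hi, ← hj]
      exact h1)
    rw [← hact.kap, hj, h2, ← hi]
  intro x hx
  have h1 : s (x : ℂ) = (x : ℂ) := by
    have h2 : ∀ y ∈ (RF (⊤ : Ideal (OO A B)) : IntermediateField (kk A B) ℂ), s y = y := by
      intro y hy
      induction hy using IntermediateField.adjoin_induction with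
      | mem y hy =>
        obtain ⟨b, L, om, hL, rfl | ⟨z, hz, hzL, rfl⟩⟩ := hy
        · exact hfix b L om hL
        · exfalso
          apply hzL
          have h3 := hz 1 Submodule.mem_top
          rwa [Pool.Agent.MUX.emb_one hC, one_mul] at h3
      | algebraMap y =>
        have h3 := hsσ (algebraMap (kk A B) (RF m) y)
        rw [σ.commutes] at h3
        exact h3
      | add y z _ _ hy hz => rw [map_add, hy, hz]
      | inv y _ hy => rw [map_inv₀, hy]
      | mul y z _ _ hy hz => rw [map_mul, hy, hz]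
    exact h2 _ hx
  apply Subtype.ext
  rw [← hsσ, h1]

end UNF

end

end Pool.Agent.TWF
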