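import Pool.Agent.TWF.StE
import Pool.Agent.RI.FinalA

/-!
# TWF, module URE (helper56): the primes which ramify in `F E Q`

`E` is contained in `ℚ(B)`, `B` the set of the complex roots of a monic integral polynomial `g`. Let `N = F(B, ζ)`, `ζ` a
root of unity of order a power of `p`. An element `σ` of the inertia group of a prime `r` of `N` over `F`: `σ b - b ∈ r`
for `b ∈ B`, so `σ b = b` if `r` does not contain the constant coefficients of the minimal polynomials of the differences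
`b' - b ≠ 0`; and `σ ζ = ζ` as in `RI/RAM.lean`.
-/

set_option autoImplicit false

open NumberField IsDedekindDomain Polynomial
open scoped nonZeroDivisors Pointwise

namespace Pool.Agent.TWF

open Pool.Agent.RI

namespace URE

/-- a prime with trivial inertia groups above it is unramified -/
theorem unram {F M N : Type} [Field F] [NumberField F] [Field M] [NumberField M] [Field N]
    [NumberField N] [Algebra F M] [Algebra M N] [Algebra F N] [IsScalarTower F M N]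
    [IsGalois F N] (R : Ideal (𝓞 M)) [R.IsPrime]
    (hR : ∀ r : Ideal (𝓞 N), r.IsPrime → r.LiesOver R → ∀ σ : N ≃ₐ[F] N,
      σ ∈ r.inertia (N ≃ₐ[F] N) → σ = 1) : R.ramificationIdx (𝓞 F) = 1 := by
  obtain ⟨r, hr, hrw⟩ : ∃ r : Ideal (𝓞 N), r.IsPrime ∧ r.LiesOver R := by
    obtain ⟨r⟩ := (inferInstance : Nonempty (R.primesOver (𝓞 N)))
    exact ⟨r.1, r.2.1, r.2.2⟩
  have hin : r.inertia (N ≃ₐ[F] N) = ⊥ := by
    rw [eq_bot_iff]
    intro σ hσ
    rw [Subgroup.mem_bot]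
    exact hR r hr hrw σ hσ
  have h1 : Nat.card (r.inertia (N ≃ₐ[F] N)) = (r.under (𝓞 F)).ramificationIdxIn (𝓞 N) :=
    Ideal.card_inertia_eq_ramificationIdxIn (r.under (𝓞 F)) r
  have h2 : (r.under (𝓞 F)).ramificationIdxIn (𝓞 N) = r.ramificationIdx (𝓞 F) :=
    Ideal.ramificationIdxIn_eq_ramificationIdx (r.under (𝓞 F)) r (N ≃ₐ[F] N)
  have h3 : R.ramificationIdx (𝓞 F) ∣ r.ramificationIdx (𝓞 F) :=
    Ideal.ramificationIdx_below_dvd R r
  rw [← h2, ← h1, hin, Subgroup.card_bot, Nat.dvd_one] at h3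
  exact h3

/-- the constant coefficient of the minimal polynomial of `x` is in every ideal which contains `x` -/
theorem coeff_mem {N : Type} [Field N] [NumberField N] (io : N →+* ℂ) (r : Ideal (𝓞 N))
    (x : 𝓞 N) (hx : x ∈ r) :
    (((minpoly ℤ (io (x : N))).coeff 0 : ℤ) : 𝓞 N) ∈ r := by
  have h1 : aeval x (minpoly ℤ (io (x : N))) = 0 := by
    have h2 : aeval (io (x : N)) (minpoly ℤ (io (x : N))) = 0 := minpoly.aeval _ _
    let φ : 𝓞 N →+* ℂ := io.comp (algebraMap (𝓞 N) N)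
    have hφ : Function.Injective φ := io.injective.comp RingOfIntegers.coe_injective
    apply hφ
    have h3 : φ (aeval x (minpoly ℤ (io (x : N)))) =
        aeval (φ x) (minpoly ℤ (io (x : N))) := by
      rw [aeval_def, aeval_def, hom_eval₂]
      congr 1
      exact RingHom.ext_int _ _
    rw [h3, map_zero]
    exact h2
  have h2 := Polynomial.divX_mul_X_add (minpoly ℤ (io (x : N)))
  have h3 := congrArg (aeval x) h2
  rw [map_add, map_mul, aeval_X, aeval_C, h1] at h3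
  have h4 : (((minpoly ℤ (io (x : N))).coeff 0 : ℤ) : 𝓞 N) =
      -(aeval x (minpoly ℤ (io (x : N))).divX * x) := by
    have h5 : (algebraMap ℤ (𝓞 N)) ((minpoly ℤ (io (x : N))).coeff 0) =
        (((minpoly ℤ (io (x : N))).coeff 0 : ℤ) : 𝓞 N) := rfl
    rw [h5] at h3
    linear_combination h3
  rw [h4]
  exact r.neg_mem (r.mul_mem_left _ hx)

/-- a prime ideal which contains an integer `a ≠ 0` contains a prime factor of `a` -/
theorem prime_mem {S : Type} [CommRing S] (r : Ideal S) (hr : r.IsPrime) (a : ℤ) (ha : a ≠ 0)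
    (h : ((a : ℤ) : S) ∈ r) : ∃ q ∈ a.natAbs.primeFactors, ((q : ℕ) : S) ∈ r := by
  have h1 : ((a.natAbs : ℕ) : S) ∈ r := by
    rcases Int.natAbs_eq a with h2 | h2
    · have h3 : ((a : ℤ) : S) = (((a.natAbs : ℕ) : ℤ) : S) := by rw [← h2]
      rw [h3, Int.cast_natCast] at h
      exact h
    · have h3 : ((a : ℤ) : S) = ((-((a.natAbs : ℕ) : ℤ) : ℤ) : S) := by rw [← h2]
      rw [h3, Int.cast_neg, Int.cast_natCast] at h
      have h4 := r.neg_mem h
      rw [neg_neg] at h4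
      exact h4
  have hn : a.natAbs ≠ 0 := Int.natAbs_ne_zero.2 ha
  generalize a.natAbs = n at h1 hn
  induction n using Nat.strong_induction_on with
  | _ n ih =>
    by_cases h2 : n = 1
    · rw [h2, Nat.cast_one] at h1
      exact absurd ((Ideal.eq_top_iff_one _).2 h1) hr.ne_top
    · obtain ⟨q, hq, k, hk⟩ := Nat.exists_prime_and_dvd h2
      rw [hk, Nat.cast_mul] at h1
      rcases hr.mem_or_mem h1 with h3 | h3
      · exact ⟨q, Nat.mem_primeFactors.2 ⟨hq, ⟨k, hk⟩, hn⟩, h3⟩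
      · have hk0 : k ≠ 0 := by
          rintro rfl
          exact hn (by rw [hk, mul_zero])
        have hkn : k < n := by
          rw [hk]
          have := hq.two_le
          nlinarith [Nat.pos_of_ne_zero hk0]
        obtain ⟨q', hq', h4⟩ := ih k hkn h3 hk0
        exact ⟨q', Nat.primeFactors_mono ⟨q, by rw [hk, mul_comm]⟩ hn hq', h4⟩

/-- the elements of `N` fixed by `σ`, as a subfield of `ℂ` -/
def fixC {F N : IntermediateField ℚ ℂ} [Algebra F N] (σ : N ≃ₐ[F] N) : IntermediateField ℚ ℂ where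
  carrier := {z | ∃ h : z ∈ N, σ ⟨z, h⟩ = ⟨z, h⟩}
  mul_mem' := by
    rintro a b ⟨ha, ha'⟩ ⟨hb, hb'⟩
    refine ⟨mul_mem ha hb, ?_⟩
    have : (⟨a * b, mul_mem ha hb⟩ : N) = ⟨a, ha⟩ * ⟨b, hb⟩ := rfl
    rw [this, map_mul, ha', hb']
  add_mem' := by
    rintro a b ⟨ha, ha'⟩ ⟨hb, hb'⟩
    refine ⟨add_mem ha hb, ?_⟩
    have : (⟨a + b, add_mem ha hb⟩ : N) = ⟨a, ha⟩ + ⟨b, hb⟩ := rfl
    rw [this, map_add, ha', hb']
  algebraMap_mem' := by
    intro r
    refine ⟨N.algebraMap_mem r, ?_⟩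
    have : (⟨algebraMap ℚ ℂ r, N.algebraMap_mem r⟩ : N) = (r : N) := by
      apply Subtype.ext; simp
    rw [this, map_ratCast]
  inv_mem' := by
    rintro a ⟨ha, ha'⟩
    refine ⟨inv_mem ha, ?_⟩
    have : (⟨a⁻¹, inv_mem ha⟩ : N) = (⟨a, ha⟩ : N)⁻¹ := rfl
    rw [this, map_inv₀, ha']

/-- an integral element which generates `E` -/
theorem prim (E : IntermediateField ℚ ℂ) [FiniteDimensional ℚ E] :
    ∃ a : ℂ, IsIntegral ℤ a ∧ E ≤ IntermediateField.adjoin ℚ {a} := by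
  obtain ⟨α, hα⟩ := @Field.exists_primitive_element ℚ E _ _ (IntermediateField.algebra' E) _ _
  have hα2 : E = IntermediateField.adjoin ℚ {(α : ℂ)} := by
    have h1 := IntermediateField.lift_adjoin_simple (F := ℚ) E α
    rw [hα, IntermediateField.lift_top] at h1
    exact h1
  have hαi : IsIntegral ℚ (α : ℂ) := (IsIntegral.of_finite ℚ α).map E.val
  obtain ⟨d, hd, hdi⟩ : ∃ d : ℤ, d ≠ 0 ∧ IsIntegral ℤ ((d : ℂ) * α) := by
    have h1 : IsAlgebraic ℤ (α : ℂ) :=
      (IsFractionRing.isAlgebraic_iff ℤ ℚ ℂ).2 hαi.isAlgebraic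
    obtain ⟨d, hd, h2⟩ := h1.exists_integral_multiple
    refine ⟨d, hd, ?_⟩
    rw [zsmul_eq_mul] at h2
    exact h2
  refine ⟨(d : ℂ) * α, hdi, hα2.le.trans ?_⟩
  rw [IntermediateField.adjoin_simple_le_iff]
  have h1 : (d : ℂ) * α ∈ IntermediateField.adjoin ℚ {(d : ℂ) * α} :=
    IntermediateField.mem_adjoin_simple_self ℚ _
  have h2 : (d : ℂ)⁻¹ * ((d : ℂ) * α) = (α : ℂ) := by
    rw [← mul_assoc, inv_mul_cancel₀ (Int.cast_ne_zero.2 hd), one_mul]
  have h3 : (d : ℂ)⁻¹ * ((d : ℂ) * α) ∈ IntermediateField.adjoin ℚ {(d : ℂ) * α} :=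
    mul_mem (inv_mem (intCast_mem _ d)) h1
  rw [h2] at h3
  exact h3

/-- the ramification index of a prime of `M`, `F ≤ M ≤ F ⊔ K₁`, `K₁ / ℚ` Galois generated by a set `S` -/
theorem core (F M K₁ : IntermediateField ℚ ℂ) [FiniteDimensional ℚ F] [FiniteDimensional ℚ K₁]
    [IsGalois ℚ K₁] (h : F ≤ M) (hM : M ≤ F ⊔ K₁) (S : Set ℂ)
    (hS : K₁ = IntermediateField.adjoin ℚ S) (R : Ideal (𝓞 M)) [R.IsPrime]
    (hR : letI := algC (h.trans hM)
      letI := algC hM
      ∀ r : Ideal (𝓞 ↥(F ⊔ K₁)), r.IsPrime → r.LiesOver R →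
      ∀ σ : ↥(F ⊔ K₁) ≃ₐ[F] ↥(F ⊔ K₁), σ ∈ r.inertia (↥(F ⊔ K₁) ≃ₐ[F] ↥(F ⊔ K₁)) →
      ∀ z ∈ S, ∀ hz : z ∈ F ⊔ K₁, σ ⟨z, hz⟩ = ⟨z, hz⟩) :
    letI := algC h
    R.ramificationIdx (𝓞 F) = 1 := by
  have hfN : FiniteDimensional ℚ ↥(F ⊔ K₁) := IntermediateField.finiteDimensional_sup F K₁
  have hfM : FiniteDimensional ℚ M := FiniteDimensional.of_injective
    (IntermediateField.inclusion hM).toLinearMap (IntermediateField.inclusion hM).toRingHom.injective
  have hbot : IsGalois ↥(⊥ : IntermediateField ℚ ℂ)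
      (IntermediateField.extendScalars (bot_le : (⊥ : IntermediateField ℚ ℂ) ≤ K₁)) := by
    let e : K₁ ≃ₐ[ℚ] (IntermediateField.extendScalars
        (bot_le : (⊥ : IntermediateField ℚ ℂ) ≤ K₁)) :=
      { toFun := fun x => ⟨x.1, x.2⟩
        invFun := fun x => ⟨x.1, x.2⟩
        left_inv := fun _ => rfl
        right_inv := fun _ => rfl
        map_mul' := fun _ _ => rfl
        map_add' := fun _ _ => rfl
        commutes' := fun _ => rfl }
    have : IsGalois ℚ (IntermediateField.extendScalars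
        (bot_le : (⊥ : IntermediateField ℚ ℂ) ≤ K₁)) := IsGalois.of_algEquiv e
    exact IsGalois.tower_top_of_isGalois ℚ _ _
  have h1 := (BCH_thm.1 ⊥ K₁ F F (F ⊔ K₁) bot_le le_sup_left (bot_sup_eq F).symm
    (sup_comm F K₁) hbot).1
  let : Algebra F M := algC h
  let : Algebra M ↥(F ⊔ K₁) := algC hM
  let : Algebra F ↥(F ⊔ K₁) := algC (h.trans hM)
  have : IsScalarTower F M ↥(F ⊔ K₁) := towerC h hM
  have : IsGalois F ↥(F ⊔ K₁) := (isGalois_algC (h.trans hM)).2 h1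
  refine unram (F := F) (M := M) (N := ↥(F ⊔ K₁)) R ?_
  intro r hr hrR σ hσ
  have h2 := hR r hr hrR σ hσ
  have h3 : F ⊔ K₁ ≤ fixC σ := by
    refine sup_le ?_ ?_
    · intro z hz
      exact ⟨(le_sup_left : F ≤ F ⊔ K₁) hz, σ.commutes ⟨z, hz⟩⟩
    · refine hS.le.trans ?_
      rw [IntermediateField.adjoin_le_iff]
      intro z hz
      have hz2 : z ∈ F ⊔ K₁ := by
        apply (le_sup_right : K₁ ≤ F ⊔ K₁)
        rw [hS]
        exact IntermediateField.subset_adjoin ℚ S hz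
      exact ⟨hz2, h2 z hz hz2⟩
  apply AlgEquiv.ext
  intro x
  obtain ⟨_, h4⟩ := h3 x.2
  exact h4

/-- the splitting field of `g · (X ^ n - 1)` -/
theorem splitf (g : ℤ[X]) (hg : g.Monic) (n : ℕ) (hn : 0 < n) :
    ∃ (K₁ : IntermediateField ℚ ℂ) (S : Set ℂ), FiniteDimensional ℚ K₁ ∧ IsGalois ℚ K₁ ∧
      K₁ = IntermediateField.adjoin ℚ S ∧ ∀ z : ℂ, z ∈ S ↔ (aeval z g = 0 ∨ z ^ n = 1) := by
  set f : ℚ[X] := g.map (algebraMap ℤ ℚ) * (X ^ n - C 1) with hf
  have hf0 : f ≠ 0 := mul_ne_zero (hg.map _).ne_zero (monic_X_pow_sub_C (1 : ℚ) hn.ne').ne_zero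
  have hsp : IsSplittingField ℚ (IntermediateField.adjoin ℚ (f.rootSet ℂ)) f :=
    IntermediateField.adjoin_rootSet_isSplittingField (IsAlgClosed.splits _)
  refine ⟨IntermediateField.adjoin ℚ (f.rootSet ℂ), f.rootSet ℂ,
    IsSplittingField.finiteDimensional _ f, ?_, rfl, ?_⟩
  · have h1 : Normal ℚ (IntermediateField.adjoin ℚ (f.rootSet ℂ)) :=
      Normal.of_isSplittingField f
    exact isGalois_iff.2 ⟨inferInstance, h1⟩
  · intro z
    rw [mem_rootSet, hf, map_mul, mul_eq_zero, aeval_map_algebraMap, ← hf]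
    have h2 : aeval z (X ^ n - C (1 : ℚ)) = z ^ n - 1 := by simp
    rw [h2, sub_eq_zero]
    exact ⟨fun h => h.2, fun h => ⟨hf0, h⟩⟩

/-- an element of the inertia group of a prime not above `p` fixes the roots of unity of order a power of `p` -/
theorem rou {F N : Type} [Field F] [NumberField F] [Field N] [NumberField N] [Algebra F N]
    (p m : ℕ) [hp : Fact p.Prime] (r : Ideal (𝓞 N)) (hr : r.IsPrime) (hpr : (p : 𝓞 N) ∉ r)
    (σ : N ≃ₐ[F] N) (hσ : σ ∈ r.inertia (N ≃ₐ[F] N)) (ζ : N) (hζ : ζ ^ (p ^ m) = 1) :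
    σ ζ = ζ := by
  have hmpos : 0 < p ^ m := pow_pos hp.out.pos m
  have hint : IsIntegral ℤ ζ := ⟨Polynomial.X ^ (p ^ m) - 1,
    Polynomial.monic_X_pow_sub_C 1 hmpos.ne', by simp [hζ]⟩
  obtain ⟨z, hz⟩ : ∃ z : 𝓞 N, (z : N) = ζ := ⟨⟨ζ, hint⟩, rfl⟩
  have hzp : z ^ (p ^ m) = 1 := by
    apply RingOfIntegers.ext
    have h3 : ((z ^ (p ^ m) : 𝓞 N) : N) = (z : N) ^ (p ^ m) := map_pow (algebraMap (𝓞 N) N) z _
    rw [h3, hz, hζ]
    exact (map_one (algebraMap (𝓞 N) N)).symm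
  have h4 : z ^ (p ^ m - 1) * z = 1 := by
    rw [← pow_succ, Nat.sub_add_cancel hmpos, hzp]
  have h5 : σ • z - z ∈ r := hσ z
  have h6 : σ • z * z ^ (p ^ m - 1) = 1 := by
    refine RAM.eq_one_of_mem r p m hpr _ ?_ ?_
    · rw [mul_pow, ← smul_pow', hzp, smul_one, one_mul, ← pow_mul, mul_comm, pow_mul, hzp,
        one_pow]
    · have h7 : σ • z * z ^ (p ^ m - 1) - 1 = z ^ (p ^ m - 1) * (σ • z - z) := by
        rw [mul_sub, h4, mul_comm]
      rw [h7]
      exact r.mul_mem_left _ h5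
  have h7 : σ • z = z := by
    calc σ • z = σ • z * (z ^ (p ^ m - 1) * z) := by rw [h4, mul_one]
      _ = (σ • z * z ^ (p ^ m - 1)) * z := by ring
      _ = z := by rw [h6, one_mul]
  have h9 := congrArg (fun y : 𝓞 N => (y : N)) h7
  have h10 : ((σ • z : 𝓞 N) : N) = σ (z : N) := rfl
  simp only [h10, hz] at h9
  exact h9

/-- an element of the inertia group fixes the roots of `g` if the prime does not contain the prime factors of the
constant coefficients of the minimal polynomials of the differences -/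
theorem rooto {F N : Type} [Field F] [NumberField F] [Field N] [NumberField N] [Algebra F N]
    (io : N →+* ℂ) (g : ℤ[X]) (hg : g.Monic) (r : Ideal (𝓞 N)) (hr : r.IsPrime)
    (hT : ∀ b b' : ℂ, aeval b g = 0 → aeval b' g = 0 →
      ∀ q ∈ ((minpoly ℤ (b' - b)).coeff 0).natAbs.primeFactors, ((q : ℕ) : 𝓞 N) ∉ r)
    (σ : N ≃ₐ[F] N) (hσ : σ ∈ r.inertia (N ≃ₐ[F] N)) (z : N) (hz : aeval (io z) g = 0) :
    σ z = z := by
  have hev : ∀ w : N, aeval (io w) g = io (aeval w g) := by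
    intro w
    rw [aeval_def, aeval_def, hom_eval₂]
    congr 1
    exact RingHom.ext_int _ _
  have hz0 : aeval z g = 0 := by
    apply io.injective
    rw [← hev, hz, map_zero]
  have hint : IsIntegral ℤ z := ⟨g, hg, hz0⟩
  have hσz : aeval (σ z) g = 0 := by
    have h1 : aeval (σ z) g = σ (aeval z g) := by
      rw [aeval_def, aeval_def]
      have h2 := hom_eval₂ g (algebraMap ℤ N) (σ : N →+* N) z
      have h3 : (σ : N →+* N).comp (algebraMap ℤ N) = algebraMap ℤ N := RingHom.ext_int _ _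
      rw [h3] at h2
      exact h2.symm
    rw [h1, hz0, map_zero]
  have hσz' : aeval (io (σ z)) g = 0 := by
    rw [hev, hσz, map_zero]
  obtain ⟨x, hx⟩ : ∃ x : 𝓞 N, (x : N) = z := ⟨⟨z, hint⟩, rfl⟩
  have h5 : σ • x - x ∈ r := hσ x
  have h6 : io (((σ • x - x : 𝓞 N)) : N) = io (σ z) - io z := by
    have h7 : ((σ • x - x : 𝓞 N) : N) = σ (x : N) - (x : N) := rfl
    rw [h7, hx, map_sub]
  by_contra hne
  have hne' : io (σ z) - io z ≠ 0 := fun h => hne (io.injective (sub_eq_zero.1 h))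
  have hi1 : IsIntegral ℤ (io (σ z) - io z) :=
    IsIntegral.sub ⟨g, hg, hσz'⟩ ⟨g, hg, hz⟩
  have hc : (minpoly ℤ (io (σ z) - io z)).coeff 0 ≠ 0 := by
    intro h0
    have h1 : minpoly ℚ (io (σ z) - io z) = (minpoly ℤ (io (σ z) - io z)).map (algebraMap ℤ ℚ) :=
      minpoly.isIntegrallyClosed_eq_field_fractions' ℚ hi1
    have h2 := minpoly.coeff_zero_ne_zero (A := ℚ) (hi1.tower_top) hne'
    rw [h1, coeff_map, h0, map_zero] at h2
    exact h2 rfl
  have hm := coeff_mem io r _ h5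
  rw [h6] at hm
  obtain ⟨q, hq, hqr⟩ := prime_mem r hr _ hc hm
  exact hT _ _ hz hσz' q hq hqr

end URE

theorem t_URE : S_URE := by
  intro p _ E _
  obtain ⟨a, hai, haE⟩ := URE.prim E
  have hgm : (minpoly ℤ a).Monic := minpoly.monic hai
  have hga : aeval a (minpoly ℤ a) = 0 := minpoly.aeval ℤ a
  generalize minpoly ℤ a = g at hgm hga
  have hfin : (g.rootSet ℂ).Finite := rootSet_finite g ℂ
  classical
  let T : Finset ℕ := insert p ((hfin.toFinset ×ˢ hfin.toFinset).biUnion fun x =>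
    ((minpoly ℤ (x.2 - x.1)).coeff 0).natAbs.primeFactors)
  refine ⟨T, ?_, ?_⟩
  · intro q hq
    rcases Finset.mem_insert.1 hq with rfl | h
    · exact Fact.out
    · obtain ⟨x, -, hx⟩ := Finset.mem_biUnion.1 h
      exact Nat.prime_of_mem_primeFactors hx
  · intro F _ m Q hQ h P hP hP0 hR
    by_contra hno
    push Not at hno
    obtain ⟨R, hRp, hRP, he⟩ := hR
    apply he
    obtain ⟨-, -, m', hm'⟩ := hQ
    have hpm : 0 < p ^ m' := pow_pos (Fact.out : p.Prime).pos m'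
    obtain ⟨K₁, S, hfK, hGK, hS, hmem⟩ := URE.splitf g hgm (p ^ m') hpm
    have haS : a ∈ S := (hmem a).2 (Or.inl hga)
    have hMN : F ⊔ E ⊔ Q ≤ F ⊔ K₁ := by
      refine sup_le (sup_le le_sup_left ?_) ?_
      · refine haE.trans (le_trans ?_ le_sup_right)
        rw [IntermediateField.adjoin_simple_le_iff, hS]
        exact IntermediateField.subset_adjoin ℚ S haS
      · refine hm'.trans (le_trans ?_ le_sup_right)
        rw [IntermediateField.adjoin_le_iff]
        intro z hz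
        rw [hS]
        exact IntermediateField.subset_adjoin ℚ S ((hmem z).2 (Or.inr hz))
    have hfN : FiniteDimensional ℚ ↥(F ⊔ K₁) := IntermediateField.finiteDimensional_sup F K₁
    refine URE.core F (F ⊔ E ⊔ Q) K₁ h hMN S hS R ?_
    let : Algebra F ↥(F ⊔ E ⊔ Q) := algC h
    let : Algebra ↥(F ⊔ E ⊔ Q) ↥(F ⊔ K₁) := algC hMN
    let : Algebra F ↥(F ⊔ K₁) := algC (h.trans hMN)
    intro r hr hrR σ hσ z hz hzN
    have hq : ∀ q ∈ T, ((q : ℕ) : 𝓞 ↥(F ⊔ K₁)) ∉ r := by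
      intro q hq hqr
      apply hno q hq
      rw [← hRP, Ideal.mem_comap, map_natCast, hrR.over, Ideal.mem_comap, map_natCast]
      exact hqr
    rcases (hmem z).1 hz with h1 | h1
    · refine URE.rooto (F ⊔ K₁).val.toRingHom g hgm r hr ?_ σ hσ ⟨z, hzN⟩ h1
      intro b b' hb hb' q hq'
      refine hq q (Finset.mem_insert_of_mem (Finset.mem_biUnion.2 ⟨(b, b'), ?_, hq'⟩))
      rw [Finset.mem_product, Set.Finite.mem_toFinset, Set.Finite.mem_toFinset]
      exact ⟨mem_rootSet.2 ⟨hgm.ne_zero, hb⟩, mem_rootSet.2 ⟨hgm.ne_zero, hb'⟩⟩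
    · exact URE.rou p m' r hr (hq p (Finset.mem_insert_self _ _)) σ hσ ⟨z, hzN⟩
        (Subtype.ext h1)

end Pool.Agent.TWF
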